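import Mathlib
import Pool.Agent.H373R2.T7.SysMain2

set_option autoImplicit false

/-! The main term: von Mangoldt in a class against the sieve model of the complement. -/

namespace Pool.Agent.N730.PT
open Finset
open Pool.Agent.H373R2.T7

/-- the odd primes up to `z` -/
def ow (z : ℕ) : Finset ℕ := (Icc 3 z).filter Nat.Prime

lemma mem_ow {z p : ℕ} : p ∈ ow z ↔ 3 ≤ p ∧ p ≤ z ∧ p.Prime := by
  unfold ow
  rw [mem_filter, mem_Icc]
  tauto

lemma ow_sub_pz {w z : ℕ} (h : w ≤ z) : ow w ⊆ pz z := by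
  intro p hp
  rw [mem_ow] at hp
  rw [mem_pz]
  exact ⟨hp.2.1.trans h, hp.2.2⟩

lemma pz_eq (z : ℕ) (hz : 2 ≤ z) : pz z = insert 2 (ow z) := by
  ext p
  rw [mem_insert, mem_pz, mem_ow]
  constructor
  · rintro ⟨h1, h2⟩
    have := h2.two_le
    by_cases h : p = 2
    · exact Or.inl h
    · exact Or.inr ⟨by omega, h1, h2⟩
  · rintro (h | ⟨_, h1, h2⟩)
    · rw [h]; exact ⟨hz, Nat.prime_two⟩
    · exact ⟨h1, h2⟩

lemma two_notMem_ow (z : ℕ) : 2 ∉ ow z := by
  rw [mem_ow]; omega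

/-- the conditions -/
def Qc (T : Finset ℕ) (c n : ℕ) (p m : ℕ) : Prop := (p ∈ T ∧ m % p ≠ c % p) ∨ m % p = n % p

lemma Qc_perA (w : ℕ) (hw : 1 ≤ w) (T : Finset ℕ) (hT : T ⊆ ow w) (c n : ℕ) : PerA (Qc T c n) w := by
  classical
  constructor
  · intro p m
    unfold Qc
    rw [Nat.mod_mod]
  · intro p hp
    by_cases h : p ∈ T
    · have h1 := (mem_ow.1 (hT h)).2.1
      exact (rhoA_le _ _).trans (by omega)
    · unfold rhoA
      have h1 : (range p).filter (fun r => ¬ p ∣ r ∧ Qc T c n p r) ⊆ {n % p} := by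
        intro r hr
        rw [mem_filter, mem_range] at hr
        unfold Qc at hr
        rw [mem_singleton]
        rcases hr.2.2 with h2 | h2
        · exact absurd h2.1 h
        · rw [← h2, Nat.mod_eq_of_lt hr.1]
      refine (card_le_card h1).trans ?_
      simpa using hw

/-- the local factors -/
noncomputable def loc (T : Finset ℕ) (n p : ℕ) : ℝ :=
  if p ∈ T then (p : ℝ) / ((p : ℝ) - 1) ^ 2 else if p ∣ n then (p : ℝ) / ((p : ℝ) - 1) else 1 - 1 / ((p : ℝ) - 1) ^ 2

lemma loc_nonneg (T : Finset ℕ) (n p : ℕ) (hp : 3 ≤ p) : 0 ≤ loc T n p := by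
  have h : (3 : ℝ) ≤ p := by exact_mod_cast hp
  have h1 : 0 < (p : ℝ) - 1 := by linarith
  unfold loc
  split_ifs
  · positivity
  · positivity
  · rw [sub_nonneg, div_le_one (by positivity)]
    nlinarith

lemma card_range_ndvd (p : ℕ) (hp : 1 ≤ p) : ((range p).filter (fun r => ¬ p ∣ r)).card = p - 1 := by
  have h : (range p).filter (fun r => ¬ p ∣ r) = Ico 1 p := by
    ext r
    rw [mem_filter, mem_range, mem_Ico]
    constructor
    · rintro ⟨h1, h2⟩
      refine ⟨?_, h1⟩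
      rcases Nat.eq_zero_or_pos r with h | h
      · exact absurd (h ▸ dvd_zero _) h2
      · exact h
    · rintro ⟨h1, h2⟩
      exact ⟨h2, fun h => absurd (Nat.le_of_dvd (by omega) h) (by omega)⟩
  rw [h, Nat.card_Ico]

/-- the number of bad classes at a prime of `T` -/
lemma rho_mem (T : Finset ℕ) (c n p : ℕ) (hp3 : 3 ≤ p) (hp : p.Prime) (hpT : p ∈ T) (hc : ¬ p ∣ c)
    (hn : n % p = (2 * c) % p) : rhoA (Qc T c n) p = p - 2 := by
  classical
  unfold rhoA
  have h : (range p).filter (fun r => ¬ p ∣ r ∧ Qc T c n p r) = ((range p).filter (fun r => ¬ p ∣ r)).erase (c % p) := by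
    ext r
    rw [mem_filter, mem_erase, mem_filter]
    constructor
    · rintro ⟨h1, h2, h3⟩
      refine ⟨?_, h1, h2⟩
      rw [mem_range] at h1
      unfold Qc at h3
      rcases h3 with h3 | h3
      · rw [Nat.mod_eq_of_lt h1] at h3
        exact h3.2
      · rw [Nat.mod_eq_of_lt h1, hn] at h3
        intro h4
        rw [h4] at h3
        have h5 : c ≡ 2 * c [MOD p] := h3
        have h6 : p ∣ 2 * c - c := (Nat.modEq_iff_dvd' (by omega)).1 h5
        have h7 : 2 * c - c = c := by omega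
        rw [h7] at h6
        exact hc h6
    · rintro ⟨h1, h2, h3⟩
      refine ⟨h2, h3, ?_⟩
      unfold Qc
      left
      rw [mem_range] at h2
      rw [Nat.mod_eq_of_lt h2]
      exact ⟨hpT, h1⟩
  rw [h, card_erase_of_mem, card_range_ndvd p (by omega)]
  · omega
  · rw [mem_filter, mem_range]
    refine ⟨Nat.mod_lt _ (by omega), ?_⟩
    intro h2
    exact hc ((Nat.dvd_mod_iff (dvd_refl p)).1 h2)

lemma rho_notMem (T : Finset ℕ) (c n p : ℕ) (hp : p.Prime) (hpT : p ∉ T) :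
    rhoA (Qc T c n) p = if p ∣ n then 0 else 1 := by
  classical
  unfold rhoA
  split_ifs with hd
  · rw [card_eq_zero, filter_eq_empty_iff]
    rintro r hr ⟨h1, h2⟩
    rw [mem_range] at hr
    unfold Qc at h2
    rcases h2 with h2 | h2
    · exact hpT h2.1
    · rw [Nat.mod_eq_of_lt hr, Nat.mod_eq_zero_of_dvd hd] at h2
      exact h1 (h2 ▸ dvd_zero _)
  · rw [card_eq_one]
    refine ⟨n % p, ?_⟩
    ext r
    rw [mem_filter, mem_singleton, mem_range]
    unfold Qc
    constructor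
    · rintro ⟨h1, h2, h3⟩
      rcases h3 with h3 | h3
      · exact absurd h3.1 hpT
      · rw [← h3, Nat.mod_eq_of_lt h1]
    · rintro rfl
      refine ⟨Nat.mod_lt _ hp.pos, ?_, Or.inr (Nat.mod_mod _ _)⟩
      intro h2
      exact hd ((Nat.dvd_mod_iff (dvd_refl p)).1 h2)

/-- the singular series of the model -/
lemma sing_model (z : ℕ) (hz : 2 ≤ z) (T : Finset ℕ) (hT : T ⊆ ow z) (c n : ℕ) (hn2 : 2 ∣ n)
    (hc : ∀ p ∈ T, ¬ p ∣ c) (hn : ∀ p ∈ T, n % p = (2 * c) % p) :
    (Vz z)⁻¹ * ∏ p ∈ pz z, (1 - (rhoA (Qc T c n) p : ℝ) / (p - 1 : ℝ)) = 2 * ∏ p ∈ ow z, loc T n p := by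
  unfold Vz
  rw [← prod_inv_distrib, ← prod_mul_distrib, pz_eq z hz, prod_insert (two_notMem_ow z)]
  have h2T : 2 ∉ T := fun h => two_notMem_ow z (hT h)
  congr 1
  · rw [rho_notMem T c n 2 Nat.prime_two h2T, if_pos hn2]
    norm_num
  · apply prod_congr rfl
    intro p hp
    rw [mem_ow] at hp
    have h3 : (3 : ℝ) ≤ p := by exact_mod_cast hp.1
    have h4 : (p : ℝ) - 1 ≠ 0 := by
      have : 0 < (p : ℝ) - 1 := by linarith
      exact this.ne'
    have h5 : (p : ℝ) ≠ 0 := by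
      have : 0 < (p : ℝ) := by linarith
      exact this.ne'
    have h6 : (1 : ℝ) - 1 / p = (p - 1) / p := by field_simp
    unfold loc
    by_cases hpT : p ∈ T
    · rw [if_pos hpT, rho_mem T c n p hp.1 hp.2.2 hpT (hc p hpT) (hn p hpT), Nat.cast_sub (by omega), h6, inv_div]
      push_cast
      field_simp
      ring
    · rw [if_neg hpT, rho_notMem T c n p hp.2.2 hpT, h6, inv_div]
      split_ifs
      · push_cast
        simp
      · push_cast
        field_simp
        ring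

/-- the tail of the singular series -/
lemma tail_prod (w : ℕ) (hw : 2 ≤ w) (z : ℕ) (hz : w ≤ z) :
    (1 - 1 / (w : ℝ)) * ((z : ℝ) / (z - 1)) ≤ ∏ p ∈ ow z \ ow w, (1 - 1 / ((p : ℝ) - 1) ^ 2) := by
  induction z, hz using Nat.le_induction with
  | base =>
    have hwr : (2 : ℝ) ≤ w := by exact_mod_cast hw
    rw [sdiff_self, Finset.bot_eq_empty, prod_empty]
    have h1 : (w : ℝ) - 1 ≠ 0 := by linarith
    have h2 : (w : ℝ) ≠ 0 := by linarith
    apply le_of_eq
    field_simp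
  | succ z hz ih =>
    have hzr : (2 : ℝ) ≤ z := by exact_mod_cast hw.trans hz
    have hwr : (2 : ℝ) ≤ w := by exact_mod_cast hw
    have h4 : (z : ℝ) - 1 ≠ 0 := by linarith
    have h5 : (z : ℝ) ≠ 0 := by linarith
    have h0 : 0 ≤ ∏ p ∈ ow z \ ow w, (1 - 1 / ((p : ℝ) - 1) ^ 2) := by
      apply prod_nonneg
      intro p hp
      rw [mem_sdiff, mem_ow] at hp
      have h : (3 : ℝ) ≤ p := by exact_mod_cast hp.1.1
      rw [sub_nonneg, div_le_one (by nlinarith)]
      nlinarith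
    have hfac : 1 - 1 / (z : ℝ) ^ 2 ≤ 1 := by
      have : 0 ≤ 1 / (z : ℝ) ^ 2 := by positivity
      linarith
    have hfac0 : 0 ≤ 1 - 1 / (z : ℝ) ^ 2 := by
      rw [sub_nonneg, div_le_one (by positivity)]
      nlinarith
    have step : (1 - 1 / (z : ℝ) ^ 2) * ∏ p ∈ ow z \ ow w, (1 - 1 / ((p : ℝ) - 1) ^ 2) ≤
        ∏ p ∈ ow (z + 1) \ ow w, (1 - 1 / ((p : ℝ) - 1) ^ 2) := by
      by_cases hp : (z + 1).Prime
      · have e : ow (z + 1) \ ow w = insert (z + 1) (ow z \ ow w) := by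
          ext p
          simp only [mem_sdiff, mem_insert, mem_ow]
          constructor
          · rintro ⟨⟨h1, h2, h3⟩, h4⟩
            by_cases h5 : p = z + 1
            · exact Or.inl h5
            · exact Or.inr ⟨⟨h1, by omega, h3⟩, h4⟩
          · rintro (h | ⟨⟨h1, h2, h3⟩, h4⟩)
            · rw [h]
              exact ⟨⟨by omega, le_rfl, hp⟩, by omega⟩
            · exact ⟨⟨h1, by omega, h3⟩, h4⟩
        rw [e, prod_insert (by simp [mem_ow])]
        have e9 : (((z + 1 : ℕ) : ℝ) - 1) = z := by push_cast; ring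
        rw [e9]
      · have e : ow (z + 1) \ ow w = ow z \ ow w := by
          ext p
          simp only [mem_sdiff, mem_ow]
          constructor
          · rintro ⟨⟨h1, h2, h3⟩, h4⟩
            refine ⟨⟨h1, ?_, h3⟩, h4⟩
            by_contra h5
            have : p = z + 1 := by omega
            exact hp (this ▸ h3)
          · rintro ⟨⟨h1, h2, h3⟩, h4⟩
            exact ⟨⟨h1, by omega, h3⟩, h4⟩
        rw [e]
        exact mul_le_of_le_one_left h0 hfac
    refine le_trans ?_ step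
    have e2 : (1 - 1 / (w : ℝ)) * (((z + 1 : ℕ) : ℝ) / (((z + 1 : ℕ) : ℝ) - 1)) =
        (1 - 1 / (z : ℝ) ^ 2) * ((1 - 1 / (w : ℝ)) * ((z : ℝ) / (z - 1))) := by
      have e9 : (((z + 1 : ℕ) : ℝ) - 1) = z := by push_cast; ring
      rw [e9]
      push_cast
      field_simp
      ring
    rw [e2]
    exact mul_le_mul_of_nonneg_left ih hfac0

/-- a lower bound for the singular series by a finite product -/
lemma sing_low (w : ℕ) (hw : 2 ≤ w) (z : ℕ) (hz : w ≤ z) (T : Finset ℕ) (hT : T ⊆ ow w) (n : ℕ) :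
    (1 - 1 / (w : ℝ)) * ∏ p ∈ ow w, loc T n p ≤ ∏ p ∈ ow z, loc T n p := by
  have hsub : ow w ⊆ ow z := by
    intro p hp
    rw [mem_ow] at hp ⊢
    exact ⟨hp.1, hp.2.1.trans hz, hp.2.2⟩
  rw [← prod_sdiff hsub]
  apply mul_le_mul_of_nonneg_right _ (prod_nonneg fun p hp => loc_nonneg T n p (mem_ow.1 hp).1)
  have h1 := tail_prod w hw z hz
  have hzr : (2 : ℝ) ≤ z := by exact_mod_cast hw.trans hz
  have hwr : (2 : ℝ) ≤ w := by exact_mod_cast hw
  have h2 : (1 : ℝ) ≤ (z : ℝ) / (z - 1) := by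
    rw [le_div_iff₀ (by linarith)]
    linarith
  have h5 : 0 ≤ 1 - 1 / (w : ℝ) := by
    rw [sub_nonneg, div_le_one (by linarith)]
    linarith
  calc 1 - 1 / (w : ℝ) = (1 - 1 / (w : ℝ)) * 1 := by ring
    _ ≤ (1 - 1 / (w : ℝ)) * ((z : ℝ) / (z - 1)) := mul_le_mul_of_nonneg_left h2 h5
    _ ≤ _ := h1
    _ ≤ _ := by
      apply prod_le_prod
      · intro p hp
        rw [mem_sdiff, mem_ow] at hp
        have h : (3 : ℝ) ≤ p := by exact_mod_cast hp.1.1
        rw [sub_nonneg, div_le_one (by nlinarith)]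
        nlinarith
      · intro p hp
        rw [mem_sdiff, mem_ow] at hp
        have h : (3 : ℝ) ≤ p := by exact_mod_cast hp.1.1
        have h6 : 0 < (p : ℝ) - 1 := by linarith
        unfold loc
        have hpT : p ∉ T := fun h => hp.2 (hT h)
        rw [if_neg hpT]
        split_ifs
        · have h7 : (1 : ℝ) ≤ p / (p - 1) := by
            rw [le_div_iff₀ h6]; linarith
          have h8 : 0 ≤ 1 / ((p : ℝ) - 1) ^ 2 := by positivity
          linarith
        · exact le_rfl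

end Pool.Agent.N730.PT
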