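import Mathlib
import Pool.Agent.N730.PT.Mod

set_option autoImplicit false

/-! Prefix sums of von Mangoldt under the sieve conditions. -/

namespace Pool.Agent.N730.PT
open Finset
open Pool.Agent.H373R2.T7

lemma prodQ_bd (Q : ℕ → ℕ → Prop) (z : ℕ) : 0 ≤ ∏ p ∈ pz z, (1 - (rhoA Q p : ℝ) / (p - 1 : ℝ)) ∧
    ∏ p ∈ pz z, (1 - (rhoA Q p : ℝ) / (p - 1 : ℝ)) ≤ 1 := by
  have hh : ∀ p ∈ pz z, 0 ≤ 1 - (rhoA Q p : ℝ) / (p - 1 : ℝ) ∧ 1 - (rhoA Q p : ℝ) / (p - 1 : ℝ) ≤ 1 := by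
    intro p hp
    have hp2 : (2 : ℝ) ≤ p := by exact_mod_cast (mem_pz.1 hp).2.two_le
    have h5 := rhoA_le Q p
    have h6 : (rhoA Q p : ℝ) ≤ ((p - 1 : ℕ) : ℝ) := by exact_mod_cast h5
    rw [Nat.cast_sub (mem_pz.1 hp).2.one_le] at h6
    push_cast at h6
    have h7 : (rhoA Q p : ℝ) / (p - 1 : ℝ) ≤ 1 := by rw [div_le_one (by linarith)]; exact h6
    have h8 : 0 ≤ (rhoA Q p : ℝ) / (p - 1 : ℝ) := div_nonneg (Nat.cast_nonneg _) (by linarith)
    constructor <;> linarith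
  exact ⟨prod_nonneg fun p hp => (hh p hp).1, prod_le_one (fun p hp => (hh p hp).1) (fun p hp => (hh p hp).2)⟩

open Classical in
theorem prefix_model (w : ℕ) (hw : 1 ≤ w) (E : ℕ) : ∃ N0 : ℕ, ∀ X : ℕ, N0 ≤ X → ∀ z : ℕ, 1 ≤ z →
    (z : ℝ) ≤ Real.log X ^ E → ∀ T : Finset ℕ, T ⊆ ow w → ∀ c n y : ℕ, y ≤ X →
    |∑ j ∈ (Icc 1 y).filter (fun j : ℕ => ∀ p ∈ pz z, ¬ Qc T c n p j), ArithmeticFunction.vonMangoldt j -
      y * ∏ p ∈ pz z, (1 - (rhoA (Qc T c n) p : ℝ) / (p - 1 : ℝ))| ≤ X / Real.log X ^ 3 := by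
  obtain ⟨m1, h1⟩ := sys_main w (E + 1) 4 hw
  obtain ⟨m3, h3⟩ := ev_log' 3 7
  obtain ⟨m4, h4⟩ := ev_L' (2 * 2 ^ E + 16)
  refine ⟨max (m1 ^ 2) (max (max m3 m4) 4), fun X hX z hz hz2 T hT c n y hy => ?_⟩
  have b1 : m1 ^ 2 ≤ X := le_trans (le_max_left _ _) hX
  have b3 := h3 X (le_trans (le_trans (le_trans (le_max_left _ _) (le_max_left _ _)) (le_max_right _ _)) hX)
  have b4 := h4 X (le_trans (le_trans (le_trans (le_max_right _ _) (le_max_left _ _)) (le_max_right _ _)) hX)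
  have b5 : 4 ≤ X := le_trans (le_trans (le_max_right _ _) (le_max_right _ _)) hX
  have hXr : (4 : ℝ) ≤ X := by exact_mod_cast b5
  have hX0 : (0 : ℝ) < X := by linarith
  obtain ⟨L, hL⟩ : ∃ L : ℝ, L = Real.log X := ⟨_, rfl⟩
  rw [← hL] at b3 b4 hz2 ⊢
  have h2E : (1 : ℝ) ≤ 2 ^ E := one_le_pow₀ (by norm_num)
  have hL1 : 1 ≤ L := by linarith
  have hL0 : 0 < L := by linarith
  obtain ⟨hP0, hP1⟩ := prodQ_bd (Qc T c n) z
  obtain ⟨P, hP⟩ : ∃ P : ℝ, P = ∏ p ∈ pz z, (1 - (rhoA (Qc T c n) p : ℝ) / (p - 1 : ℝ)) := ⟨_, rfl⟩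
  rw [← hP] at hP0 hP1 ⊢
  rcases le_or_gt (y ^ 2) X with hys | hyl
  · have e0 : ∑ j ∈ (Icc 1 y).filter (fun j : ℕ => ∀ p ∈ pz z, ¬ Qc T c n p j), ArithmeticFunction.vonMangoldt j ≤ 6 * y := by
      refine le_trans (sum_le_sum_of_subset_of_nonneg (filter_subset _ _) (fun _ _ _ => ArithmeticFunction.vonMangoldt_nonneg)) ?_
      exact lam1_le y
    have e1 : 0 ≤ ∑ j ∈ (Icc 1 y).filter (fun j : ℕ => ∀ p ∈ pz z, ¬ Qc T c n p j), ArithmeticFunction.vonMangoldt j :=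
      sum_nonneg fun _ _ => ArithmeticFunction.vonMangoldt_nonneg
    have e2 : (y : ℝ) ≤ √(X : ℝ) := by
      apply Real.le_sqrt_of_sq_le
      exact_mod_cast hys
    have e3 : √(X : ℝ) * √(X : ℝ) = X := Real.mul_self_sqrt hX0.le
    have hy0 : (0 : ℝ) ≤ y := Nat.cast_nonneg _
    have e4 : (y : ℝ) * P ≤ y := mul_le_of_le_one_right hy0 hP1
    have e5 : 0 ≤ (y : ℝ) * P := mul_nonneg hy0 hP0
    have e6 : |∑ j ∈ (Icc 1 y).filter (fun j : ℕ => ∀ p ∈ pz z, ¬ Qc T c n p j), ArithmeticFunction.vonMangoldt j - y * P| ≤ 7 * y := by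
      rw [abs_le]
      constructor <;> linarith
    refine e6.trans ?_
    rw [le_div_iff₀ (by positivity)]
    calc 7 * (y : ℝ) * L ^ 3 ≤ 7 * √(X : ℝ) * L ^ 3 := by gcongr
      _ = √(X : ℝ) * (7 * L ^ 3) := by ring
      _ ≤ √(X : ℝ) * √(X : ℝ) := by gcongr
      _ = X := e3
  · have hy1 : 1 ≤ y := by
      rcases Nat.eq_zero_or_pos y with h | h
      · rw [h] at hyl; simp at hyl
      · exact h
    have hm1y : m1 ≤ y := by
      by_contra hlt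
      push Not at hlt
      have : y ^ 2 ≤ m1 ^ 2 := Nat.pow_le_pow_left hlt.le 2
      omega
    have hy0 : (0 : ℝ) < y := by exact_mod_cast hy1
    have hly1 : L ≤ 2 * Real.log y := by
      have e1 : (X : ℝ) ≤ (y : ℝ) ^ 2 := by exact_mod_cast hyl.le
      have e2 := Real.log_le_log hX0 e1
      rw [Real.log_pow] at e2
      rw [hL]
      exact_mod_cast e2
    have hly0 : 0 < Real.log y := by linarith
    have c2 : (z : ℝ) ≤ Real.log y ^ (E + 1) := by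
      calc (z : ℝ) ≤ L ^ E := hz2
        _ ≤ (2 * Real.log y) ^ E := pow_le_pow_left₀ hL0.le hly1 E
        _ = 2 ^ E * Real.log y ^ E := mul_pow _ _ _
        _ ≤ Real.log y * Real.log y ^ E := by
            apply mul_le_mul_of_nonneg_right _ (by positivity)
            linarith
        _ = Real.log y ^ (E + 1) := by ring
    have key := h1 y hm1y z hz c2 (Qc T c n) (Qc_perA w hw T hT c n)
    rw [← hP] at key
    refine key.trans ?_
    rw [div_le_div_iff₀ (by positivity) (by positivity)]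
    have c3 : L ^ 4 ≤ 16 * Real.log y ^ 4 := by
      calc L ^ 4 ≤ (2 * Real.log y) ^ 4 := pow_le_pow_left₀ hL0.le hly1 _
        _ = 16 * Real.log y ^ 4 := by ring
    have c4 : L ^ 3 ≤ Real.log y ^ 4 := by
      have c5 : L ^ 3 * 16 ≤ L ^ 4 := by
        rw [pow_succ L 3]
        apply mul_le_mul_of_nonneg_left _ (by positivity)
        linarith
      have c6 : L ^ 3 * 16 ≤ Real.log y ^ 4 * 16 := by linarith
      exact le_of_mul_le_mul_right c6 (by norm_num)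
    have hyX : (y : ℝ) ≤ X := by exact_mod_cast hy
    calc (y : ℝ) * L ^ 3 ≤ X * L ^ 3 := by gcongr
      _ ≤ X * Real.log y ^ 4 := by gcongr

end Pool.Agent.N730.PT
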