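import Mathlib
import Pool.Agent.H373R2.T7.BilF

set_option autoImplicit false

/-! Additive convolutions in the mean square. -/

namespace Pool.Agent.N730.PT
open Finset
open Pool.Agent.H807R2.Dav Pool.Agent.H373R2.T7

/-- the additive convolution -/
noncomputable def cv (X : ℕ) (G F : ℕ → ℝ) (n : ℕ) : ℝ :=
  ∑ j ∈ Icc 1 X, ∑ k ∈ Icc 1 X, if j + k = n then G j * F k else 0

lemma cv_ft (X : ℕ) (G F : ℕ → ℝ) (M : ℕ) (t : ℕ) :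
    ∑ n ∈ Icc 1 (2 * X), ((cv X G F n : ℝ) : ℂ) * ee ((t : ℝ) * ((((1 : ℤ) * n : ℤ) : ℝ) / M)) =
      (∑ j ∈ Icc 1 X, ((G j : ℝ) : ℂ) * ee ((t : ℝ) * ((((1 : ℤ) * j : ℤ) : ℝ) / M))) *
      (∑ k ∈ Icc 1 X, ((F k : ℝ) : ℂ) * ee ((k : ℝ) * ((t : ℝ) / M))) := by
  have h1 : ∀ n ∈ Icc 1 (2 * X), ((cv X G F n : ℝ) : ℂ) * ee ((t : ℝ) * ((((1 : ℤ) * n : ℤ) : ℝ) / M)) =
      ∑ j ∈ Icc 1 X, ∑ k ∈ Icc 1 X, if j + k = n then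
        ((G j : ℝ) : ℂ) * ((F k : ℝ) : ℂ) * ee ((t : ℝ) * ((((1 : ℤ) * n : ℤ) : ℝ) / M)) else 0 := by
    intro n _
    unfold cv
    push_cast
    rw [sum_mul]
    apply sum_congr rfl
    intro j _
    rw [sum_mul]
    apply sum_congr rfl
    intro k _
    split_ifs
    · push_cast; rfl
    · simp
  rw [sum_congr rfl h1, sum_comm, sum_mul_sum]
  apply sum_congr rfl
  intro j hj
  rw [sum_comm]
  apply sum_congr rfl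
  intro k hk
  rw [sum_ite_eq, if_pos]
  · have h2 : (t : ℝ) * ((((1 : ℤ) * ((j + k : ℕ) : ℤ) : ℤ) : ℝ) / M) =
        (t : ℝ) * ((((1 : ℤ) * j : ℤ) : ℝ) / M) + (k : ℝ) * ((t : ℝ) / M) := by
      push_cast
      ring
    rw [h2, ee_add]
    ring
  · rw [mem_Icc] at hj hk ⊢
    omega

theorem cv_l2 (X : ℕ) (G F : ℕ → ℝ) (δ : ℝ)
    (hF : ∀ α : ℝ, ‖∑ k ∈ Icc 1 X, ((F k : ℝ) : ℂ) * ee ((k : ℝ) * α)‖ ≤ δ) :
    ∑ n ∈ Icc 1 (2 * X), cv X G F n ^ 2 ≤ δ ^ 2 * ∑ j ∈ Icc 1 X, G j ^ 2 := by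
  obtain ⟨M, hM⟩ : ∃ M : ℕ, M = 2 * X + 1 := ⟨_, rfl⟩
  have hM1 : 1 ≤ M := by omega
  have hM0 : (0 : ℝ) < M := by exact_mod_cast hM1
  have h1 := parseval_Icc (2 * X) M hM1 (by omega) (fun n => ((cv X G F n : ℝ) : ℂ)) 1 (Or.inl rfl)
  have h2 := parseval_Icc X M hM1 (by omega) (fun n => ((G n : ℝ) : ℂ)) 1 (Or.inl rfl)
  have h3 : ∑ n ∈ Icc 1 (2 * X), ‖((cv X G F n : ℝ) : ℂ)‖ ^ 2 = ∑ n ∈ Icc 1 (2 * X), cv X G F n ^ 2 := by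
    apply sum_congr rfl
    intro n _
    rw [Complex.norm_real, Real.norm_eq_abs, sq_abs]
  have h4 : ∑ n ∈ Icc 1 X, ‖((G n : ℝ) : ℂ)‖ ^ 2 = ∑ n ∈ Icc 1 X, G n ^ 2 := by
    apply sum_congr rfl
    intro n _
    rw [Complex.norm_real, Real.norm_eq_abs, sq_abs]
  rw [h3] at h1
  rw [h4] at h2
  have hδ : 0 ≤ δ := (norm_nonneg _).trans (hF 0)
  have h5 : ∑ t ∈ range M, ‖∑ n ∈ Icc 1 (2 * X), ((cv X G F n : ℝ) : ℂ) * ee ((t : ℝ) * ((((1 : ℤ) * n : ℤ) : ℝ) / M))‖ ^ 2 ≤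
      ∑ t ∈ range M, δ ^ 2 * ‖∑ j ∈ Icc 1 X, ((G j : ℝ) : ℂ) * ee ((t : ℝ) * ((((1 : ℤ) * j : ℤ) : ℝ) / M))‖ ^ 2 := by
    apply sum_le_sum
    intro t _
    rw [cv_ft, norm_mul, mul_pow, mul_comm]
    apply mul_le_mul_of_nonneg_right _ (by positivity)
    exact pow_le_pow_left₀ (norm_nonneg _) (hF _) 2
  rw [h1, ← mul_sum, h2] at h5
  have h6 : (M : ℝ) * ∑ n ∈ Icc 1 (2 * X), cv X G F n ^ 2 ≤ M * (δ ^ 2 * ∑ j ∈ Icc 1 X, G j ^ 2) := by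
    refine h5.trans (le_of_eq ?_)
    ring
  exact le_of_mul_le_mul_left h6 hM0

/-- few exceptions -/
theorem cv_few (X : ℕ) (G F : ℕ → ℝ) (δ K τ : ℝ) (hK : 0 ≤ K) (hG : ∀ j ∈ Icc 1 X, |G j| ≤ K)
    (hF : ∀ α : ℝ, ‖∑ k ∈ Icc 1 X, ((F k : ℝ) : ℂ) * ee ((k : ℝ) * α)‖ ≤ δ) (hτ : 0 < τ) :
    (((Icc 1 (2 * X)).filter (fun n => τ < |cv X G F n|)).card : ℝ) * τ ^ 2 ≤ δ ^ 2 * (X * K ^ 2) := by
  have h1 := cv_l2 X G F δ hF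
  have h2 : ∑ j ∈ Icc 1 X, G j ^ 2 ≤ X * K ^ 2 := by
    have h3 : ∀ j ∈ Icc 1 X, G j ^ 2 ≤ K ^ 2 := by
      intro j hj
      rw [← sq_abs]
      exact pow_le_pow_left₀ (abs_nonneg _) (hG j hj) 2
    refine (sum_le_sum h3).trans ?_
    rw [sum_const, Nat.card_Icc, nsmul_eq_mul]
    simp
  have h3 : (((Icc 1 (2 * X)).filter (fun n => τ < |cv X G F n|)).card : ℝ) * τ ^ 2 ≤
      ∑ n ∈ Icc 1 (2 * X), cv X G F n ^ 2 := by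
    calc (((Icc 1 (2 * X)).filter (fun n => τ < |cv X G F n|)).card : ℝ) * τ ^ 2 =
        ∑ n ∈ (Icc 1 (2 * X)).filter (fun n => τ < |cv X G F n|), τ ^ 2 := by
          rw [sum_const, nsmul_eq_mul]
      _ ≤ ∑ n ∈ (Icc 1 (2 * X)).filter (fun n => τ < |cv X G F n|), cv X G F n ^ 2 := by
          apply sum_le_sum
          intro n hn
          rw [mem_filter] at hn
          rw [← sq_abs (cv X G F n)]
          exact pow_le_pow_left₀ hτ.le hn.2.le 2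
      _ ≤ _ := sum_le_sum_of_subset_of_nonneg (filter_subset _ _) (fun _ _ _ => sq_nonneg _)
  refine h3.trans (h1.trans ?_)
  exact mul_le_mul_of_nonneg_left h2 (sq_nonneg _)

end Pool.Agent.N730.PT
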