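import Mathlib
import Pool.Agent.N730.PT.Fou
import Pool.Agent.H373R2.T7.SupE2

set_option autoImplicit false

/-! The von Mangoldt function minus its sieve model on windows. -/

namespace Pool.Agent.N730.PT
open Finset
open Pool.Agent.H807R2.Dav Pool.Agent.H373R2.T7

theorem sup_prefix (U : ℕ) : ∃ B : ℕ, ∀ E : ℕ, ∃ N0 : ℕ, ∀ X : ℕ, N0 ≤ X → ∀ z : ℕ, Real.log X ^ B ≤ z →
    (z : ℝ) ≤ Real.log X ^ E → ∀ y : ℕ, y ≤ X → ∀ α : ℝ,
    ‖∑ n ∈ Icc 1 y, ((ArithmeticFunction.vonMangoldt n - lamz z n : ℝ) : ℂ) * ee ((n : ℝ) * α)‖ ≤ X / Real.log X ^ U := by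
  obtain ⟨B, hsup⟩ := sup_diff (U + 1)
  refine ⟨B, fun E => ?_⟩
  obtain ⟨m1, h1⟩ := hsup (E + 1)
  obtain ⟨m2, h2⟩ := Vz_inv_small E
  obtain ⟨m3, h3⟩ := ev_log' (U + 1) 2
  obtain ⟨m4, h4⟩ := ev_L' (2 * 2 ^ E + 2 ^ (U + 1) + 1)
  refine ⟨max (max (m1 ^ 2) m2) (max (max m3 m4) 4), fun X hX z hz1 hz2 y hy α => ?_⟩
  have b1 : m1 ^ 2 ≤ X := le_trans (le_trans (le_max_left _ _) (le_max_left _ _)) hX
  have b2 : m2 ≤ X := le_trans (le_trans (le_max_right _ _) (le_max_left _ _)) hX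
  have b3 := h3 X (le_trans (le_trans (le_trans (le_max_left _ _) (le_max_left _ _)) (le_max_right _ _)) hX)
  have b4 := h4 X (le_trans (le_trans (le_trans (le_max_right _ _) (le_max_left _ _)) (le_max_right _ _)) hX)
  have b5 : 4 ≤ X := le_trans (le_trans (le_max_right _ _) (le_max_right _ _)) hX
  have hXr : (4 : ℝ) ≤ X := by exact_mod_cast b5
  have hX0 : (0 : ℝ) < X := by linarith
  obtain ⟨L, hL⟩ : ∃ L : ℝ, L = Real.log X := ⟨_, rfl⟩
  rw [← hL] at b3 b4 hz1 hz2 ⊢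
  have h2E : (1 : ℝ) ≤ 2 ^ E := one_le_pow₀ (by norm_num)
  have h2U : (1 : ℝ) ≤ 2 ^ (U + 1) := one_le_pow₀ (by norm_num)
  have hL1 : 1 ≤ L := by linarith
  have hL0 : 0 < L := by linarith
  have hz : 1 ≤ z := by
    have : (1 : ℝ) ≤ z := (one_le_pow₀ hL1).trans hz1
    exact_mod_cast this
  have hV : (Vz z)⁻¹ ≤ L := by
    rw [hL] at hz2 ⊢
    exact h2 X b2 z hz hz2
  rcases le_or_gt (y ^ 2) X with hys | hyl
  · -- short sums
    have e1 : ∀ n ∈ Icc 1 y, ‖((ArithmeticFunction.vonMangoldt n - lamz z n : ℝ) : ℂ) * ee ((n : ℝ) * α)‖ ≤ 2 * L := by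
      intro n hn
      rw [mem_Icc] at hn
      rw [norm_mul, norm_ee, mul_one, Complex.norm_real, Real.norm_eq_abs]
      have h5 : ArithmeticFunction.vonMangoldt n ≤ L := by
        rw [hL]
        refine ArithmeticFunction.vonMangoldt_le_log.trans ?_
        exact Real.log_le_log (by exact_mod_cast hn.1) (by exact_mod_cast hn.2.trans hy)
      have h6 : (0 : ℝ) ≤ ArithmeticFunction.vonMangoldt n := ArithmeticFunction.vonMangoldt_nonneg
      have h7 := lamz_nonneg z n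
      have h8 : lamz z n ≤ L := by
        unfold lamz
        split_ifs
        · exact hV
        · exact hL0.le
      rw [abs_le]
      constructor <;> linarith
    refine (norm_sum_le _ _).trans ((sum_le_sum e1).trans ?_)
    rw [sum_const, Nat.card_Icc, nsmul_eq_mul]
    have e2 : ((y + 1 - 1 : ℕ) : ℝ) ≤ √(X : ℝ) := by
      rw [Nat.add_sub_cancel]
      apply Real.le_sqrt_of_sq_le
      exact_mod_cast hys
    have e3 : √(X : ℝ) * √(X : ℝ) = X := Real.mul_self_sqrt hX0.le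
    rw [le_div_iff₀ (by positivity)]
    calc ((y + 1 - 1 : ℕ) : ℝ) * (2 * L) * L ^ U ≤ √(X : ℝ) * (2 * L) * L ^ U := by gcongr
      _ = √(X : ℝ) * (2 * L ^ (U + 1)) := by ring
      _ ≤ √(X : ℝ) * √(X : ℝ) := by gcongr
      _ = X := e3
  · have hy1 : 1 ≤ y := by
      rcases Nat.eq_zero_or_pos y with h | h
      · rw [h] at hyl; simp at hyl
      · exact h
    have hm1y : m1 ≤ y := by
      by_contra hlt
      push Not at hlt
      have : y ^ 2 ≤ m1 ^ 2 := Nat.pow_le_pow_left hlt.le 2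
      omega
    have hy0 : (0 : ℝ) < y := by exact_mod_cast hy1
    have hly1 : L ≤ 2 * Real.log y := by
      have e1 : (X : ℝ) ≤ (y : ℝ) ^ 2 := by exact_mod_cast hyl.le
      have e2 := Real.log_le_log hX0 e1
      rw [Real.log_pow] at e2
      rw [hL]
      exact_mod_cast e2
    have hly2 : Real.log y ≤ L := by
      rw [hL]
      exact Real.log_le_log hy0 (by exact_mod_cast hy)
    have hly0 : 0 < Real.log y := by linarith
    have c1 : Real.log y ^ B ≤ z := (pow_le_pow_left₀ hly0.le hly2 B).trans hz1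
    have c2 : (z : ℝ) ≤ Real.log y ^ (E + 1) := by
      calc (z : ℝ) ≤ L ^ E := hz2
        _ ≤ (2 * Real.log y) ^ E := pow_le_pow_left₀ hL0.le hly1 E
        _ = 2 ^ E * Real.log y ^ E := mul_pow _ _ _
        _ ≤ Real.log y * Real.log y ^ E := by
            apply mul_le_mul_of_nonneg_right _ (by positivity)
            linarith
        _ = Real.log y ^ (E + 1) := by ring
    refine (h1 y hm1y z c1 c2 α).trans ?_
    rw [div_le_div_iff₀ (by positivity) (by positivity)]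
    have c3 : L ^ (U + 1) ≤ 2 ^ (U + 1) * Real.log y ^ (U + 1) := by
      rw [← mul_pow]
      exact pow_le_pow_left₀ hL0.le hly1 _
    have c4 : L ^ U ≤ Real.log y ^ (U + 1) := by
      have c5 : L ^ U * 2 ^ (U + 1) ≤ L ^ (U + 1) := by
        rw [pow_succ L U]
        apply mul_le_mul_of_nonneg_left _ (by positivity)
        linarith
      have c6 : L ^ U * 2 ^ (U + 1) ≤ Real.log y ^ (U + 1) * 2 ^ (U + 1) := by linarith
      exact le_of_mul_le_mul_right c6 (by positivity)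
    have hyX : (y : ℝ) ≤ X := by exact_mod_cast hy
    calc (y : ℝ) * L ^ U ≤ X * L ^ U := by gcongr
      _ ≤ X * Real.log y ^ (U + 1) := by gcongr

lemma window_split (f : ℕ → ℂ) (a b X : ℕ) (hab : a ≤ b) (hb : b ≤ X) :
    ∑ n ∈ Icc 1 X, (if a < n ∧ n ≤ b then f n else 0) = ∑ n ∈ Icc 1 b, f n - ∑ n ∈ Icc 1 a, f n := by
  rw [← sum_filter]
  have h1 : (Icc 1 X).filter (fun n => a < n ∧ n ≤ b) = Icc 1 b \ Icc 1 a := by
    ext n
    simp only [mem_filter, mem_Icc, mem_sdiff]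
    omega
  rw [h1, eq_sub_iff_add_eq]
  apply sum_sdiff
  intro n hn
  rw [mem_Icc] at hn ⊢
  omega

/-- the exceptional set of the replacement -/
theorem exc : ∃ B : ℕ, ∀ E : ℕ, ∃ N0 : ℕ, ∀ X : ℕ, N0 ≤ X → ∀ z : ℕ, Real.log X ^ B ≤ z →
    (z : ℝ) ≤ Real.log X ^ E → ∀ a b : ℕ, a ≤ b → b ≤ X → ∀ g : ℕ → ℝ, (∀ n, |g n| ≤ 1) →
    (((Icc 1 (2 * X)).filter (fun n => (X : ℝ) / Real.log X <
      |cv X (fun j => g j * ArithmeticFunction.vonMangoldt j)
        (fun k => if a < k ∧ k ≤ b then ArithmeticFunction.vonMangoldt k - lamz z k else 0) n|)).card : ℝ) ≤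
      X / Real.log X := by
  obtain ⟨B, hB⟩ := sup_prefix 3
  refine ⟨B, fun E => ?_⟩
  obtain ⟨m1, h1⟩ := hB E
  obtain ⟨m2, h2⟩ := ev_L' 4
  refine ⟨max (max m1 m2) 4, fun X hX z hz1 hz2 a b hab hb g hg => ?_⟩
  have b1 := h1 X (le_trans (le_trans (le_max_left _ _) (le_max_left _ _)) hX) z hz1 hz2
  have b2 := h2 X (le_trans (le_trans (le_max_right _ _) (le_max_left _ _)) hX)
  have b5 : 4 ≤ X := le_trans (le_max_right _ _) hX
  have hXr : (4 : ℝ) ≤ X := by exact_mod_cast b5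
  have hX0 : (0 : ℝ) < X := by linarith
  obtain ⟨L, hL⟩ : ∃ L : ℝ, L = Real.log X := ⟨_, rfl⟩
  rw [← hL] at b1 b2 ⊢
  have hL0 : 0 < L := by linarith
  have hsup : ∀ α : ℝ, ‖∑ k ∈ Icc 1 X, (((fun k => if a < k ∧ k ≤ b then ArithmeticFunction.vonMangoldt k - lamz z k else 0) k : ℝ) : ℂ) *
      ee ((k : ℝ) * α)‖ ≤ 2 * (X / L ^ 3) := by
    intro α
    have e1 := window_split (fun n => ((ArithmeticFunction.vonMangoldt n - lamz z n : ℝ) : ℂ) * ee ((n : ℝ) * α)) a b X hab hb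
    have e2 : ∑ k ∈ Icc 1 X, (((fun k => if a < k ∧ k ≤ b then ArithmeticFunction.vonMangoldt k - lamz z k else 0) k : ℝ) : ℂ) *
        ee ((k : ℝ) * α) = ∑ n ∈ Icc 1 X, (if a < n ∧ n ≤ b then (fun n => ((ArithmeticFunction.vonMangoldt n - lamz z n : ℝ) : ℂ) * ee ((n : ℝ) * α)) n else 0) := by
      apply sum_congr rfl
      intro k _
      simp only
      split_ifs
      · rfl
      · simp
    rw [e2, e1]
    refine (norm_sub_le _ _).trans ?_
    have e3 := b1 b hb α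
    have e4 := b1 a (hab.trans hb) α
    linarith
  have hG : ∀ j ∈ Icc 1 X, |(fun j => g j * ArithmeticFunction.vonMangoldt j) j| ≤ L := by
    intro j hj
    rw [mem_Icc] at hj
    simp only
    rw [abs_mul]
    have h5 : ArithmeticFunction.vonMangoldt j ≤ L := by
      rw [hL]
      refine ArithmeticFunction.vonMangoldt_le_log.trans ?_
      exact Real.log_le_log (by exact_mod_cast hj.1) (by exact_mod_cast hj.2)
    have h6 : (0 : ℝ) ≤ ArithmeticFunction.vonMangoldt j := ArithmeticFunction.vonMangoldt_nonneg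
    rw [abs_of_nonneg h6]
    calc |g j| * ArithmeticFunction.vonMangoldt j ≤ 1 * L := mul_le_mul (hg j) h5 h6 zero_le_one
      _ = L := one_mul L
  have hτ : 0 < (X : ℝ) / L := by positivity
  have key := cv_few X _ _ (2 * (X / L ^ 3)) L (X / L) hL0.le hG hsup hτ
  have k2 : (2 * ((X : ℝ) / L ^ 3)) ^ 2 * (X * L ^ 2) ≤ X / L * (X / L) ^ 2 := by
    have k3 : (2 * ((X : ℝ) / L ^ 3)) ^ 2 * (X * L ^ 2) = 4 / L * (X / L * (X / L) ^ 2) := by
      field_simp
      ring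
    rw [k3]
    have k4 : 4 / L ≤ 1 := by rw [div_le_one hL0]; exact b2
    exact mul_le_of_le_one_left (by positivity) k4
  exact le_of_mul_le_mul_right (key.trans k2) (by positivity)

end Pool.Agent.N730.PT
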