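import Mathlib
import Pool.Agent.N730.PT.Sup
import Pool.Agent.N730.PT.Pre

set_option autoImplicit false

/-! Lower bounds for Goldbach sums in a class and a window, for almost all totals. -/

namespace Pool.Agent.N730.PT
open Finset
open Pool.Agent.H373R2.T7

/-- the first components of the pairs with sum `n` -/
def Wn (a b : ℕ) (T : Finset ℕ) (c n : ℕ) : Finset ℕ :=
  (Ioc a b).filter (fun j => (a < n - j ∧ n - j ≤ b) ∧ ∀ p ∈ T, j % p = c % p)

def lo (a b n : ℕ) : ℕ := max a (n - b - 1)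
def hi (a b n : ℕ) : ℕ := min b (n - a - 1)

lemma mem_Wn (a b : ℕ) (T : Finset ℕ) (c n j : ℕ) : j ∈ Wn a b T c n ↔
    (a < j ∧ j ≤ b) ∧ (a < n - j ∧ n - j ≤ b) ∧ ∀ p ∈ T, j % p = c % p := by
  unfold Wn
  rw [mem_filter, mem_Ioc]

lemma lohi (a b n j : ℕ) : ((a < j ∧ j ≤ b) ∧ (a < n - j ∧ n - j ≤ b)) ↔ (lo a b n < j ∧ j ≤ hi a b n) := by
  unfold lo hi
  rw [max_lt_iff, le_min_iff]
  omega

lemma cv_eq (X a b : ℕ) (hb : b ≤ X) (T : Finset ℕ) (c n : ℕ) (f h : ℕ → ℝ) :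
    cv X (fun j => (if (a < j ∧ j ≤ b) ∧ ∀ p ∈ T, j % p = c % p then 1 else 0) * f j)
      (fun k => if a < k ∧ k ≤ b then h k else 0) n = ∑ j ∈ Wn a b T c n, f j * h (n - j) := by
  unfold cv
  have inner : ∀ j ∈ Icc 1 X, ∑ k ∈ Icc 1 X, (if j + k = n then
      ((fun j => (if (a < j ∧ j ≤ b) ∧ ∀ p ∈ T, j % p = c % p then (1 : ℝ) else 0) * f j) j *
      (fun k => if a < k ∧ k ≤ b then h k else 0) k) else 0) =
      if ((a < j ∧ j ≤ b) ∧ ∀ p ∈ T, j % p = c % p) ∧ (a < n - j ∧ n - j ≤ b) then f j * h (n - j) else 0 := by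
    intro j hj
    rw [mem_Icc] at hj
    by_cases hk : a < n - j ∧ n - j ≤ b
    · rw [sum_eq_single (n - j)]
      · simp only
        rw [if_pos (show j + (n - j) = n by omega), if_pos hk]
        by_cases hc : (a < j ∧ j ≤ b) ∧ ∀ p ∈ T, j % p = c % p
        · rw [if_pos hc, if_pos ⟨hc, hk⟩, one_mul]
        · rw [if_neg hc, if_neg (fun h => hc h.1), zero_mul, zero_mul]
      · intro k _ hne
        rw [if_neg (by omega)]
      · intro hnot
        exfalso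
        apply hnot
        rw [mem_Icc]
        omega
    · rw [if_neg (fun h => hk h.2)]
      apply sum_eq_zero
      intro k _
      split_ifs with h1
      · simp only
        have h2 : k = n - j := by omega
        rw [h2, if_neg hk, mul_zero]
      · rfl
  rw [sum_congr rfl inner, ← sum_filter]
  apply sum_congr _ (fun _ _ => rfl)
  ext j
  rw [mem_filter, mem_Icc, mem_Wn]
  constructor
  · rintro ⟨_, ⟨h1, h2⟩, h3⟩
    exact ⟨h1, h3, h2⟩
  · rintro ⟨h1, h2, h3⟩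
    exact ⟨by omega, ⟨h1, h3⟩, h2⟩

open Classical in
lemma model_sum (z a b : ℕ) (T : Finset ℕ) (hT : T ⊆ pz z) (c n : ℕ) (hlh : lo a b n ≤ hi a b n) :
    ∑ j ∈ Wn a b T c n, ArithmeticFunction.vonMangoldt j * lamz z (n - j) =
    (Vz z)⁻¹ * (∑ j ∈ (Icc 1 (hi a b n)).filter (fun j : ℕ => ∀ p ∈ pz z, ¬ Qc T c n p j), ArithmeticFunction.vonMangoldt j -
      ∑ j ∈ (Icc 1 (lo a b n)).filter (fun j : ℕ => ∀ p ∈ pz z, ¬ Qc T c n p j), ArithmeticFunction.vonMangoldt j) := by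
  have h1 : ∑ j ∈ Wn a b T c n, ArithmeticFunction.vonMangoldt j * lamz z (n - j) =
      ∑ j ∈ (Wn a b T c n).filter (fun j => ∀ p ∈ pz z, ¬ p ∣ n - j), (Vz z)⁻¹ * ArithmeticFunction.vonMangoldt j := by
    rw [sum_filter]
    apply sum_congr rfl
    intro j _
    unfold lamz
    split_ifs
    · ring
    · ring
  rw [h1, ← mul_sum]
  congr 1
  rw [eq_sub_iff_add_eq]
  have h2 : (Wn a b T c n).filter (fun j => ∀ p ∈ pz z, ¬ p ∣ n - j) =
      (Icc 1 (hi a b n)).filter (fun j : ℕ => ∀ p ∈ pz z, ¬ Qc T c n p j) \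
      (Icc 1 (lo a b n)).filter (fun j : ℕ => ∀ p ∈ pz z, ¬ Qc T c n p j) := by
    ext j
    rw [mem_filter, mem_sdiff, mem_filter, mem_filter, mem_Wn, mem_Icc, mem_Icc]
    have hQ : j ≤ n → ((∀ p ∈ pz z, ¬ Qc T c n p j) ↔ ((∀ p ∈ T, j % p = c % p) ∧ ∀ p ∈ pz z, ¬ p ∣ n - j)) := by
      intro hjn
      have hmod : ∀ p, (j % p = n % p ↔ p ∣ n - j) := fun p => Nat.modEq_iff_dvd' hjn
      unfold Qc
      constructor
      · intro h
        refine ⟨fun p hp => ?_, fun p hp hd => ?_⟩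
        · by_contra h3
          exact h p (hT hp) (Or.inl ⟨hp, h3⟩)
        · exact h p hp (Or.inr ((hmod p).2 hd))
      · rintro ⟨h3, h4⟩ p hp h5
        rcases h5 with h5 | h5
        · exact h5.2 (h3 p h5.1)
        · exact h4 p hp ((hmod p).1 h5)
    constructor
    · rintro ⟨⟨h3, h4, h5⟩, h6⟩
      have h7 := (lohi a b n j).1 ⟨h3, h4⟩
      have hjn : j ≤ n := by omega
      exact ⟨⟨⟨by omega, h7.2⟩, (hQ hjn).2 ⟨h5, h6⟩⟩, fun h8 => by omega⟩
    · rintro ⟨⟨⟨h3, h4⟩, h5⟩, h6⟩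
      have h7 : lo a b n < j := by
        by_contra h8
        exact h6 ⟨⟨h3, by omega⟩, h5⟩
      have h8 := (lohi a b n j).2 ⟨h7, h4⟩
      have hjn : j ≤ n := by omega
      have h9 := (hQ hjn).1 h5
      exact ⟨⟨h8.1, h8.2, h9.1⟩, h9.2⟩
  rw [h2]
  apply sum_sdiff
  intro j hj
  rw [mem_filter, mem_Icc] at hj ⊢
  exact ⟨⟨hj.1.1, hj.1.2.trans hlh⟩, hj.2⟩

theorem key1 (w : ℕ) (hw : 2 ≤ w) : ∃ N0 : ℕ, ∀ X : ℕ, N0 ≤ X → ∀ a b : ℕ, a ≤ b → b ≤ X →
    ∀ T : Finset ℕ, T ⊆ ow w → ∀ c : ℕ, (∀ p ∈ T, ¬ p ∣ c) →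
    (((Icc 1 (2 * X)).filter (fun n => (2 ∣ n ∧ ∀ p ∈ T, n % p = (2 * c) % p) ∧
      ∑ j ∈ Wn a b T c n, ArithmeticFunction.vonMangoldt j * ArithmeticFunction.vonMangoldt (n - j) <
        ((hi a b n - lo a b n : ℕ) : ℝ) * (2 * ((1 - 1 / (w : ℝ)) * ∏ p ∈ ow w, loc T n p)) - 3 * ((X : ℝ) / Real.log X))).card : ℝ) ≤
      X / Real.log X := by
  classical
  obtain ⟨B, hB⟩ := exc
  obtain ⟨m1, h1⟩ := hB (B + 2)
  obtain ⟨m2, h2⟩ := prefix_model w (by omega) (B + 2)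
  obtain ⟨m3, h3⟩ := Vz_inv_small (B + 2)
  obtain ⟨m4, h4⟩ := ev_L' (w + 2)
  refine ⟨max (max m1 m2) (max m3 m4), fun X hX a b hab hb T hT c hc => ?_⟩
  have b4 := h4 X (le_trans (le_trans (le_max_right _ _) (le_max_right _ _)) hX)
  have hwr : (2 : ℝ) ≤ w := by exact_mod_cast hw
  have hL1 : 1 ≤ Real.log X := by linarith
  have hL0 : 0 < Real.log X := by linarith
  obtain ⟨z, hz⟩ : ∃ z : ℕ, z = ⌈Real.log X ^ (B + 1)⌉₊ := ⟨_, rfl⟩
  have hz1 : Real.log X ^ (B + 1) ≤ z := by rw [hz]; exact Nat.le_ceil _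
  have hz1' : Real.log X ^ B ≤ z := (pow_le_pow_right₀ hL1 (by omega)).trans hz1
  have hz2 : (z : ℝ) ≤ Real.log X ^ (B + 2) := by
    rw [hz]
    have e1 := Nat.ceil_lt_add_one (a := Real.log X ^ (B + 1)) (by positivity)
    have e2 : (1 : ℝ) ≤ Real.log X ^ (B + 1) := one_le_pow₀ hL1
    have e3 : Real.log X ^ (B + 2) = Real.log X * Real.log X ^ (B + 1) := by ring
    rw [e3]
    nlinarith
  have hwz : w ≤ z := by
    have e1 : (w : ℝ) ≤ z := by
      calc (w : ℝ) ≤ Real.log X := by linarith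
        _ = Real.log X ^ 1 := (pow_one _).symm
        _ ≤ Real.log X ^ (B + 1) := pow_le_pow_right₀ hL1 (by omega)
        _ ≤ z := hz1
    exact_mod_cast e1
  have hzpos : 1 ≤ z := by omega
  have hTz : T ⊆ pz z := hT.trans (ow_sub_pz hwz)
  have hTz' : T ⊆ ow z := by
    intro p hp
    have := mem_ow.1 (hT hp)
    rw [mem_ow]
    exact ⟨this.1, this.2.1.trans hwz, this.2.2⟩
  have c3 := h3 X (le_trans (le_trans (le_max_left _ _) (le_max_right _ _)) hX) z hzpos hz2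
  have c1 := h1 X (le_trans (le_trans (le_max_left _ _) (le_max_left _ _)) hX) z hz1' hz2 a b hab hb
    (fun j => if (a < j ∧ j ≤ b) ∧ ∀ p ∈ T, j % p = c % p then 1 else 0) (by
      intro n
      split_ifs <;> simp)
  have c2 := h2 X (le_trans (le_trans (le_max_right _ _) (le_max_left _ _)) hX) z hzpos hz2 T hT c
  refine le_trans ?_ c1
  have hcard : ((Icc 1 (2 * X)).filter (fun n => (2 ∣ n ∧ ∀ p ∈ T, n % p = (2 * c) % p) ∧
      ∑ j ∈ Wn a b T c n, ArithmeticFunction.vonMangoldt j * ArithmeticFunction.vonMangoldt (n - j) <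
        ((hi a b n - lo a b n : ℕ) : ℝ) * (2 * ((1 - 1 / (w : ℝ)) * ∏ p ∈ ow w, loc T n p)) - 3 * ((X : ℝ) / Real.log X))) ⊆
      (Icc 1 (2 * X)).filter (fun n => (X : ℝ) / Real.log X <
      |cv X (fun j => (fun j => if (a < j ∧ j ≤ b) ∧ ∀ p ∈ T, j % p = c % p then (1 : ℝ) else 0) j * ArithmeticFunction.vonMangoldt j)
        (fun k => if a < k ∧ k ≤ b then ArithmeticFunction.vonMangoldt k - lamz z k else 0) n|) := by
    intro n hn
    rw [mem_filter] at hn ⊢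
    obtain ⟨hn0, ⟨hn2, hnT⟩, hlt⟩ := hn
    refine ⟨hn0, ?_⟩
    by_contra hle
    rw [not_lt] at hle
    apply absurd hlt
    rw [not_lt]
    have hXL : 0 ≤ (X : ℝ) / Real.log X := by positivity
    rcases Nat.lt_or_ge (hi a b n) (lo a b n) with hlh | hlh
    · have e1 : hi a b n - lo a b n = 0 := by omega
      rw [e1, Nat.cast_zero, zero_mul]
      have e2 : 0 ≤ ∑ j ∈ Wn a b T c n, ArithmeticFunction.vonMangoldt j * ArithmeticFunction.vonMangoldt (n - j) :=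
        sum_nonneg fun _ _ => mul_nonneg ArithmeticFunction.vonMangoldt_nonneg ArithmeticFunction.vonMangoldt_nonneg
      linarith
    · have e1 := cv_eq X a b hb T c n (fun j => ArithmeticFunction.vonMangoldt j)
        (fun k => ArithmeticFunction.vonMangoldt k - lamz z k)
      simp only at e1 hle
      rw [e1] at hle
      have e2 : ∑ j ∈ Wn a b T c n, ArithmeticFunction.vonMangoldt j * (ArithmeticFunction.vonMangoldt (n - j) - lamz z (n - j)) =
          ∑ j ∈ Wn a b T c n, ArithmeticFunction.vonMangoldt j * ArithmeticFunction.vonMangoldt (n - j) -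
          ∑ j ∈ Wn a b T c n, ArithmeticFunction.vonMangoldt j * lamz z (n - j) := by
        rw [← sum_sub_distrib]
        apply sum_congr rfl
        intro j _
        ring
      rw [e2] at hle
      have e3 := (abs_le.1 hle).1
      have e4 := model_sum z a b T hTz c n hlh
      have hhiX : hi a b n ≤ X := (min_le_left _ _).trans hb
      have hloX : lo a b n ≤ X := hlh.trans hhiX
      have p1 := c2 n (hi a b n) hhiX
      have p2 := c2 n (lo a b n) hloX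
      obtain ⟨S1, hS1⟩ : ∃ S1 : ℝ, S1 = ∑ j ∈ (Icc 1 (hi a b n)).filter (fun j : ℕ => ∀ p ∈ pz z, ¬ Qc T c n p j), ArithmeticFunction.vonMangoldt j := ⟨_, rfl⟩
      obtain ⟨S2, hS2⟩ : ∃ S2 : ℝ, S2 = ∑ j ∈ (Icc 1 (lo a b n)).filter (fun j : ℕ => ∀ p ∈ pz z, ¬ Qc T c n p j), ArithmeticFunction.vonMangoldt j := ⟨_, rfl⟩
      have hsing := sing_model z (by omega) T hTz' c n hn2 hc hnT
      have hlow := sing_low w hw z hwz T hT n
      obtain ⟨P, hP⟩ : ∃ P : ℝ, P = ∏ p ∈ pz z, (1 - (rhoA (Qc T c n) p : ℝ) / (p - 1 : ℝ)) := ⟨_, rfl⟩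
      rw [← hS1, ← hP] at p1
      rw [← hS2, ← hP] at p2
      rw [← hS1, ← hS2] at e4
      rw [← hP] at hsing
      have q1 := (abs_le.1 p1).1
      have q2 := (abs_le.1 p2).2
      have hV0 : 0 < (Vz z)⁻¹ := inv_pos.2 (Vz_pos z)
      have hcast : ((hi a b n - lo a b n : ℕ) : ℝ) = (hi a b n : ℝ) - lo a b n := Nat.cast_sub hlh
      have q3 : ((hi a b n - lo a b n : ℕ) : ℝ) * P - 2 * (X / Real.log X ^ 3) ≤ S1 - S2 := by
        rw [hcast]
        linarith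
      have q4 : (Vz z)⁻¹ * (((hi a b n - lo a b n : ℕ) : ℝ) * P - 2 * (X / Real.log X ^ 3)) ≤ (Vz z)⁻¹ * (S1 - S2) :=
        mul_le_mul_of_nonneg_left q3 hV0.le
      have q5 : (Vz z)⁻¹ * (2 * (X / Real.log X ^ 3)) ≤ 2 * (X / Real.log X) := by
        calc (Vz z)⁻¹ * (2 * (X / Real.log X ^ 3)) ≤ Real.log X * (2 * (X / Real.log X ^ 3)) := by gcongr
          _ = 2 * (X / Real.log X) * (1 / Real.log X) := by field_simp
          _ ≤ 2 * (X / Real.log X) * 1 := by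
              apply mul_le_mul_of_nonneg_left _ (by positivity)
              rw [div_le_one hL0]; exact hL1
          _ = 2 * (X / Real.log X) := mul_one _
      have q6 : (Vz z)⁻¹ * (((hi a b n - lo a b n : ℕ) : ℝ) * P) = ((hi a b n - lo a b n : ℕ) : ℝ) * (2 * ∏ p ∈ ow z, loc T n p) := by
        rw [← hsing]; ring
      have q7 : ((hi a b n - lo a b n : ℕ) : ℝ) * (2 * ((1 - 1 / (w : ℝ)) * ∏ p ∈ ow w, loc T n p)) ≤
          ((hi a b n - lo a b n : ℕ) : ℝ) * (2 * ∏ p ∈ ow z, loc T n p) := by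
        apply mul_le_mul_of_nonneg_left _ (Nat.cast_nonneg _)
        linarith
      have q8 : (Vz z)⁻¹ * (((hi a b n - lo a b n : ℕ) : ℝ) * P - 2 * (X / Real.log X ^ 3)) =
          (Vz z)⁻¹ * (((hi a b n - lo a b n : ℕ) : ℝ) * P) - (Vz z)⁻¹ * (2 * (X / Real.log X ^ 3)) := by ring
      rw [q8, q6, ← e4] at q4
      linarith
  exact_mod_cast card_le_card hcard

end Pool.Agent.N730.PT
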