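import Mathlib
import Pool.Agent.N730.PT.Key

set_option autoImplicit false

/-! From von Mangoldt weights to numbers of primes. -/

namespace Pool.Agent.N730.PT
open Finset
open Pool.Agent.H373R2.T7

/-- the number of pairs of primes with sum `n` -/
def rr (a b : ℕ) (T : Finset ℕ) (c n : ℕ) : ℕ := ((Wn a b T c n).filter (fun j => j.Prime ∧ (n - j).Prime)).card

/-- the primes of a class in a window -/
def Pc (a b : ℕ) (T : Finset ℕ) (c : ℕ) : Finset ℕ := (Ioc a b).filter (fun j => j.Prime ∧ ∀ p ∈ T, j % p = c % p)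

lemma np_sum (X : ℕ) (hX : 1 ≤ X) :
    ∑ k ∈ (Icc 1 X).filter (fun k => ¬ k.Prime), ArithmeticFunction.vonMangoldt k ≤ 2 * √(X : ℝ) * Real.log X := by
  have h1 := Chebyshev.psi_sub_theta_eq_sum_not_prime (X : ℝ)
  rw [Nat.floor_natCast] at h1
  have h2 : (Ioc 0 X).filter (fun k => ¬ k.Prime) = (Icc 1 X).filter (fun k => ¬ k.Prime) := by
    congr 1
  rw [h2] at h1
  rw [← h1]
  exact Chebyshev.psi_sub_theta_le (by exact_mod_cast hX)

lemma lam_pairs (X a b : ℕ) (hX : 1 ≤ X) (hb : b ≤ X) (T : Finset ℕ) (c n : ℕ) :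
    ∑ j ∈ Wn a b T c n, ArithmeticFunction.vonMangoldt j * ArithmeticFunction.vonMangoldt (n - j) ≤
      Real.log X ^ 2 * rr a b T c n + 4 * √(X : ℝ) * Real.log X ^ 2 := by
  obtain ⟨L, hL⟩ : ∃ L : ℝ, L = Real.log X := ⟨_, rfl⟩
  have hL0 : 0 ≤ L := by rw [hL]; exact Real.log_nonneg (by exact_mod_cast hX)
  have hnp := np_sum X hX
  rw [← hL] at hnp ⊢
  have hΛ : ∀ k, 1 ≤ k → k ≤ X → ArithmeticFunction.vonMangoldt k ≤ L := by
    intro k h1 h2
    rw [hL]
    refine ArithmeticFunction.vonMangoldt_le_log.trans ?_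
    exact Real.log_le_log (by exact_mod_cast h1) (by exact_mod_cast h2)
  have hΛ0 : ∀ k, (0 : ℝ) ≤ ArithmeticFunction.vonMangoldt k := fun k => ArithmeticFunction.vonMangoldt_nonneg
  have h1 : ∀ j ∈ Wn a b T c n, ArithmeticFunction.vonMangoldt j * ArithmeticFunction.vonMangoldt (n - j) ≤
      (if j.Prime ∧ (n - j).Prime then L ^ 2 else 0) + ((if ¬ j.Prime then ArithmeticFunction.vonMangoldt j * L else 0) +
        (if ¬ (n - j).Prime then L * ArithmeticFunction.vonMangoldt (n - j) else 0)) := by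
    intro j hj
    rw [mem_Wn] at hj
    have a1 := hΛ j (by omega) (by omega)
    have a2 := hΛ (n - j) (by omega) (by omega)
    have a3 := hΛ0 j
    have a4 := hΛ0 (n - j)
    by_cases b1 : j.Prime
    · by_cases b2 : (n - j).Prime
      · rw [if_pos ⟨b1, b2⟩, if_neg (not_not.2 b1), if_neg (not_not.2 b2)]
        nlinarith
      · rw [if_neg (fun h => b2 h.2), if_neg (not_not.2 b1), if_pos b2]
        nlinarith
    · rw [if_neg (fun h => b1 h.1), if_pos b1]
      have a5 : (0 : ℝ) ≤ (if ¬ (n - j).Prime then L * ArithmeticFunction.vonMangoldt (n - j) else 0) := by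
        split_ifs
        · exact le_rfl
        · positivity
      nlinarith
  refine (sum_le_sum h1).trans ?_
  rw [sum_add_distrib, sum_add_distrib, ← sum_filter, ← sum_filter, ← sum_filter, sum_const, nsmul_eq_mul]
  have h2 : ∑ j ∈ (Wn a b T c n).filter (fun j => ¬ j.Prime), ArithmeticFunction.vonMangoldt j * L ≤ 2 * √(X : ℝ) * L * L := by
    rw [← sum_mul]
    apply mul_le_mul_of_nonneg_right _ hL0
    refine le_trans ?_ hnp
    apply sum_le_sum_of_subset_of_nonneg _ (fun _ _ _ => hΛ0 _)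
    intro j hj
    rw [mem_filter, mem_Wn] at hj
    rw [mem_filter, mem_Icc]
    exact ⟨by omega, hj.2⟩
  have h3 : ∑ j ∈ (Wn a b T c n).filter (fun j => ¬ (n - j).Prime), L * ArithmeticFunction.vonMangoldt (n - j) ≤ 2 * √(X : ℝ) * L * L := by
    rw [← mul_sum, mul_comm]
    apply mul_le_mul_of_nonneg_right _ hL0
    refine le_trans ?_ hnp
    rw [← sum_image (s := (Wn a b T c n).filter (fun j => ¬ (n - j).Prime)) (g := fun j => n - j)
      (f := fun k => ArithmeticFunction.vonMangoldt k)]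
    · apply sum_le_sum_of_subset_of_nonneg _ (fun _ _ _ => hΛ0 _)
      intro k hk
      rw [mem_image] at hk
      obtain ⟨j, hj, rfl⟩ := hk
      rw [mem_filter, mem_Wn] at hj
      rw [mem_filter, mem_Icc]
      exact ⟨by omega, hj.2⟩
    · intro j hj j' hj' h
      simp only [coe_filter, Set.mem_setOf_eq, mem_Wn] at hj hj'
      simp only at h
      omega
  have h4 : (((Wn a b T c n).filter (fun j => j.Prime ∧ (n - j).Prime)).card : ℝ) = rr a b T c n := rfl
  rw [h4]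
  nlinarith

theorem key2 (w : ℕ) (hw : 2 ≤ w) : ∃ N0 : ℕ, ∀ X : ℕ, N0 ≤ X → ∀ a b : ℕ, a ≤ b → b ≤ X →
    ∀ T : Finset ℕ, T ⊆ ow w → ∀ c : ℕ, (∀ p ∈ T, ¬ p ∣ c) →
    (((Icc 1 (2 * X)).filter (fun n => (2 ∣ n ∧ ∀ p ∈ T, n % p = (2 * c) % p) ∧
      Real.log X ^ 2 * rr a b T c n <
        ((hi a b n - lo a b n : ℕ) : ℝ) * (2 * ((1 - 1 / (w : ℝ)) * ∏ p ∈ ow w, loc T n p)) - 4 * ((X : ℝ) / Real.log X))).card : ℝ) ≤
      X / Real.log X := by
  classical
  obtain ⟨m1, h1⟩ := key1 w hw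
  obtain ⟨m3, h3⟩ := ev_log' 3 4
  obtain ⟨m4, h4⟩ := ev_L' 1
  refine ⟨max (max m1 m3) (max m4 1), fun X hX a b hab hb T hT c hc => ?_⟩
  have b1 := h1 X (le_trans (le_trans (le_max_left _ _) (le_max_left _ _)) hX) a b hab hb T hT c hc
  have b3 := h3 X (le_trans (le_trans (le_max_right _ _) (le_max_left _ _)) hX)
  have b4 := h4 X (le_trans (le_trans (le_max_left _ _) (le_max_right _ _)) hX)
  have b5 : 1 ≤ X := le_trans (le_trans (le_max_right _ _) (le_max_right _ _)) hX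
  have hX0 : (0 : ℝ) < X := by exact_mod_cast b5
  have hL0 : 0 < Real.log X := by linarith
  refine le_trans ?_ b1
  norm_cast
  apply card_le_card
  intro n hn
  rw [mem_filter] at hn ⊢
  refine ⟨hn.1, hn.2.1, ?_⟩
  have h5 := lam_pairs X a b b5 hb T c n
  have h6 := hn.2.2
  have h7 : 4 * √(X : ℝ) * Real.log X ^ 2 ≤ X / Real.log X := by
    rw [le_div_iff₀ hL0]
    have e3 : √(X : ℝ) * √(X : ℝ) = X := Real.mul_self_sqrt hX0.le
    calc 4 * √(X : ℝ) * Real.log X ^ 2 * Real.log X = √(X : ℝ) * (4 * Real.log X ^ 3) := by ring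
      _ ≤ √(X : ℝ) * √(X : ℝ) := by gcongr
      _ = X := e3
  push_cast at h6 ⊢
  linarith

lemma cls_iff (T : Finset ℕ) (hT : ∀ p ∈ T, p.Prime) (j c : ℕ) :
    (∀ p ∈ T, j % p = c % p) ↔ j ≡ c [MOD ∏ p ∈ T, p] := by
  rw [Nat.modEq_iff_dvd, Int.natCast_dvd, ← prod_dvd_iff T hT]
  constructor
  · intro h p hp
    have h1 : j ≡ c [MOD p] := h p hp
    rw [Nat.modEq_iff_dvd, Int.natCast_dvd] at h1
    exact h1
  · intro h p hp
    have h1 := h p hp
    rw [← Int.natCast_dvd, ← Nat.modEq_iff_dvd] at h1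
    exact h1

/-- the totient of the modulus -/
noncomputable def ph (T : Finset ℕ) : ℝ := ∏ p ∈ T, ((p : ℝ) - 1)

lemma totient_prod (T : Finset ℕ) (hT : ∀ p ∈ T, p.Prime) : ((Nat.totient (∏ p ∈ T, p) : ℕ) : ℝ) = ph T := by
  classical
  unfold ph
  induction T using Finset.induction_on with
  | empty => simp
  | insert q T hq ih =>
    have hT' : ∀ p ∈ T, p.Prime := fun p hp => hT p (mem_insert_of_mem hp)
    have hqp : q.Prime := hT q (mem_insert_self _ _)
    rw [prod_insert hq, prod_insert hq, Nat.totient_mul, Nat.totient_prime hqp, Nat.cast_mul, ih hT',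
      Nat.cast_sub hqp.one_le]
    · push_cast; ring
    · apply Nat.Coprime.prod_right
      intro p hp
      rw [Nat.coprime_primes hqp (hT' p hp)]
      rintro rfl
      exact hq hp

lemma ph_ge_one (T : Finset ℕ) (hT : ∀ p ∈ T, 2 ≤ p) : 1 ≤ ph T := by
  unfold ph
  calc (1 : ℝ) = ∏ _p ∈ T, (1 : ℝ) := by simp
    _ ≤ _ := prod_le_prod (fun _ _ => zero_le_one) (fun p hp => by
      have : (2 : ℝ) ≤ p := by exact_mod_cast hT p hp
      linarith)

theorem key3 (w : ℕ) : ∃ N0 : ℕ, ∀ X : ℕ, N0 ≤ X → ∀ a b : ℕ, 1 ≤ a → a ≤ b → b ≤ X →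
    ∀ T : Finset ℕ, T ⊆ ow w → ∀ c : ℕ, (∀ p ∈ T, ¬ p ∣ c) →
    ((Pc a b T c).card : ℝ) * Real.log a ≤ ((b : ℝ) - a) / ph T + 2 * (X / Real.log X) ∧
    ((b : ℝ) - a) / ph T - 3 * (X / Real.log X) ≤ ((Pc a b T c).card : ℝ) * Real.log X := by
  classical
  obtain ⟨m1, h1⟩ := lam_ap 1 1
  obtain ⟨m3, h3⟩ := ev_log' 2 2
  obtain ⟨m4, h4⟩ := ev_L' (max 1 (((∏ p ∈ ow w, p : ℕ)) : ℝ))
  refine ⟨max (max m1 m3) (max m4 1), fun X hX a b ha hab hb T hT c hc => ?_⟩
  have b3 := h3 X (le_trans (le_trans (le_max_right _ _) (le_max_left _ _)) hX)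
  have b4 := h4 X (le_trans (le_trans (le_max_left _ _) (le_max_right _ _)) hX)
  have b5 : 1 ≤ X := le_trans (le_trans (le_max_right _ _) (le_max_right _ _)) hX
  have hX0 : (0 : ℝ) < X := by exact_mod_cast b5
  have hL1 : 1 ≤ Real.log X := (le_max_left _ _).trans b4
  have hL0 : 0 < Real.log X := by linarith
  have hTp : ∀ p ∈ T, p.Prime := fun p hp => (mem_ow.1 (hT hp)).2.2
  obtain ⟨D, hD⟩ : ∃ D : ℕ, D = ∏ p ∈ T, p := ⟨_, rfl⟩
  have hD1 : 1 ≤ D := by rw [hD]; exact Nat.succ_le_of_lt (prod_pos fun p hp => (hTp p hp).pos)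
  have hDL : (D : ℝ) ≤ Real.log X ^ 1 := by
    rw [pow_one]
    refine le_trans ?_ ((le_max_right _ _).trans b4)
    have : D ∣ ∏ p ∈ ow w, p := by rw [hD]; exact prod_dvd_prod_of_subset _ _ _ hT
    have h5 : D ≤ ∏ p ∈ ow w, p := Nat.le_of_dvd (prod_pos fun p hp => (mem_ow.1 hp).2.2.pos) this
    exact_mod_cast h5
  have hcop : c.Coprime D := by
    rw [hD]
    apply Nat.Coprime.prod_right
    intro p hp
    exact ((Nat.Prime.coprime_iff_not_dvd (hTp p hp)).2 (hc p hp)).symm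
  have hφ : ((Nat.totient D : ℕ) : ℝ) = ph T := by rw [hD]; exact totient_prod T hTp
  have c1 := fun y hy => h1 X (le_trans (le_trans (le_max_left _ _) (le_max_left _ _)) hX) D hD1 hDL c y hy
  simp only [if_pos hcop, hφ, pow_one] at c1
  have ca := abs_le.1 (c1 a (hab.trans hb))
  have cb := abs_le.1 (c1 b hb)
  obtain ⟨S, hS⟩ : ∃ S : ℝ, S = ∑ j ∈ (Ioc a b).filter (fun j => j ≡ c [MOD D]), ArithmeticFunction.vonMangoldt j := ⟨_, rfl⟩
  have hsplit : S + ∑ n ∈ (Icc 1 a).filter (fun n => n ≡ c [MOD D]), ArithmeticFunction.vonMangoldt n =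
      ∑ n ∈ (Icc 1 b).filter (fun n => n ≡ c [MOD D]), ArithmeticFunction.vonMangoldt n := by
    have e1 : (Ioc a b).filter (fun j => j ≡ c [MOD D]) = (Icc 1 b).filter (fun n => n ≡ c [MOD D]) \ (Icc 1 a).filter (fun n => n ≡ c [MOD D]) := by
      ext j
      simp only [mem_filter, mem_Ioc, mem_sdiff, mem_Icc]
      constructor
      · rintro ⟨h5, h6⟩
        exact ⟨⟨by omega, h6⟩, fun h7 => by omega⟩
      · rintro ⟨⟨h5, h6⟩, h7⟩
        refine ⟨⟨?_, h5.2⟩, h6⟩
        by_contra h8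
        exact h7 ⟨⟨h5.1, by omega⟩, h6⟩
    rw [hS, e1]
    apply sum_sdiff
    intro j hj
    rw [mem_filter, mem_Icc] at hj ⊢
    exact ⟨⟨hj.1.1, hj.1.2.trans hab⟩, hj.2⟩
  have hSu : S ≤ ((b : ℝ) - a) / ph T + 2 * (X / Real.log X) := by
    rw [sub_div]
    linarith [ca.1, cb.2]
  have hSl : ((b : ℝ) - a) / ph T - 2 * (X / Real.log X) ≤ S := by
    rw [sub_div]
    linarith [ca.2, cb.1]
  have hPsub : Pc a b T c ⊆ (Ioc a b).filter (fun j => j ≡ c [MOD D]) := by
    intro p hp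
    unfold Pc at hp
    rw [mem_filter] at hp ⊢
    refine ⟨hp.1, ?_⟩
    rw [hD]
    exact (cls_iff T hTp p c).1 hp.2.2
  constructor
  · refine le_trans ?_ hSu
    rw [hS]
    refine le_trans ?_ (sum_le_sum_of_subset_of_nonneg hPsub (fun _ _ _ => ArithmeticFunction.vonMangoldt_nonneg))
    rw [← nsmul_eq_mul]
    apply card_nsmul_le_sum
    intro p hp
    unfold Pc at hp
    rw [mem_filter, mem_Ioc] at hp
    rw [ArithmeticFunction.vonMangoldt_apply_prime hp.2.1]
    exact Real.log_le_log (by exact_mod_cast ha) (by exact_mod_cast hp.1.1.le)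
  · have e1 : S ≤ ∑ p ∈ Pc a b T c, Real.log X + ∑ k ∈ (Icc 1 X).filter (fun k => ¬ k.Prime), ArithmeticFunction.vonMangoldt k := by
      rw [hS, ← sum_filter_add_sum_filter_not _ (fun j => j.Prime)]
      apply add_le_add
      · have e2 : ((Ioc a b).filter (fun j => j ≡ c [MOD D])).filter (fun j => j.Prime) = Pc a b T c := by
          unfold Pc
          rw [filter_filter]
          apply filter_congr
          intro j _
          rw [hD, ← cls_iff T hTp j c]
          tauto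
        rw [e2]
        apply sum_le_sum
        intro p hp
        unfold Pc at hp
        rw [mem_filter, mem_Ioc] at hp
        rw [ArithmeticFunction.vonMangoldt_apply_prime hp.2.1]
        exact Real.log_le_log (by exact_mod_cast hp.2.1.pos) (by exact_mod_cast hp.1.2.trans hb)
      · apply sum_le_sum_of_subset_of_nonneg _ (fun _ _ _ => ArithmeticFunction.vonMangoldt_nonneg)
        intro j hj
        rw [mem_filter, mem_filter, mem_Ioc] at hj
        rw [mem_filter, mem_Icc]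
        exact ⟨by omega, hj.2⟩
    rw [sum_const, nsmul_eq_mul] at e1
    have e3 := np_sum X b5
    have h7 : 2 * √(X : ℝ) * Real.log X ≤ X / Real.log X := by
      rw [le_div_iff₀ hL0]
      have e4 : √(X : ℝ) * √(X : ℝ) = X := Real.mul_self_sqrt hX0.le
      calc 2 * √(X : ℝ) * Real.log X * Real.log X = √(X : ℝ) * (2 * Real.log X ^ 2) := by ring
        _ ≤ √(X : ℝ) * √(X : ℝ) := by gcongr
        _ = X := e4
    linarith

end Pool.Agent.N730.PT
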