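import Mathlib
import Pool.Agent.N730.PT.Cnt

set_option autoImplicit false

/-! The local identity. -/

namespace Pool.Agent.N730.PT
open Finset

/-- the probability of a set of primes -/
noncomputable def pr (w : ℕ) (T : Finset ℕ) : ℝ := (∏ p ∈ T, 1 / (p : ℝ)) * ∏ p ∈ ow w \ T, (1 - 1 / (p : ℝ))

lemma pr_nonneg (w : ℕ) (T : Finset ℕ) : 0 ≤ pr w T := by
  unfold pr
  apply mul_nonneg
  · exact prod_nonneg fun p _ => by positivity
  · apply prod_nonneg
    intro p hp
    rw [mem_sdiff, mem_ow] at hp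
    have : (3 : ℝ) ≤ p := by exact_mod_cast hp.1.1
    rw [sub_nonneg, div_le_one (by linarith)]
    linarith

lemma sum_pr (w : ℕ) : ∑ T ∈ (ow w).powerset, pr w T = 1 := by
  unfold pr
  rw [← prod_add]
  apply prod_eq_one
  intro p _
  ring

lemma local_id (w n : ℕ) : ∑ T ∈ (ow w).powerset,
    (if ∀ p ∈ T, ¬ p ∣ n then pr w T * ph T * ∏ p ∈ ow w, loc T n p else 0) = 1 := by
  have h1 : ∀ T ∈ (ow w).powerset, (if ∀ p ∈ T, ¬ p ∣ n then pr w T * ph T * ∏ p ∈ ow w, loc T n p else 0) =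
      (∏ p ∈ T, (if p ∣ n then (0 : ℝ) else 1 / ((p : ℝ) - 1))) *
      ∏ p ∈ ow w \ T, (if p ∣ n then (1 : ℝ) else ((p : ℝ) - 2) / ((p : ℝ) - 1)) := by
    intro T hT
    rw [mem_powerset] at hT
    split_ifs with h
    · unfold pr ph
      rw [← prod_sdiff hT (f := fun p => loc T n p)]
      have e1 : (∏ p ∈ T, 1 / (p : ℝ)) * (∏ p ∈ ow w \ T, (1 - 1 / (p : ℝ))) * (∏ p ∈ T, ((p : ℝ) - 1)) *
          ((∏ p ∈ ow w \ T, loc T n p) * ∏ p ∈ T, loc T n p) =
          (∏ p ∈ T, (1 / (p : ℝ) * ((p : ℝ) - 1) * loc T n p)) * ∏ p ∈ ow w \ T, ((1 - 1 / (p : ℝ)) * loc T n p) := by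
        rw [prod_mul_distrib, prod_mul_distrib, prod_mul_distrib]
        ring
      rw [e1]
      congr 1
      · apply prod_congr rfl
        intro p hp
        have h3 : (3 : ℝ) ≤ p := by exact_mod_cast (mem_ow.1 (hT hp)).1
        have h4 : (p : ℝ) - 1 ≠ 0 := by linarith
        have h5 : (p : ℝ) ≠ 0 := by linarith
        rw [if_neg (h p hp)]
        unfold loc
        rw [if_pos hp]
        field_simp
      · apply prod_congr rfl
        intro p hp
        rw [mem_sdiff] at hp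
        have h3 : (3 : ℝ) ≤ p := by exact_mod_cast (mem_ow.1 hp.1).1
        have h4 : (p : ℝ) - 1 ≠ 0 := by linarith
        have h5 : (p : ℝ) ≠ 0 := by linarith
        unfold loc
        rw [if_neg hp.2]
        split_ifs
        · field_simp
        · field_simp
          ring
    · push Not at h
      obtain ⟨p, hp, hpn⟩ := h
      rw [prod_eq_zero hp, zero_mul]
      rw [if_pos hpn]
  rw [sum_congr rfl h1, ← prod_add]
  apply prod_eq_one
  intro p hp
  have h3 : (3 : ℝ) ≤ p := by exact_mod_cast (mem_ow.1 hp).1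
  have h4 : (p : ℝ) - 1 ≠ 0 := by linarith
  split_ifs
  · ring
  · field_simp
    ring

end Pool.Agent.N730.PT
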