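import Mathlib
import Pool.Agent.N730.PT.Loc

set_option autoImplicit false

/-! Averaging over the types: combinatorial part. -/

namespace Pool.Agent.N730.PT
open Finset

/-- the reduced classes -/
def Cl (T : Finset ℕ) : Finset ℕ := (range (∏ p ∈ T, p)).filter (fun c => (∏ p ∈ T, p).Coprime c)

lemma Cl_card (T : Finset ℕ) (hT : ∀ p ∈ T, p.Prime) : ((Cl T).card : ℝ) = ph T := by
  rw [← totient_prod T hT]
  rfl

lemma Cl_ndvd (T : Finset ℕ) (hT : ∀ p ∈ T, p.Prime) (c : ℕ) (hc : c ∈ Cl T) : ∀ p ∈ T, ¬ p ∣ c := by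
  intro p hp hd
  unfold Cl at hc
  rw [mem_filter] at hc
  have h1 : p ∣ ∏ p ∈ T, p := dvd_prod_of_mem _ hp
  exact Nat.not_coprime_of_dvd_of_dvd (hT p hp).one_lt h1 hd hc.2

lemma Cl_exists (w : ℕ) (T : Finset ℕ) (hT : T ⊆ ow w) (n : ℕ) (hn : ∀ p ∈ T, ¬ p ∣ n) :
    ∃ c ∈ Cl T, ∀ p ∈ T, n % p = (2 * c) % p := by
  have hTp : ∀ p ∈ T, p.Prime := fun p hp => (mem_ow.1 (hT hp)).2.2
  obtain ⟨D, hD⟩ : ∃ D : ℕ, D = ∏ p ∈ T, p := ⟨_, rfl⟩
  have hD1 : 1 ≤ D := by rw [hD]; exact Nat.succ_le_of_lt (prod_pos fun p hp => (hTp p hp).pos)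
  have hodd : D % 2 = 1 := by
    rw [hD]
    have : Odd (∏ p ∈ T, p) := by
      apply Finset.prod_induction _ Odd (fun a b ha hb => ha.mul hb) odd_one
      intro p hp
      have h3 := mem_ow.1 (hT hp)
      exact h3.2.2.odd_of_ne_two (by omega)
    exact Nat.odd_iff.1 this
  obtain ⟨e, he⟩ : ∃ e : ℕ, 2 * e = D + 1 := ⟨(D + 1) / 2, by omega⟩
  have hmod : 2 * ((n * e) % D) ≡ n [MOD D] := by
    have h1 : 2 * ((n * e) % D) ≡ 2 * (n * e) [MOD D] := Nat.ModEq.mul_left 2 (Nat.mod_modEq _ _)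
    have h2 : 2 * (n * e) = n * D + n := by
      calc 2 * (n * e) = n * (2 * e) := by ring
        _ = n * (D + 1) := by rw [he]
        _ = n * D + n := by ring
    rw [h2] at h1
    refine h1.trans ?_
    have h3 : n * D + n ≡ 0 + n [MOD D] := Nat.ModEq.add_right n ((Nat.modEq_zero_iff_dvd).2 (Dvd.intro_left n rfl))
    rwa [zero_add] at h3
  have hmodp : ∀ p ∈ T, 2 * ((n * e) % D) ≡ n [MOD p] := by
    intro p hp
    apply hmod.of_dvd
    rw [hD]
    exact dvd_prod_of_mem _ hp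
  refine ⟨(n * e) % D, ?_, fun p hp => (hmodp p hp).symm⟩
  unfold Cl
  rw [mem_filter, mem_range, ← hD]
  refine ⟨Nat.mod_lt _ (by omega), ?_⟩
  apply Nat.Coprime.symm
  rw [hD]
  apply Nat.Coprime.prod_right
  intro p hp
  apply Nat.Coprime.symm
  rw [Nat.Prime.coprime_iff_not_dvd (hTp p hp), ← hD]
  intro hd
  have h1 := hmodp p hp
  have h2 : 2 * ((n * e) % D) ≡ 0 [MOD p] := (Nat.modEq_zero_iff_dvd).2 (hd.mul_left 2)
  exact hn p hp ((Nat.modEq_zero_iff_dvd).1 (h1.symm.trans h2))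

/-- pairs with sum `n` -/
def RP (P : Finset ℕ) (n : ℕ) : ℕ := ((P ×ˢ P).filter (fun q => q.1 + q.2 = n)).card

lemma rr_le_RP (a b : ℕ) (T : Finset ℕ) (c n : ℕ) (hn : ∀ p ∈ T, n % p = (2 * c) % p) :
    rr a b T c n ≤ RP (Pc a b T c) n := by
  unfold rr RP
  apply card_le_card_of_injOn (fun j => (j, n - j))
  · intro j hj
    simp only [coe_filter, Set.mem_setOf_eq, mem_Wn] at hj
    simp only [coe_filter, Set.mem_setOf_eq, mem_product]
    obtain ⟨⟨h1, h2, h3⟩, h4, h5⟩ := hj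
    have hjn : j ≤ n := by omega
    refine ⟨⟨?_, ?_⟩, by omega⟩
    · unfold Pc
      rw [mem_filter, mem_Ioc]
      exact ⟨h1, h4, h3⟩
    · unfold Pc
      rw [mem_filter, mem_Ioc]
      refine ⟨h2, h5, ?_⟩
      intro p hp
      have e1 : j ≡ c [MOD p] := h3 p hp
      have e2 : n ≡ 2 * c [MOD p] := hn p hp
      have e3 : (n - j) + j ≡ c + c [MOD p] := by
        rw [Nat.sub_add_cancel hjn, ← two_mul]
        exact e2
      have e4 : (n - j) + c ≡ c + c [MOD p] := (Nat.ModEq.add_left (n - j) e1.symm).trans e3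
      exact Nat.ModEq.add_right_cancel' c e4
  · intro j _ j' _ h
    simp only [Prod.mk.injEq] at h
    exact h.1

lemma sum_RP (P S : Finset ℕ) : ∑ n ∈ S, RP P n = ((P ×ˢ P).filter (fun q => q.1 + q.2 ∈ S)).card := by
  classical
  unfold RP
  rw [← card_biUnion]
  · congr 1
    ext q
    simp only [mem_biUnion, mem_filter]
    constructor
    · rintro ⟨n, h1, h2, h3⟩
      exact ⟨h2, h3 ▸ h1⟩
    · rintro ⟨h1, h2⟩
      exact ⟨_, h2, h1, rfl⟩
  · intro a _ b _ hab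
    rw [Function.onFun, disjoint_left]
    intro q h1 h2
    rw [mem_filter] at h1 h2
    exact hab (h1.2.symm.trans h2.2)

lemma len_sum (J h n : ℕ) (h1 : 4 * h < n) (h2 : n ≤ 2 * (J - 1) * h) (hh : 1 ≤ h) (hJ : 4 ≤ J) :
    2 * h ≤ ∑ j ∈ Icc 1 (J - 2), (hi (j * h) ((j + 2) * h) n - lo (j * h) ((j + 2) * h) n) := by
  obtain ⟨m, y, hm, hy1, hy2⟩ : ∃ m y : ℕ, n = 2 * (m * h) + y ∧ 1 ≤ y ∧ y ≤ 2 * h := by
    refine ⟨(n - 1) / (2 * h), (n - 1) % (2 * h) + 1, ?_, by omega, ?_⟩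
    · have e1 := Nat.div_add_mod (n - 1) (2 * h)
      have e2 : 2 * ((n - 1) / (2 * h) * h) = 2 * h * ((n - 1) / (2 * h)) := by ring
      rw [e2]
      omega
    · have := Nat.mod_lt (n - 1) (show 0 < 2 * h by omega)
      omega
  have hm2 : 2 ≤ m := by
    by_contra hlt
    have : m ≤ 1 := by omega
    have : m * h ≤ 1 * h := Nat.mul_le_mul_right h this
    omega
  have hmJ : m ≤ J - 2 := by
    by_contra hlt
    have e1 : J - 1 ≤ m := by omega
    have e2 : (J - 1) * h ≤ m * h := Nat.mul_le_mul_right h e1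
    have e3 : 2 * (J - 1) * h = 2 * ((J - 1) * h) := by ring
    omega
  obtain ⟨A, hA⟩ : ∃ A : ℕ, A = m * h := ⟨_, rfl⟩
  have hAh : 2 * h ≤ A := by rw [hA]; exact Nat.mul_le_mul_right h hm2
  have hsub : ({m - 1, m} : Finset ℕ) ⊆ Icc 1 (J - 2) := by
    intro j hj
    rw [mem_insert, mem_singleton] at hj
    rw [mem_Icc]
    omega
  refine le_trans ?_ (sum_le_sum_of_subset hsub)
  rw [sum_pair (by omega)]
  have e1 : (m - 1) * h = A - h := by rw [Nat.sub_mul, one_mul, ← hA]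
  have e2 : (m - 1 + 2) * h = A + h := by
    have : m - 1 + 2 = m + 1 := by omega
    rw [this, add_mul, one_mul, ← hA]
  have e3 : (m + 2) * h = A + 2 * h := by rw [add_mul, ← hA]
  rw [e1, e2, e3, ← hA]
  rw [← hA] at hm
  unfold hi lo
  omega

end Pool.Agent.N730.PT
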