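import Mathlib
import Pool.Agent.N730.PT.Avg

set_option autoImplicit false

/-! The density transfer: averaging over windows and residue classes. -/

namespace Pool.Agent.N730.PT
open Finset
open Pool.Agent.H373R2.T7

/-- the window set of a type -/
def Pt (h : ℕ) (T : Finset ℕ) (c j : ℕ) : Finset ℕ := Pc (j * h) ((j + 2) * h) T c

/-- the averaged number of representations -/
noncomputable def GG (w J h n : ℕ) : ℝ :=
  ∑ T ∈ (ow w).powerset, ∑ c ∈ Cl T, ∑ j ∈ Icc 1 (J - 2), pr w T / (ph T * ((J : ℝ) - 2)) *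
    ((RP (Pt h T c j) n : ℝ) / ((Pt h T c j).card : ℝ) ^ 2)

lemma pow_prime {w : ℕ} {T : Finset ℕ} (hT : T ∈ (ow w).powerset) : ∀ p ∈ T, p.Prime :=
  fun _ hp => (mem_ow.1 (mem_powerset.1 hT hp)).2.2

lemma ph_pos {w : ℕ} {T : Finset ℕ} (hT : T ∈ (ow w).powerset) : 0 < ph T :=
  lt_of_lt_of_le one_pos (ph_ge_one T (fun p hp => (pow_prime hT p hp).two_le))

lemma T_low (w J h n : ℕ) (hw : 2 ≤ w) (hJ : 4 ≤ J) (hh : 1 ≤ h) (L η W : ℝ) (hL : 0 < L) (hη : 0 ≤ η)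
    (h1 : 4 * h < n) (h2 : n ≤ 2 * (J - 1) * h) (T : Finset ℕ) (hT : T ∈ (ow w).powerset) (hW : ph T ≤ W)
    (hn : ∀ c ∈ Cl T, ∀ j ∈ Icc 1 (J - 2), (∀ p ∈ T, n % p = (2 * c) % p) →
      ((hi (j * h) ((j + 2) * h) n - lo (j * h) ((j + 2) * h) n : ℕ) : ℝ) * (2 * ((1 - 1 / (w : ℝ)) * ∏ p ∈ ow w, loc T n p)) -
        4 * (((J * h : ℕ) : ℝ) / L) ≤ L ^ 2 * rr (j * h) ((j + 2) * h) T c n)
    (hP : ∀ c ∈ Cl T, ∀ j ∈ Icc 1 (J - 2), 0 < (Pt h T c j).card ∧ ((Pt h T c j).card : ℝ) * L ≤ (1 + η) * (2 * h / ph T)) :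
    (1 / (((J : ℝ) - 2) * (1 + η) ^ 2 * h)) * ((1 - 1 / (w : ℝ)) *
      (if ∀ p ∈ T, ¬ p ∣ n then pr w T * ph T * ∏ p ∈ ow w, loc T n p else 0) - (J : ℝ) ^ 2 * W / L * pr w T) ≤
    ∑ c ∈ Cl T, ∑ j ∈ Icc 1 (J - 2), pr w T / (ph T * ((J : ℝ) - 2)) *
    ((RP (Pt h T c j) n : ℝ) / ((Pt h T c j).card : ℝ) ^ 2) := by
  have hφ := ph_pos hT
  have hpr := pr_nonneg w T
  have hJr : (4 : ℝ) ≤ J := by exact_mod_cast hJ
  have hhr : (1 : ℝ) ≤ h := by exact_mod_cast hh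
  have hh0 : (0 : ℝ) < h := by linarith
  have hJ2 : 0 < (J : ℝ) - 2 := by linarith
  have hη1 : 0 < 1 + η := by linarith
  have hW0 : 0 < W := hφ.trans_le hW
  have hK : 0 ≤ 1 / (((J : ℝ) - 2) * (1 + η) ^ 2 * h) := by positivity
  have hterm0 : ∀ c ∈ Cl T, ∀ j ∈ Icc 1 (J - 2), 0 ≤ pr w T / (ph T * ((J : ℝ) - 2)) *
    ((RP (Pt h T c j) n : ℝ) / ((Pt h T c j).card : ℝ) ^ 2) := fun c _ j _ => by positivity
  by_cases hcop : ∀ p ∈ T, ¬ p ∣ n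
  · rw [if_pos hcop]
    obtain ⟨c, hc, hcn⟩ := Cl_exists w T (mem_powerset.1 hT) n hcop
    have hone : ∑ j ∈ Icc 1 (J - 2), pr w T / (ph T * ((J : ℝ) - 2)) *
        ((RP (Pt h T c j) n : ℝ) / ((Pt h T c j).card : ℝ) ^ 2) ≤
        ∑ c ∈ Cl T, ∑ j ∈ Icc 1 (J - 2), pr w T / (ph T * ((J : ℝ) - 2)) *
        ((RP (Pt h T c j) n : ℝ) / ((Pt h T c j).card : ℝ) ^ 2) :=
      single_le_sum (f := fun c => ∑ j ∈ Icc 1 (J - 2), pr w T / (ph T * ((J : ℝ) - 2)) *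
        ((RP (Pt h T c j) n : ℝ) / ((Pt h T c j).card : ℝ) ^ 2)) (fun c hc => sum_nonneg (hterm0 c hc)) hc
    refine le_trans ?_ hone
    rw [← mul_sum]
    obtain ⟨Θ, hΘ⟩ : ∃ Θ : ℝ, Θ = ∏ p ∈ ow w, loc T n p := ⟨_, rfl⟩
    have hΘ0 : 0 ≤ Θ := by rw [hΘ]; exact prod_nonneg fun p hp => loc_nonneg T n p (mem_ow.1 hp).1
    rw [← hΘ] at hn ⊢
    have hwr : (2 : ℝ) ≤ w := by exact_mod_cast hw
    have hw1 : 0 ≤ 1 - 1 / (w : ℝ) := by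
      rw [sub_nonneg, div_le_one (by linarith)]
      linarith
    have hj : ∀ j ∈ Icc 1 (J - 2), (((hi (j * h) ((j + 2) * h) n - lo (j * h) ((j + 2) * h) n : ℕ) : ℝ) *
        (2 * ((1 - 1 / (w : ℝ)) * Θ)) - 4 * (((J * h : ℕ) : ℝ) / L)) * (ph T ^ 2 / ((1 + η) ^ 2 * (4 * (h : ℝ) ^ 2))) ≤
        (RP (Pt h T c j) n : ℝ) / ((Pt h T c j).card : ℝ) ^ 2 := by
      intro j hj
      have e1 := hn c hc j hj hcn
      have e2 : (rr (j * h) ((j + 2) * h) T c n : ℝ) ≤ RP (Pt h T c j) n := by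
        exact_mod_cast rr_le_RP (j * h) ((j + 2) * h) T c n hcn
      obtain ⟨e3, e4⟩ := hP c hc j hj
      have e5 : (0 : ℝ) < (Pt h T c j).card := by exact_mod_cast e3
      obtain ⟨N, hN⟩ : ∃ N : ℝ, N = ((hi (j * h) ((j + 2) * h) n - lo (j * h) ((j + 2) * h) n : ℕ) : ℝ) *
        (2 * ((1 - 1 / (w : ℝ)) * Θ)) - 4 * (((J * h : ℕ) : ℝ) / L) := ⟨_, rfl⟩
      rw [← hN] at e1 ⊢
      rcases le_or_gt N 0 with hN0 | hN0
      · have : N * (ph T ^ 2 / ((1 + η) ^ 2 * (4 * (h : ℝ) ^ 2))) ≤ 0 :=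
          mul_nonpos_of_nonpos_of_nonneg hN0 (by positivity)
        refine this.trans (by positivity)
      · rw [le_div_iff₀ (by positivity)]
        have e6 : (((Pt h T c j).card : ℝ) * L) ^ 2 ≤ ((1 + η) * (2 * h / ph T)) ^ 2 :=
          pow_le_pow_left₀ (by positivity) e4 2
        have e7 : ((1 + η) * (2 * (h : ℝ) / ph T)) ^ 2 * (ph T ^ 2 / ((1 + η) ^ 2 * (4 * (h : ℝ) ^ 2))) = 1 := by
          field_simp
          ring
        have e8 : L ^ 2 * (N * (ph T ^ 2 / ((1 + η) ^ 2 * (4 * (h : ℝ) ^ 2))) * ((Pt h T c j).card : ℝ) ^ 2) ≤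
            L ^ 2 * (RP (Pt h T c j) n : ℝ) := by
          calc L ^ 2 * (N * (ph T ^ 2 / ((1 + η) ^ 2 * (4 * (h : ℝ) ^ 2))) * ((Pt h T c j).card : ℝ) ^ 2) =
              N * ((((Pt h T c j).card : ℝ) * L) ^ 2 * (ph T ^ 2 / ((1 + η) ^ 2 * (4 * (h : ℝ) ^ 2)))) := by ring
            _ ≤ N * (((1 + η) * (2 * h / ph T)) ^ 2 * (ph T ^ 2 / ((1 + η) ^ 2 * (4 * (h : ℝ) ^ 2)))) := by
                apply mul_le_mul_of_nonneg_left _ hN0.le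
                apply mul_le_mul_of_nonneg_right e6 (by positivity)
            _ = N := by rw [e7, mul_one]
            _ ≤ L ^ 2 * rr (j * h) ((j + 2) * h) T c n := e1
            _ ≤ L ^ 2 * (RP (Pt h T c j) n : ℝ) := by
                apply mul_le_mul_of_nonneg_left e2 (by positivity)
        exact le_of_mul_le_mul_left e8 (by positivity)
    have hsum := sum_le_sum hj
    rw [← sum_mul, sum_sub_distrib, ← sum_mul, sum_const, Nat.card_Icc, nsmul_eq_mul] at hsum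
    have hlen : (2 * h : ℝ) ≤ ∑ j ∈ Icc 1 (J - 2), ((hi (j * h) ((j + 2) * h) n - lo (j * h) ((j + 2) * h) n : ℕ) : ℝ) := by
      have := len_sum J h n h1 h2 hh hJ
      exact_mod_cast this
    have hJc : ((J - 2 + 1 - 1 : ℕ) : ℝ) ≤ J := by exact_mod_cast (by omega : J - 2 + 1 - 1 ≤ J)
    have hlow : (2 * (h : ℝ) * (2 * ((1 - 1 / (w : ℝ)) * Θ)) - J * (4 * (((J * h : ℕ) : ℝ) / L))) *
        (ph T ^ 2 / ((1 + η) ^ 2 * (4 * (h : ℝ) ^ 2))) ≤ ∑ j ∈ Icc 1 (J - 2),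
        (RP (Pt h T c j) n : ℝ) / ((Pt h T c j).card : ℝ) ^ 2 := by
      refine le_trans ?_ hsum
      apply mul_le_mul_of_nonneg_right _ (by positivity)
      apply sub_le_sub
      · apply mul_le_mul_of_nonneg_right hlen (by positivity)
      · apply mul_le_mul_of_nonneg_right hJc (by positivity)
    have hfin := mul_le_mul_of_nonneg_left hlow (show 0 ≤ pr w T / (ph T * ((J : ℝ) - 2)) by positivity)
    refine le_trans ?_ hfin
    have e9 : pr w T / (ph T * ((J : ℝ) - 2)) * ((2 * (h : ℝ) * (2 * ((1 - 1 / (w : ℝ)) * Θ)) - J * (4 * (((J * h : ℕ) : ℝ) / L))) *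
        (ph T ^ 2 / ((1 + η) ^ 2 * (4 * (h : ℝ) ^ 2)))) =
        (1 / (((J : ℝ) - 2) * (1 + η) ^ 2 * h)) * ((1 - 1 / (w : ℝ)) * (pr w T * ph T * Θ) - (J : ℝ) ^ 2 * ph T / L * pr w T) := by
      push_cast
      have hw0 : (w : ℝ) ≠ 0 := by linarith
      field_simp
      ring
    rw [e9]
    apply mul_le_mul_of_nonneg_left _ hK
    apply sub_le_sub_left
    gcongr
  · rw [if_neg hcop, mul_zero, zero_sub]
    have e1 : (1 / (((J : ℝ) - 2) * (1 + η) ^ 2 * h)) * (-((J : ℝ) ^ 2 * W / L * pr w T)) ≤ 0 := by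
      apply mul_nonpos_of_nonneg_of_nonpos hK
      rw [neg_nonpos]
      positivity
    refine e1.trans ?_
    exact sum_nonneg fun c hc => sum_nonneg (hterm0 c hc)

lemma G_low (w J h n : ℕ) (hw : 2 ≤ w) (hJ : 4 ≤ J) (hh : 1 ≤ h) (L η W : ℝ) (hL : 0 < L) (hη : 0 ≤ η)
    (h1 : 4 * h < n) (h2 : n ≤ 2 * (J - 1) * h) (hW : ∀ T ∈ (ow w).powerset, ph T ≤ W)
    (hn : ∀ T ∈ (ow w).powerset, ∀ c ∈ Cl T, ∀ j ∈ Icc 1 (J - 2), (∀ p ∈ T, n % p = (2 * c) % p) →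
      ((hi (j * h) ((j + 2) * h) n - lo (j * h) ((j + 2) * h) n : ℕ) : ℝ) * (2 * ((1 - 1 / (w : ℝ)) * ∏ p ∈ ow w, loc T n p)) -
        4 * (((J * h : ℕ) : ℝ) / L) ≤ L ^ 2 * rr (j * h) ((j + 2) * h) T c n)
    (hP : ∀ T ∈ (ow w).powerset, ∀ c ∈ Cl T, ∀ j ∈ Icc 1 (J - 2), 0 < (Pt h T c j).card ∧
      ((Pt h T c j).card : ℝ) * L ≤ (1 + η) * (2 * h / ph T)) :
    (1 / (((J : ℝ) - 2) * (1 + η) ^ 2 * h)) * ((1 - 1 / (w : ℝ)) - (J : ℝ) ^ 2 * W / L) ≤ GG w J h n := by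
  have h3 := sum_le_sum (fun T hT => T_low w J h n hw hJ hh L η W hL hη h1 h2 T hT (hW T hT) (hn T hT) (hP T hT))
  refine le_trans (le_of_eq ?_) h3
  rw [← mul_sum, sum_sub_distrib, ← mul_sum, ← mul_sum, local_id, sum_pr, mul_one, mul_one]

lemma G_avg (w J h : ℕ) (hJ : 4 ≤ J) (S : Finset ℕ) (g₀ β : ℝ) (hg : ∀ n ∈ S, g₀ ≤ GG w J h n)
    (hP : ∀ T ∈ (ow w).powerset, ∀ c ∈ Cl T, ∀ j ∈ Icc 1 (J - 2), 0 < (Pt h T c j).card)
    (hβ : ∀ T ∈ (ow w).powerset, ∀ c ∈ Cl T, ∀ j ∈ Icc 1 (J - 2),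
      ((((Pt h T c j) ×ˢ (Pt h T c j)).filter (fun q => q.1 + q.2 ∈ S)).card : ℝ) ≤ β * ((Pt h T c j).card : ℝ) ^ 2) :
    (S.card : ℝ) * g₀ ≤ β := by
  have hJr : (4 : ℝ) ≤ J := by exact_mod_cast hJ
  have hJ2 : 0 < (J : ℝ) - 2 := by linarith
  have h1 : (S.card : ℝ) * g₀ ≤ ∑ n ∈ S, GG w J h n := by
    rw [← nsmul_eq_mul]
    exact card_nsmul_le_sum _ _ _ hg
  refine h1.trans ?_
  unfold GG
  rw [sum_comm]
  have h2 : ∀ T ∈ (ow w).powerset, ∑ n ∈ S, ∑ c ∈ Cl T, ∑ j ∈ Icc 1 (J - 2), pr w T / (ph T * ((J : ℝ) - 2)) *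
    ((RP (Pt h T c j) n : ℝ) / ((Pt h T c j).card : ℝ) ^ 2) ≤ pr w T * β := by
    intro T hT
    have hφ := ph_pos hT
    have hpr := pr_nonneg w T
    rw [sum_comm]
    have h3 : ∀ c ∈ Cl T, ∑ n ∈ S, ∑ j ∈ Icc 1 (J - 2), pr w T / (ph T * ((J : ℝ) - 2)) *
        ((RP (Pt h T c j) n : ℝ) / ((Pt h T c j).card : ℝ) ^ 2) ≤ pr w T / ph T * β := by
      intro c hc
      rw [sum_comm]
      have h4 : ∀ j ∈ Icc 1 (J - 2), ∑ n ∈ S, pr w T / (ph T * ((J : ℝ) - 2)) *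
          ((RP (Pt h T c j) n : ℝ) / ((Pt h T c j).card : ℝ) ^ 2) ≤ pr w T / (ph T * ((J : ℝ) - 2)) * β := by
        intro j hj
        rw [← mul_sum]
        apply mul_le_mul_of_nonneg_left _ (by positivity)
        have h5 : (0 : ℝ) < (Pt h T c j).card := by exact_mod_cast hP T hT c hc j hj
        rw [← sum_div, div_le_iff₀ (by positivity)]
        refine le_trans (le_of_eq ?_) (hβ T hT c hc j hj)
        rw [← sum_RP]
        push_cast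
        rfl
      refine (sum_le_sum h4).trans ?_
      rw [sum_const, Nat.card_Icc, nsmul_eq_mul]
      have h6 : ((J - 2 + 1 - 1 : ℕ) : ℝ) = (J : ℝ) - 2 := by
        rw [Nat.add_sub_cancel, Nat.cast_sub (by omega)]
        norm_num
      rw [h6]
      apply le_of_eq
      field_simp
    refine (sum_le_sum h3).trans ?_
    rw [sum_const, nsmul_eq_mul, Cl_card T (pow_prime hT)]
    apply le_of_eq
    field_simp
  refine (sum_le_sum h2).trans ?_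
  rw [← sum_mul, sum_pr, one_mul]

end Pool.Agent.N730.PT
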