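import Mathlib
import Pool.Agent.N730.PT.Main

set_option autoImplicit false

/-! The density transfer theorem. -/

namespace Pool.Agent.N730.PT
open Finset
open Pool.Agent.H373R2.T7

/-- the primes of a residue class in a window -/
def PP (a b D c : ℕ) : Finset ℕ := (Ioc a b).filter (fun p => p.Prime ∧ p ≡ c [MOD D])

lemma Pc_eq_PP (a b : ℕ) (T : Finset ℕ) (hT : ∀ p ∈ T, p.Prime) (c : ℕ) : Pc a b T c = PP a b (∏ p ∈ T, p) c := by
  unfold Pc PP
  apply filter_congr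
  intro j _
  rw [cls_iff T hT]


lemma num1 (N L Y η lJ E : ℝ) (hη0 : 0 < η) (hη1 : η ≤ 1) (hY : 0 < Y) (e4 : N * (L - lJ) ≤ Y + E)
    (e5 : E ≤ η / 4 * Y) (e9 : N * lJ ≤ η / 4 * (N * L)) : N * L ≤ (1 + η) * Y := by
  have f1 : (1 - η / 4) * (N * L) ≤ (1 + η / 4) * Y := by nlinarith
  have f0 : 1 + η / 4 ≤ (1 - η / 4) * (1 + η) := by nlinarith
  have f2 : (1 + η / 4) * Y ≤ (1 - η / 4) * ((1 + η) * Y) := by
    rw [← mul_assoc]
    exact mul_le_mul_of_nonneg_right f0 hY.le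
  have f3 : 0 < 1 - η / 4 := by linarith
  exact le_of_mul_le_mul_left (f1.trans f2) f3

lemma num2 (J W L ε η w : ℝ) (hε : 0 < ε) (hε1 : ε ≤ 1) (hη : η = ε / 64) (hw : 0 < w) (hwr : 32 / ε ≤ w)
    (hW : 0 ≤ W) (hL : 0 < L) (l1 : J ^ 2 * W / L ≤ ε / 32) :
    1 - 3 * ε / 32 ≤ ((1 - 1 / w) - J ^ 2 * W / L) / (1 + η) ^ 2 ∧ ((1 - 1 / w) - J ^ 2 * W / L) / (1 + η) ^ 2 ≤ 1 := by
  have hη0 : 0 < η := by rw [hη]; positivity
  have a1 : 1 / w ≤ ε / 32 := by
    rw [div_le_iff₀ hw]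
    rw [div_le_iff₀ hε] at hwr
    linarith
  have a2 : 1 - ε / 16 ≤ (1 - 1 / w) - J ^ 2 * W / L := by linarith
  constructor
  · rw [le_div_iff₀ (by positivity)]
    have a4 : (1 - ε / 32) * (1 + η) ^ 2 ≤ 1 := by
      have b1 : (1 + η) ^ 2 = 1 + 2 * η + η ^ 2 := by ring
      rw [b1, hη]
      nlinarith [mul_pos hε hε, mul_pos (mul_pos hε hε) hε]
    have a5 : 0 ≤ 1 - ε / 16 := by linarith
    have a6 : 1 - 3 * ε / 32 ≤ (1 - ε / 16) * (1 - ε / 32) := by nlinarith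
    calc (1 - 3 * ε / 32) * (1 + η) ^ 2 ≤ (1 - ε / 16) * (1 - ε / 32) * (1 + η) ^ 2 :=
          mul_le_mul_of_nonneg_right a6 (by positivity)
      _ = (1 - ε / 16) * ((1 - ε / 32) * (1 + η) ^ 2) := by ring
      _ ≤ (1 - ε / 16) * 1 := mul_le_mul_of_nonneg_left a4 a5
      _ ≤ _ := by linarith
  · rw [div_le_one (by positivity)]
    have b1 : 0 ≤ 1 / w := by positivity
    have b2 : 0 ≤ J ^ 2 * W / L := by positivity
    have b3 : (1 : ℝ) ≤ (1 + η) ^ 2 := one_le_pow₀ (by linarith)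
    linarith

lemma num3 (ε q Y Zc Sc A E : ℝ) (hε : 0 < ε) (hε1 : ε ≤ 1) (hq2 : q ≤ 2) (hY : 0 < Y)
    (c5 : q * Y ≤ Zc) (c1 : Zc - E ≤ Sc) (hE : 0 ≤ E) (cE : E ≤ (ε / 8 + ε / 32 + ε / 32) * Y) (hq0 : 0 ≤ q)
    (a6 : 1 - 3 * ε / 32 ≤ A) (a8 : A ≤ 1) : (q - ε / 2) * Y < Sc * A := by
  have a7 : 0 ≤ A := by linarith
  have c2 : (Zc - E) * A ≤ Sc * A := mul_le_mul_of_nonneg_right c1 a7
  have d1 : (q * Y) * A ≤ Zc * A := mul_le_mul_of_nonneg_right c5 a7
  have d2 : q - 6 * ε / 32 ≤ q * A := by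
    have : q * (1 - 3 * ε / 32) ≤ q * A := mul_le_mul_of_nonneg_left a6 hq0
    nlinarith
  have d3 : (q - 6 * ε / 32) * Y ≤ q * A * Y := mul_le_mul_of_nonneg_right d2 hY.le
  have d4 : E * A ≤ E * 1 := mul_le_mul_of_nonneg_left a8 hE
  have d5 : (q - ε / 2) * Y < (q - 6 * ε / 32) * Y - (ε / 8 + ε / 32 + ε / 32) * Y := by
    rw [← sub_mul]
    apply mul_lt_mul_of_pos_right _ hY
    linarith
  nlinarith

lemma num4 (β ε N M K : ℝ) (hε : 0 < ε) (e4 : 2 / ε ≤ N) (hlt : (β - ε / 2) * N ^ 2 < M) (e3 : M ≤ K + N) :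
    (β - ε) * N ^ 2 ≤ K := by
  have hN0 : 0 ≤ N := le_trans (by positivity) e4
  have e5 : N ≤ ε / 2 * N ^ 2 := by
    rw [div_le_iff₀ hε] at e4
    nlinarith
  nlinarith

set_option maxHeartbeats 2000000 in
open Classical in
theorem transfer1 (ε : ℝ) (hε : 0 < ε) (hε1 : ε ≤ 1) : ∃ M x₀ : ℕ, 1 ≤ M ∧ ∀ x : ℕ, x₀ ≤ x → ∀ Z : Set ℕ, ∃ D c a b : ℕ,
    1 ≤ D ∧ D ≤ M ∧ D.Coprime c ∧ x ≤ M * a ∧ a ≤ b ∧ 2 * b ≤ x ∧
    (x : ℝ) ≤ M * (PP a b D c).card * Real.log x ∧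
    (2 * (((Icc 1 x).filter (fun n => 2 ∣ n ∧ n ∈ Z)).card : ℝ) / x - ε) * ((PP a b D c).card : ℝ) ^ 2 ≤
      ((((PP a b D c) ×ˢ (PP a b D c)).filter (fun q => q.1 ≠ q.2 ∧ q.1 + q.2 ∈ Z)).card : ℝ) := by
  obtain ⟨w, hw⟩ : ∃ w : ℕ, w = ⌈32 / ε⌉₊ + 2 := ⟨_, rfl⟩
  obtain ⟨J, hJ⟩ : ∃ J : ℕ, J = ⌈48 / ε⌉₊ + 4 := ⟨_, rfl⟩
  obtain ⟨W, hW⟩ : ∃ W : ℕ, W = ∏ p ∈ ow w, p := ⟨_, rfl⟩
  obtain ⟨η, hη⟩ : ∃ η : ℝ, η = ε / 64 := ⟨_, rfl⟩
  obtain ⟨C0, hC0⟩ : ∃ C0 : ℕ, C0 = ∑ T ∈ (ow w).powerset, ∑ c ∈ Cl T, ∑ j ∈ Icc 1 (J - 2), 1 := ⟨_, rfl⟩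
  have hw2 : 2 ≤ w := by omega
  have hJ4 : 4 ≤ J := by omega
  have hwr : 32 / ε ≤ w := by
    rw [hw]; push_cast
    have := Nat.le_ceil (32 / ε)
    linarith
  have hJr : 48 / ε ≤ J := by
    rw [hJ]; push_cast
    have := Nat.le_ceil (48 / ε)
    linarith
  have hW1 : 1 ≤ W := by
    rw [hW]; exact Nat.succ_le_of_lt (prod_pos fun p hp => (mem_ow.1 hp).2.2.pos)
  have hη0 : 0 < η := by rw [hη]; positivity
  have hη1 : η ≤ 1 := by rw [hη]; linarith
  have hJ0 : (4 : ℝ) ≤ J := by exact_mod_cast hJ4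
  have hW0 : (1 : ℝ) ≤ W := by exact_mod_cast hW1
  have hC00 : (0 : ℝ) ≤ C0 := Nat.cast_nonneg _
  have hlJ : 0 ≤ Real.log J := Real.log_nonneg (by linarith)
  obtain ⟨m1, k2⟩ := key2 w hw2
  obtain ⟨m2, k3⟩ := key3 w
  obtain ⟨m3, kL⟩ := ev_L' (32 * ((J : ℝ) ^ 2 * W) / ε + 32 * C0 / ε + 4 * (J * W) / η + 4 * Real.log J / η + 1)
  obtain ⟨m4, kS⟩ := ev_log' 1 (2 * W * J / ε)
  obtain ⟨h0, hh0⟩ : ∃ h0 : ℕ, h0 = m1 + m2 + m3 + m4 + ⌈64 / ε⌉₊ + 1 := ⟨_, rfl⟩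
  refine ⟨4 * J * W, 2 * J * h0, Nat.mul_pos (by omega) (by omega), fun x hx Z => ?_⟩
  obtain ⟨h, hh⟩ : ∃ h : ℕ, h = x / (2 * J) := ⟨_, rfl⟩
  have hhh : h0 ≤ h := by
    rw [hh, Nat.le_div_iff_mul_le (by omega), mul_comm]
    exact hx
  have hx1 : 2 * J * h ≤ x := by rw [hh]; exact Nat.mul_div_le _ _
  have hx2 : x < 2 * J * (h + 1) := by
    rw [hh]
    have := Nat.lt_mul_div_succ x (show 0 < 2 * J by omega)
    exact this
  have hh1 : 1 ≤ h := by omega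
  obtain ⟨X, hX⟩ : ∃ X : ℕ, X = J * h := ⟨_, rfl⟩
  have hhX : h ≤ X := by rw [hX]; exact Nat.le_mul_of_pos_left h (by omega)
  obtain ⟨L, hL⟩ : ∃ L : ℝ, L = Real.log X := ⟨_, rfl⟩
  have kL1 := kL X (by omega)
  have kS1 := kS X (by omega)
  rw [← hL] at kL1 kS1
  rw [pow_one] at kS1
  have t1 : 0 ≤ 32 * ((J : ℝ) ^ 2 * W) / ε := by positivity
  have t2 : 0 ≤ 32 * (C0 : ℝ) / ε := by positivity
  have t3 : 0 ≤ 4 * ((J : ℝ) * W) / η := by positivity
  have t4 : 0 ≤ 4 * Real.log J / η := by positivity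
  have hL1 : 1 ≤ L := by linarith
  have hL0 : 0 < L := by linarith
  have l1 : (J : ℝ) ^ 2 * W / L ≤ ε / 32 := by
    rw [div_le_iff₀ hL0]
    have : 32 * ((J : ℝ) ^ 2 * W) / ε ≤ L := by linarith
    rw [div_le_iff₀ hε] at this
    linarith
  have l2 : (C0 : ℝ) / L ≤ ε / 32 := by
    rw [div_le_iff₀ hL0]
    have : 32 * (C0 : ℝ) / ε ≤ L := by linarith
    rw [div_le_iff₀ hε] at this
    linarith
  have l3 : (J : ℝ) * W ≤ η / 4 * L := by
    have : 4 * ((J : ℝ) * W) / η ≤ L := by linarith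
    rw [div_le_iff₀ hη0] at this
    linarith
  have l4 : Real.log J ≤ η / 4 * L := by
    have : 4 * Real.log J / η ≤ L := by linarith
    rw [div_le_iff₀ hη0] at this
    linarith
  have hh1r : (1 : ℝ) ≤ h := by exact_mod_cast hh1
  have hhr0 : (0 : ℝ) < h := by linarith
  have hXr : (X : ℝ) = J * h := by rw [hX]; push_cast; ring
  have hX0 : (0 : ℝ) < X := by rw [hXr]; positivity
  have hlogX : L = Real.log J + Real.log h := by
    rw [hL, hXr, Real.log_mul (by positivity) (by positivity)]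
  -- totients
  have hphW : ∀ T ∈ (ow w).powerset, ph T ≤ W := by
    intro T hT
    rw [hW]
    push_cast
    unfold ph
    have hT' := mem_powerset.1 hT
    calc ∏ p ∈ T, ((p : ℝ) - 1) ≤ ∏ p ∈ T, (p : ℝ) := by
          apply prod_le_prod
          · intro p hp
            have : (3 : ℝ) ≤ p := by exact_mod_cast (mem_ow.1 (hT' hp)).1
            linarith
          · intro p _; linarith
      _ ≤ ∏ p ∈ ow w, (p : ℝ) := by
          rw [← prod_sdiff hT']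
          apply le_mul_of_one_le_left (prod_nonneg fun p _ => Nat.cast_nonneg _)
          calc (1 : ℝ) = ∏ _p ∈ ow w \ T, (1 : ℝ) := by simp
            _ ≤ _ := prod_le_prod (fun _ _ => zero_le_one) (fun p hp => by
              have : 1 ≤ p := (mem_ow.1 (mem_sdiff.1 hp).1).2.2.one_le
              exact_mod_cast this)
  -- windows
  have hwin : ∀ j ∈ Icc 1 (J - 2), 1 ≤ j * h ∧ j * h ≤ (j + 2) * h ∧ (j + 2) * h ≤ X ∧ h ≤ j * h := by
    intro j hj
    rw [mem_Icc] at hj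
    refine ⟨Nat.mul_pos (by omega) (by omega), Nat.mul_le_mul_right h (by omega), ?_, Nat.le_mul_of_pos_left h (by omega)⟩
    rw [hX]
    exact Nat.mul_le_mul_right h (by omega)
  -- cardinalities
  have hcard : ∀ T ∈ (ow w).powerset, ∀ c ∈ Cl T, ∀ j ∈ Icc 1 (J - 2),
      ((Pt h T c j).card : ℝ) * L ≤ (1 + η) * (2 * h / ph T) ∧ (h : ℝ) / W ≤ ((Pt h T c j).card : ℝ) * L := by
    intro T hT c hc j hj
    have hφ := ph_pos hT
    have hφW := hphW T hT
    obtain ⟨w1, w2, w3, w4⟩ := hwin j hj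
    have hk := k3 X (by omega) (j * h) ((j + 2) * h) w1 w2 w3 T (mem_powerset.1 hT) c (Cl_ndvd T (pow_prime hT) c hc)
    rw [← hL] at hk
    obtain ⟨N, hN⟩ : ∃ N : ℝ, N = ((Pc (j * h) ((j + 2) * h) T c).card : ℝ) := ⟨_, rfl⟩
    have hN0 : 0 ≤ N := by rw [hN]; positivity
    have hPt : ((Pt h T c j).card : ℝ) = N := by rw [hN]; rfl
    rw [hPt]
    rw [← hN] at hk
    have e1 : (((j + 2) * h : ℕ) : ℝ) - ((j * h : ℕ) : ℝ) = 2 * h := by push_cast; ring
    rw [e1, hXr] at hk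
    obtain ⟨hk1, hk2⟩ := hk
    have e2 : Real.log h ≤ Real.log ((j * h : ℕ) : ℝ) := Real.log_le_log hhr0 (by exact_mod_cast w4)
    have e3 : L - Real.log J ≤ Real.log ((j * h : ℕ) : ℝ) := by linarith
    have e4 : N * (L - Real.log J) ≤ 2 * h / ph T + 2 * (J * h / L) := (mul_le_mul_of_nonneg_left e3 hN0).trans hk1
    have e5 : 2 * ((J : ℝ) * h / L) ≤ η / 4 * (2 * h / ph T) := by
      have e6 : (J : ℝ) * ph T ≤ η / 4 * L := (mul_le_mul_of_nonneg_left hφW (by linarith)).trans l3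
      have e7 : 2 * ((J : ℝ) * h / L) = (2 * h / (ph T * L)) * (J * ph T) := by field_simp
      have e8 : η / 4 * (2 * h / ph T) = (2 * h / (ph T * L)) * (η / 4 * L) := by field_simp
      rw [e7, e8]
      apply mul_le_mul_of_nonneg_left e6 (by positivity)
    have e9 : N * Real.log J ≤ η / 4 * (N * L) := by
      calc N * Real.log J ≤ N * (η / 4 * L) := mul_le_mul_of_nonneg_left l4 hN0
        _ = _ := by ring
    obtain ⟨Y, hY⟩ : ∃ Y : ℝ, Y = 2 * h / ph T := ⟨_, rfl⟩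
    have hY0 : 0 < Y := by rw [hY]; positivity
    rw [← hY] at e4 e5 hk2 ⊢
    constructor
    · exact num1 N L Y η (Real.log J) _ hη0 hη1 hY0 e4 e5 e9
    · have f1 : 3 * ((J : ℝ) * h / L) ≤ Y / 2 := by
        have : 3 * ((J : ℝ) * h / L) = 3 / 2 * (2 * ((J : ℝ) * h / L)) := by ring
        rw [this]
        nlinarith
      have f2 : (h : ℝ) / W ≤ Y / 2 := by
        rw [hY]
        have : (2 : ℝ) * h / ph T / 2 = h / ph T := by field_simp
        rw [this]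
        exact div_le_div_of_nonneg_left hhr0.le hφ hφW
      linarith
  have hcpos : ∀ T ∈ (ow w).powerset, ∀ c ∈ Cl T, ∀ j ∈ Icc 1 (J - 2), 0 < (Pt h T c j).card := by
    intro T hT c hc j hj
    have h5 := (hcard T hT c hc j hj).2
    have h6 : 0 < (h : ℝ) / W := by positivity
    by_contra hz
    have : (Pt h T c j).card = 0 := by omega
    rw [this, Nat.cast_zero, zero_mul] at h5
    linarith
  -- the exceptional set
  obtain ⟨BB, hBB⟩ : ∃ BB : Finset ℕ → ℕ → ℕ → Finset ℕ, BB = fun T c j => (Icc 1 (2 * X)).filter (fun n =>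
      (2 ∣ n ∧ ∀ p ∈ T, n % p = (2 * c) % p) ∧ L ^ 2 * rr (j * h) ((j + 2) * h) T c n <
        ((hi (j * h) ((j + 2) * h) n - lo (j * h) ((j + 2) * h) n : ℕ) : ℝ) *
        (2 * ((1 - 1 / (w : ℝ)) * ∏ p ∈ ow w, loc T n p)) - 4 * ((X : ℝ) / L)) := ⟨_, rfl⟩
  have hBBc : ∀ T ∈ (ow w).powerset, ∀ c ∈ Cl T, ∀ j ∈ Icc 1 (J - 2), ((BB T c j).card : ℝ) ≤ X / L := by
    intro T hT c hc j hj
    obtain ⟨w1, w2, w3, w4⟩ := hwin j hj
    have hk := k2 X (by omega) (j * h) ((j + 2) * h) w2 w3 T (mem_powerset.1 hT) c (Cl_ndvd T (pow_prime hT) c hc)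
    rw [← hL] at hk
    rw [hBB]
    refine le_trans (le_of_eq ?_) hk
    congr 2
  obtain ⟨Bad, hBad⟩ : ∃ Bad : Finset ℕ, Bad = (ow w).powerset.biUnion (fun T => (Cl T).biUnion (fun c =>
      (Icc 1 (J - 2)).biUnion (fun j => BB T c j))) := ⟨_, rfl⟩
  have hBadc : (Bad.card : ℝ) ≤ C0 * (X / L) := by
    have e1 : Bad.card ≤ ∑ T ∈ (ow w).powerset, ∑ c ∈ Cl T, ∑ j ∈ Icc 1 (J - 2), (BB T c j).card := by
      rw [hBad]
      refine card_biUnion_le.trans (sum_le_sum fun T _ => ?_)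
      refine card_biUnion_le.trans (sum_le_sum fun c _ => ?_)
      exact card_biUnion_le
    have e2 : (Bad.card : ℝ) ≤ ∑ T ∈ (ow w).powerset, ∑ c ∈ Cl T, ∑ j ∈ Icc 1 (J - 2), ((BB T c j).card : ℝ) := by
      exact_mod_cast e1
    refine e2.trans ?_
    rw [hC0]
    push_cast
    rw [sum_mul]
    apply sum_le_sum
    intro T hT
    rw [sum_mul]
    apply sum_le_sum
    intro c hc
    rw [sum_mul]
    apply sum_le_sum
    intro j hj
    rw [one_mul]
    exact hBBc T hT c hc j hj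
  obtain ⟨Zx, hZx⟩ : ∃ Zx : Finset ℕ, Zx = (Icc 1 x).filter (fun n => 2 ∣ n ∧ n ∈ Z) := ⟨_, rfl⟩
  obtain ⟨S, hS⟩ : ∃ S : Finset ℕ, S = Zx.filter (fun n => (4 * h < n ∧ n ≤ 2 * (J - 1) * h) ∧ n ∉ Bad) := ⟨_, rfl⟩
  have hSc : (Zx.card : ℝ) ≤ S.card + (6 * h + 2 * J + C0 * (X / L)) := by
    have e1 : Zx ⊆ S ∪ (Icc 1 (4 * h) ∪ (Ioc (2 * (J - 1) * h) x ∪ Bad)) := by
      intro n hn
      rw [mem_union, mem_union, mem_union]
      by_cases b1 : 4 * h < n
      · by_cases b2 : n ≤ 2 * (J - 1) * h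
        · by_cases b3 : n ∈ Bad
          · exact Or.inr (Or.inr (Or.inr b3))
          · left
            rw [hS, mem_filter]
            exact ⟨hn, ⟨b1, b2⟩, b3⟩
        · right; right; left
          rw [hZx, mem_filter, mem_Icc] at hn
          rw [mem_Ioc]
          omega
      · right; left
        rw [hZx, mem_filter, mem_Icc] at hn
        rw [mem_Icc]
        omega
    have e2 := card_le_card e1
    have e3 : (Icc 1 (4 * h)).card = 4 * h := by simp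
    have e4 : (Ioc (2 * (J - 1) * h) x).card ≤ 2 * h + 2 * J := by
      rw [Nat.card_Ioc]
      have e5 : 2 * J * (h + 1) = 2 * (J - 1) * h + (2 * h + 2 * J) := by
        obtain ⟨J', hJ'⟩ : ∃ J', J = J' + 1 := ⟨J - 1, by omega⟩
        rw [hJ', Nat.add_sub_cancel]
        ring
      omega
    have e6 : Zx.card ≤ S.card + (4 * h + ((2 * h + 2 * J) + Bad.card)) := by
      refine e2.trans ((card_union_le _ _).trans ?_)
      apply Nat.add_le_add_left
      refine (card_union_le _ _).trans ?_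
      rw [e3]
      apply Nat.add_le_add_left
      refine (card_union_le _ _).trans ?_
      exact Nat.add_le_add_right e4 _
    have e7 : (Zx.card : ℝ) ≤ S.card + (4 * h + ((2 * h + 2 * J) + Bad.card)) := by exact_mod_cast e6
    linarith
  -- the lower bound for the averaged counts
  have hG : ∀ n ∈ S, (1 / (((J : ℝ) - 2) * (1 + η) ^ 2 * h)) * ((1 - 1 / (w : ℝ)) - (J : ℝ) ^ 2 * W / L) ≤ GG w J h n := by
    intro n hn
    rw [hS, mem_filter, hZx, mem_filter, mem_Icc] at hn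
    obtain ⟨⟨⟨n1, n2⟩, n3, n4⟩, ⟨n5, n6⟩, n7⟩ := hn
    apply G_low w J h n hw2 hJ4 hh1 L η W hL0 hη0.le n5 n6 hphW
    · intro T hT c hc j hj hcl
      have h8 : n ∉ BB T c j := by
        intro h9
        apply n7
        rw [hBad, mem_biUnion]
        refine ⟨T, hT, ?_⟩
        rw [mem_biUnion]
        refine ⟨c, hc, ?_⟩
        rw [mem_biUnion]
        exact ⟨j, hj, h9⟩
      by_contra hlt
      rw [not_le] at hlt
      apply h8
      rw [hBB]
      simp only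
      rw [mem_filter, mem_Icc]
      refine ⟨⟨n1, ?_⟩, ⟨n3, hcl⟩, ?_⟩
      · have : 2 * (J - 1) * h ≤ 2 * X := by
          rw [hX]
          calc 2 * (J - 1) * h = 2 * ((J - 1) * h) := by ring
            _ ≤ 2 * (J * h) := Nat.mul_le_mul_left 2 (Nat.mul_le_mul_right h (by omega))
        omega
      · rw [hX]
        exact hlt
    · intro T hT c hc j hj
      exact ⟨hcpos T hT c hc j hj, (hcard T hT c hc j hj).1⟩
  -- the choice of the type
  obtain ⟨β, hβ⟩ : ∃ β : ℝ, β = 2 * (Zx.card : ℝ) / x - ε / 2 := ⟨_, rfl⟩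
  have hxr : (0 : ℝ) < x := by
    have : 1 ≤ x := le_trans (Nat.mul_pos (by omega) hh1) hx1
    exact_mod_cast this
  have hbig : β < (S.card : ℝ) * ((1 / (((J : ℝ) - 2) * (1 + η) ^ 2 * h)) * ((1 - 1 / (w : ℝ)) - (J : ℝ) ^ 2 * W / L)) := by
    obtain ⟨A, hA⟩ : ∃ A : ℝ, A = ((1 - 1 / (w : ℝ)) - (J : ℝ) ^ 2 * W / L) / (1 + η) ^ 2 := ⟨_, rfl⟩
    have hwpos : (0 : ℝ) < w := by exact_mod_cast (by omega : 0 < w)
    obtain ⟨a6, a8⟩ := num2 J W L ε η w hε hε1 hη hwpos hwr (by linarith) hL0 l1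
    rw [← hA] at a6 a8
    have a7 : 0 ≤ A := by linarith
    have hJ2 : 0 < (J : ℝ) - 2 := by linarith
    have a9 : (S.card : ℝ) * ((1 / (((J : ℝ) - 2) * (1 + η) ^ 2 * h)) * ((1 - 1 / (w : ℝ)) - (J : ℝ) ^ 2 * W / L)) =
        S.card * A / (((J : ℝ) - 2) * h) := by
      rw [hA]
      generalize ((1 - 1 / (w : ℝ)) - (J : ℝ) ^ 2 * W / L) = u
      have g1 : (1 + η) ≠ 0 := by linarith
      field_simp
    rw [a9]
    have a10 : (S.card : ℝ) * A / (J * h) ≤ S.card * A / (((J : ℝ) - 2) * h) := by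
      apply div_le_div_of_nonneg_left (by positivity) (by positivity)
      apply mul_le_mul_of_nonneg_right (by linarith) hhr0.le
    refine lt_of_lt_of_le ?_ a10
    have hJh : 0 < (J : ℝ) * h := by positivity
    rw [lt_div_iff₀ hJh]
    have c1 : (Zx.card : ℝ) - (6 * h + 2 * J + C0 * (X / L)) ≤ S.card := by linarith
    have c3 : (Zx.card : ℝ) ≤ x := by
      have : Zx.card ≤ (Icc 1 x).card := by rw [hZx]; exact card_le_card (filter_subset _ _)
      rw [Nat.card_Icc, Nat.add_sub_cancel] at this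
      exact_mod_cast this
    have c4 : 2 * ((J : ℝ) * h) ≤ x := by
      have : 2 * J * h ≤ x := hx1
      have h' : ((2 * J * h : ℕ) : ℝ) ≤ x := by exact_mod_cast this
      push_cast at h'
      linarith
    obtain ⟨q, hq⟩ : ∃ q : ℝ, q = 2 * (Zx.card : ℝ) / x := ⟨_, rfl⟩
    have hq2 : q ≤ 2 := by
      rw [hq, div_le_iff₀ hxr]; linarith
    have hq0 : 0 ≤ q := by rw [hq]; positivity
    have c5 : q * (J * h) ≤ Zx.card := by
      rw [hq, div_mul_eq_mul_div, div_le_iff₀ hxr]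
      have hz0 : (0 : ℝ) ≤ Zx.card := Nat.cast_nonneg _
      calc 2 * (Zx.card : ℝ) * (J * h) = Zx.card * (2 * (J * h)) := by ring
        _ ≤ Zx.card * x := mul_le_mul_of_nonneg_left c4 hz0
    have c6 : (6 : ℝ) * h ≤ ε / 8 * (J * h) := by
      rw [div_le_iff₀ hε] at hJr
      have : 6 ≤ ε / 8 * J := by linarith
      calc (6 : ℝ) * h ≤ ε / 8 * J * h := mul_le_mul_of_nonneg_right this hhr0.le
        _ = _ := by ring
    have c7 : (2 : ℝ) * J ≤ ε / 32 * (J * h) := by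
      have : 64 / ε ≤ h := by
        have h1 := Nat.le_ceil (64 / ε)
        have h2 : ((⌈64 / ε⌉₊ : ℕ) : ℝ) ≤ h := by exact_mod_cast (by omega : ⌈64 / ε⌉₊ ≤ h)
        linarith
      rw [div_le_iff₀ hε] at this
      have h3 : 2 ≤ ε / 32 * h := by linarith
      calc (2 : ℝ) * J ≤ ε / 32 * h * J := mul_le_mul_of_nonneg_right h3 (by linarith)
        _ = _ := by ring
    have c8 : (C0 : ℝ) * (X / L) ≤ ε / 32 * (J * h) := by
      rw [hXr]
      calc (C0 : ℝ) * (J * h / L) = C0 / L * (J * h) := by ring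
        _ ≤ ε / 32 * (J * h) := mul_le_mul_of_nonneg_right l2 hJh.le
    rw [hβ, ← hq]
    exact num3 ε q (J * h) Zx.card S.card A (6 * h + 2 * J + C0 * (X / L)) hε hε1 hq2 hJh c5 c1 (by positivity)
      (by linarith) hq0 a6 a8
  have hex : ∃ T ∈ (ow w).powerset, ∃ c ∈ Cl T, ∃ j ∈ Icc 1 (J - 2), β * ((Pt h T c j).card : ℝ) ^ 2 <
      ((((Pt h T c j) ×ˢ (Pt h T c j)).filter (fun q => q.1 + q.2 ∈ S)).card : ℝ) := by
    by_contra hno
    push Not at hno
    exact absurd hbig (not_lt.2 (G_avg w J h hJ4 S _ β hG hcpos hno))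
  obtain ⟨T, hT, c, hc, j, hj, hlt⟩ := hex
  have hTp := pow_prime hT
  have hPeq : Pt h T c j = PP (j * h) ((j + 2) * h) (∏ p ∈ T, p) c := Pc_eq_PP _ _ T hTp c
  obtain ⟨w1, w2, w3, w4⟩ := hwin j hj
  have hD1 : 1 ≤ ∏ p ∈ T, p := Nat.succ_le_of_lt (prod_pos fun p hp => (hTp p hp).pos)
  have hDW : ∏ p ∈ T, p ≤ W := by
    rw [hW]
    exact Nat.le_of_dvd (by omega) (prod_dvd_prod_of_subset _ _ _ (mem_powerset.1 hT))
  have hc2 := (hcard T hT c hc j hj).2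
  rw [hPeq] at hlt hc2
  obtain ⟨P, hP⟩ : ∃ P : Finset ℕ, P = PP (j * h) ((j + 2) * h) (∏ p ∈ T, p) c := ⟨_, rfl⟩
  refine ⟨∏ p ∈ T, p, c, j * h, (j + 2) * h, hD1, ?_, ?_, ?_, w2, ?_, ?_, ?_⟩
  · calc ∏ p ∈ T, p ≤ W := hDW
      _ ≤ 4 * J * W := Nat.le_mul_of_pos_left W (by omega)
  · unfold Cl at hc
    exact (mem_filter.1 hc).2
  · calc x ≤ 2 * J * (h + 1) := hx2.le
      _ ≤ 2 * J * (2 * h) := Nat.mul_le_mul_left _ (by omega)
      _ = 4 * J * h := by ring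
      _ ≤ 4 * J * W * h := Nat.mul_le_mul_right h (Nat.le_mul_of_pos_right _ (by omega))
      _ ≤ 4 * J * W * (j * h) := Nat.mul_le_mul_left _ w4
  · calc 2 * ((j + 2) * h) ≤ 2 * X := Nat.mul_le_mul_left 2 w3
      _ = 2 * J * h := by rw [hX]; ring
      _ ≤ x := hx1
  · rw [← hP] at hc2 ⊢
    have e1 : L ≤ Real.log x := by
      rw [hL]
      apply Real.log_le_log hX0
      have : X ≤ x := by rw [hX]; calc J * h ≤ 2 * (J * h) := by omega
                          _ = 2 * J * h := by ring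
                          _ ≤ x := hx1
      exact_mod_cast this
    have e2 : (h : ℝ) ≤ W * (P.card * Real.log x) := by
      rw [div_le_iff₀ (by linarith)] at hc2
      have hP0 : (0 : ℝ) ≤ P.card := Nat.cast_nonneg _
      calc (h : ℝ) ≤ P.card * L * W := hc2
        _ = W * (P.card * L) := by ring
        _ ≤ W * (P.card * Real.log x) := by
          apply mul_le_mul_of_nonneg_left _ (by linarith)
          exact mul_le_mul_of_nonneg_left e1 hP0
    have e3 : (x : ℝ) ≤ 4 * J * h := by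
      have : x ≤ 4 * J * h := by
        calc x ≤ 2 * J * (h + 1) := hx2.le
          _ ≤ 2 * J * (2 * h) := Nat.mul_le_mul_left _ (by omega)
          _ = 4 * J * h := by ring
      exact_mod_cast this
    calc (x : ℝ) ≤ 4 * J * h := e3
      _ ≤ 4 * J * (W * (P.card * Real.log x)) := mul_le_mul_of_nonneg_left e2 (by positivity)
      _ = ((4 * J * W : ℕ) : ℝ) * P.card * Real.log x := by push_cast; ring
  · rw [← hP] at hlt hc2 ⊢
    rw [← hZx]
    -- remove the diagonal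
    have e1 : ((P ×ˢ P).filter (fun q => q.1 + q.2 ∈ S)).card ≤
        ((P ×ˢ P).filter (fun q => q.1 ≠ q.2 ∧ q.1 + q.2 ∈ Z)).card + P.card := by
      have e2 : (P ×ˢ P).filter (fun q => q.1 + q.2 ∈ S) ⊆
          (P ×ˢ P).filter (fun q => q.1 ≠ q.2 ∧ q.1 + q.2 ∈ Z) ∪ P.image (fun p => (p, p)) := by
        intro q hq
        rw [mem_filter, mem_product] at hq
        rw [mem_union, mem_filter, mem_product, mem_image]
        by_cases hqq : q.1 = q.2
        · right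
          exact ⟨q.1, hq.1.1, by ext <;> simp [hqq]⟩
        · left
          refine ⟨hq.1, hqq, ?_⟩
          have := hq.2
          rw [hS, mem_filter, hZx, mem_filter] at this
          exact this.1.2.2
      refine (card_le_card e2).trans ((card_union_le _ _).trans ?_)
      exact Nat.add_le_add_left card_image_le _
    have e3 : (((P ×ˢ P).filter (fun q => q.1 + q.2 ∈ S)).card : ℝ) ≤
        ((P ×ˢ P).filter (fun q => q.1 ≠ q.2 ∧ q.1 + q.2 ∈ Z)).card + P.card := by exact_mod_cast e1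
    have e4 : 2 / ε ≤ (P.card : ℝ) := by
      have f1 : 2 * W * J / ε * L ≤ X := by
        refine kS1.trans ?_
        rw [Real.sqrt_le_left hX0.le]
        have : (1 : ℝ) ≤ X := by exact_mod_cast (by omega : 1 ≤ X)
        nlinarith
      rw [hXr] at f1
      have f2 : 2 * W / ε * L ≤ h := by
        have f3 : J * (2 * W / ε * L) ≤ J * (h : ℝ) := by
          calc J * (2 * W / ε * L) = 2 * W * J / ε * L := by ring
            _ ≤ _ := f1
        exact le_of_mul_le_mul_left f3 (by linarith)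
      rw [div_le_iff₀ (by linarith)] at hc2
      have f4 : (2 / ε) * (W * L) ≤ P.card * (W * L) := by
        calc (2 / ε) * (W * L) = 2 * W / ε * L := by ring
          _ ≤ h := f2
          _ ≤ P.card * L * W := hc2
          _ = P.card * (W * L) := by ring
      exact le_of_mul_le_mul_right f4 (by positivity)
    rw [hβ] at hlt
    exact num4 _ ε P.card _ _ hε e4 hlt e3

end Pool.Agent.N730.PT
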