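import Mathlib
import Pool.Agent.N730.PT.Final

set_option autoImplicit false

/-! Consequences of the density transfer: Turan densities and colourings. -/

namespace Pool.Agent.N730.PT
open Finset
open Pool.Agent.H373R2.T7

open Classical in
theorem transfer (ε : ℝ) (hε : 0 < ε) : ∃ M x₀ : ℕ, 1 ≤ M ∧ ∀ x : ℕ, x₀ ≤ x → ∀ Z : Set ℕ, ∃ D c a b : ℕ,
    1 ≤ D ∧ D ≤ M ∧ D.Coprime c ∧ x ≤ M * a ∧ a ≤ b ∧ 2 * b ≤ x ∧
    (x : ℝ) ≤ M * (PP a b D c).card * Real.log x ∧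
    (2 * (((Icc 1 x).filter (fun n => 2 ∣ n ∧ n ∈ Z)).card : ℝ) / x - ε) * ((PP a b D c).card : ℝ) ^ 2 ≤
      ((((PP a b D c) ×ˢ (PP a b D c)).filter (fun q => q.1 ≠ q.2 ∧ q.1 + q.2 ∈ Z)).card : ℝ) := by
  obtain ⟨M, x₀, hM, h⟩ := transfer1 (min ε 1) (lt_min hε one_pos) (min_le_right _ _)
  refine ⟨M, x₀, hM, fun x hx Z => ?_⟩
  obtain ⟨D, c, a, b, h1, h2, h3, h4, h5, h6, h7, h8⟩ := h x hx Z
  refine ⟨D, c, a, b, h1, h2, h3, h4, h5, h6, h7, le_trans ?_ h8⟩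
  apply mul_le_mul_of_nonneg_right _ (sq_nonneg _)
  linarith [min_le_left ε 1]

/-- `x / log x` beats any constant -/
lemma big_card (M K : ℕ) (hM : 1 ≤ M) : ∃ x₀ : ℕ, ∀ x : ℕ, x₀ ≤ x → ∀ N : ℕ, (x : ℝ) ≤ M * N * Real.log x → K ≤ N := by
  obtain ⟨m, hm⟩ := ev_log' 1 (M * K)
  obtain ⟨m', hm'⟩ := ev_L' 1
  refine ⟨max m (max m' 2), fun x hx N hN => ?_⟩
  have h1 := hm x (le_trans (le_max_left _ _) hx)
  have h2 := hm' x (le_trans (le_trans (le_max_left _ _) (le_max_right _ _)) hx)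
  have h3 : 2 ≤ x := le_trans (le_trans (le_max_right _ _) (le_max_right _ _)) hx
  rw [pow_one] at h1
  have hxr : (2 : ℝ) ≤ x := by exact_mod_cast h3
  have h4 : √(x : ℝ) ≤ x := by
    rw [Real.sqrt_le_left (by linarith)]
    nlinarith
  have hMr : (0 : ℝ) < M := by exact_mod_cast hM
  have h5 : (M * Real.log x) * K ≤ (M * Real.log x) * N := by
    calc (M * Real.log x) * (K : ℝ) = M * K * Real.log x := by ring
      _ ≤ x := h1.trans h4
      _ ≤ M * N * Real.log x := hN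
      _ = _ := by ring
  have h6 : (K : ℝ) ≤ N := le_of_mul_le_mul_left h5 (by positivity)
  exact_mod_cast h6

open Classical in
theorem turan {V : Type*} (H : SimpleGraph V) (ε : ℝ) (hε : 0 < ε) :
    ∃ M x₀ : ℕ, ∀ x : ℕ, x₀ ≤ x → ∀ Z : Set ℕ,
      SimpleGraph.turanDensity H + ε ≤ 2 * (((Icc 1 x).filter (fun n => 2 ∣ n ∧ n ∈ Z)).card : ℝ) / x →
      ∃ f : V → ℕ, Function.Injective f ∧ (∀ v, (f v).Prime ∧ x ≤ M * f v ∧ 2 * f v ≤ x) ∧
        ∀ u v, H.Adj u v → f u + f v ∈ Z := by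
  obtain ⟨M, x₀, hM, h⟩ := transfer (ε / 2) (by positivity)
  obtain ⟨x₁, hx₁⟩ := big_card M (SimpleGraph.turanDensityConst H (ε / 2)) hM
  refine ⟨M, max x₀ x₁, fun x hx Z hZ => ?_⟩
  obtain ⟨D, c, a, b, h1, h2, h3, h4, h5, h6, h7, h8⟩ := h x (le_trans (le_max_left _ _) hx) Z
  have h9 := hx₁ x (le_trans (le_max_right _ _) hx) _ h7
  obtain ⟨P, hP⟩ : ∃ P : Finset ℕ, P = PP a b D c := ⟨_, rfl⟩
  rw [← hP] at h7 h8 h9
  let G : SimpleGraph {p // p ∈ P} :=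
    { Adj := fun p q => p.1 ≠ q.1 ∧ p.1 + q.1 ∈ Z
      symm := ⟨fun p q hpq => ⟨hpq.1.symm, by rw [add_comm]; exact hpq.2⟩⟩
      loopless := ⟨fun p hp => hp.1 rfl⟩ }
  have hcardV : Fintype.card {p // p ∈ P} = P.card := Fintype.card_coe P
  have hedge : ((((P) ×ˢ (P)).filter (fun q => q.1 ≠ q.2 ∧ q.1 + q.2 ∈ Z)).card : ℝ) = 2 * (G.edgeFinset.card : ℝ) := by
    have e1 := SimpleGraph.two_mul_card_edgeFinset G
    have e2 : 2 * G.edgeFinset.card = ((P ×ˢ P).filter (fun q => q.1 ≠ q.2 ∧ q.1 + q.2 ∈ Z)).card := by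
      rw [e1]
      apply card_bij (fun q _ => (q.1.1, q.2.1))
      · intro q hq
        rw [mem_filter] at hq
        rw [mem_filter, mem_product]
        exact ⟨⟨q.1.2, q.2.2⟩, hq.2⟩
      · rintro ⟨q1, q2⟩ _ ⟨q3, q4⟩ _ hq
        simp only [Prod.mk.injEq] at hq
        rw [Prod.mk.injEq]
        exact ⟨Subtype.ext hq.1, Subtype.ext hq.2⟩
      · rintro ⟨q1, q2⟩ hq
        rw [mem_filter, mem_product] at hq
        exact ⟨(⟨q1, hq.1.1⟩, ⟨q2, hq.1.2⟩), by rw [mem_filter]; exact ⟨mem_univ _, hq.2⟩, rfl⟩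
    exact_mod_cast e2.symm
  rw [hedge] at h8
  have hπ : 0 ≤ SimpleGraph.turanDensity H := by
    have := SimpleGraph.isGLB_turanDensity H
    apply this.2
    rintro y ⟨n, _, rfl⟩
    positivity
  have hch : ((P.card.choose 2 : ℕ) : ℝ) ≤ (P.card : ℝ) ^ 2 / 2 := by
    rw [Nat.cast_choose_two]
    have : (0 : ℝ) ≤ P.card := Nat.cast_nonneg _
    nlinarith
  have hcont : H.IsContained G := by
    apply SimpleGraph.isContained_of_card_edgeFinset H (half_pos hε)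
    · rw [hcardV]
      exact h9
    · rw [hcardV, ge_iff_le]
      have e3 : (SimpleGraph.turanDensity H + ε / 2) * ((P.card.choose 2 : ℕ) : ℝ) ≤
          (SimpleGraph.turanDensity H + ε / 2) * ((P.card : ℝ) ^ 2 / 2) :=
        mul_le_mul_of_nonneg_left hch (by linarith)
      have e4 : (SimpleGraph.turanDensity H + ε / 2) * (P.card : ℝ) ^ 2 ≤
          (2 * (((Icc 1 x).filter (fun n => 2 ∣ n ∧ n ∈ Z)).card : ℝ) / x - ε / 2) * (P.card : ℝ) ^ 2 :=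
        mul_le_mul_of_nonneg_right (by linarith) (sq_nonneg _)
      linarith
  obtain ⟨φ⟩ := hcont
  refine ⟨fun v => (φ v).1, ?_, ?_, ?_⟩
  · intro u v huv
    exact φ.injective (Subtype.ext huv)
  · intro v
    have e5 : (φ v).1 ∈ PP a b D c := hP ▸ (φ v).2
    unfold PP at e5
    rw [mem_filter, mem_Ioc] at e5
    refine ⟨e5.2.1, ?_, ?_⟩
    · exact h4.trans (Nat.mul_le_mul_left M e5.1.1.le)
    · exact (Nat.mul_le_mul_left 2 e5.1.2).trans h6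
  · intro u v huv
    have e6 : G.Adj (φ u) (φ v) := φ.toHom.map_adj huv
    exact e6.2

/-- number of ordered monochromatic representations -/
def mono {r : ℕ} (χ : ℕ → Fin r) (n : ℕ) : ℕ :=
  ((antidiagonal n).filter (fun q => q.1.Prime ∧ q.2.Prime ∧ q.1 ≠ q.2 ∧ χ q.1 = χ q.2)).card

lemma bichrom_le {r : ℕ} (hr : 1 ≤ r) (χ : ℕ → Fin r) (P : Finset ℕ) :
    (((P ×ˢ P).filter (fun q => χ q.1 ≠ χ q.2)).card : ℝ) ≤ (1 - 1 / r) * (P.card : ℝ) ^ 2 := by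
  classical
  have h1 : ((P ×ˢ P).filter (fun q => χ q.1 = χ q.2)).card + ((P ×ˢ P).filter (fun q => χ q.1 ≠ χ q.2)).card =
      P.card * P.card := by
    rw [← card_product]
    exact card_filter_add_card_filter_not _
  have h2 : ((P ×ˢ P).filter (fun q => χ q.1 = χ q.2)).card = ∑ i : Fin r, ((P.filter (fun p => χ p = i)).card) ^ 2 := by
    have e1 : (P ×ˢ P).filter (fun q => χ q.1 = χ q.2) =
        univ.biUnion (fun i : Fin r => (P.filter (fun p => χ p = i)) ×ˢ (P.filter (fun p => χ p = i))) := by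
      ext q
      simp only [mem_filter, mem_product, mem_biUnion, mem_univ, true_and]
      constructor
      · rintro ⟨⟨h3, h4⟩, h5⟩
        exact ⟨χ q.1, ⟨h3, rfl⟩, h4, h5.symm⟩
      · rintro ⟨i, ⟨h3, h4⟩, h5, h6⟩
        exact ⟨⟨h3, h5⟩, h4.trans h6.symm⟩
    rw [e1, card_biUnion]
    · apply sum_congr rfl
      intro i _
      rw [card_product, sq]
    · intro i _ j _ hij
      rw [Function.onFun, disjoint_left]
      intro q h3 h4
      rw [mem_product, mem_filter, mem_filter] at h3 h4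
      exact hij (h3.1.2.symm.trans h4.1.2)
  have h3 : (P.card : ℝ) = ∑ i : Fin r, ((P.filter (fun p => χ p = i)).card : ℝ) := by
    have := card_eq_sum_card_fiberwise (s := P) (t := univ) (f := χ) (fun _ _ => mem_coe.2 (mem_univ _))
    exact_mod_cast this
  have h4 : (P.card : ℝ) ^ 2 ≤ r * ∑ i : Fin r, ((P.filter (fun p => χ p = i)).card : ℝ) ^ 2 := by
    rw [h3]
    have := sq_sum_le_card_mul_sum_sq (s := (univ : Finset (Fin r))) (f := fun i => ((P.filter (fun p => χ p = i)).card : ℝ))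
    rw [card_univ, Fintype.card_fin] at this
    exact this
  have hr0 : (0 : ℝ) < r := by exact_mod_cast hr
  have h5 : (((P ×ˢ P).filter (fun q => χ q.1 = χ q.2)).card : ℝ) = ∑ i : Fin r, ((P.filter (fun p => χ p = i)).card : ℝ) ^ 2 := by
    rw [h2]; push_cast; rfl
  have h6 : (((P ×ˢ P).filter (fun q => χ q.1 = χ q.2)).card : ℝ) + (((P ×ˢ P).filter (fun q => χ q.1 ≠ χ q.2)).card : ℝ) =
      (P.card : ℝ) * P.card := by exact_mod_cast h1
  have h7 : (P.card : ℝ) ^ 2 / r ≤ ∑ i : Fin r, ((P.filter (fun p => χ p = i)).card : ℝ) ^ 2 := by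
    rw [div_le_iff₀ hr0]; linarith
  have h8 : (1 - 1 / (r : ℝ)) * (P.card : ℝ) ^ 2 = (P.card : ℝ) * P.card - (P.card : ℝ) ^ 2 / r := by ring
  rw [h8]
  linarith

open Classical in
theorem colour (r : ℕ) (hr : 1 ≤ r) (ε : ℝ) (hε : 0 < ε) : ∃ δ : ℝ, 0 < δ ∧ ∃ x₀ : ℕ, ∀ x : ℕ, x₀ ≤ x → ∀ χ : ℕ → Fin r,
    1 / (r : ℝ) - ε ≤ 2 * (((Icc 1 x).filter (fun n => 2 ∣ n ∧ δ * x / Real.log x ^ 2 ≤ mono χ n)).card : ℝ) / x := by
  obtain ⟨M, x₀, hM, h⟩ := transfer (ε / 3) (by positivity)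
  obtain ⟨m', hm'⟩ := ev_L' 1
  have hMr : (0 : ℝ) < M := by exact_mod_cast hM
  refine ⟨ε / (3 * M ^ 2), by positivity, max (max x₀ m') (max (2 * M + 2) (⌈3 / ε⌉₊ + 1)), fun x hx χ => ?_⟩
  obtain ⟨δ, hδ⟩ : ∃ δ : ℝ, δ = ε / (3 * M ^ 2) := ⟨_, rfl⟩
  rw [← hδ]
  have hδ0 : 0 < δ := by rw [hδ]; positivity
  have hx1 : x₀ ≤ x := le_trans (le_trans (le_max_left _ _) (le_max_left _ _)) hx
  have hL := hm' x (le_trans (le_trans (le_max_right _ _) (le_max_left _ _)) hx)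
  have hx2 : 2 * M + 2 ≤ x := le_trans (le_trans (le_max_left _ _) (le_max_right _ _)) hx
  have hx3 : ⌈3 / ε⌉₊ + 1 ≤ x := le_trans (le_trans (le_max_right _ _) (le_max_right _ _)) hx
  obtain ⟨Z, hZ⟩ : ∃ Z : Set ℕ, Z = {n | ¬ (δ * x / Real.log x ^ 2 ≤ mono χ n)} := ⟨_, rfl⟩
  obtain ⟨D, c, a, b, h1, h2, h3, h4, h5, h6, h7, h8⟩ := h x hx1 Z
  obtain ⟨P, hP⟩ : ∃ P : Finset ℕ, P = PP a b D c := ⟨_, rfl⟩
  rw [← hP] at h7 h8
  have hxr : (0 : ℝ) < x := by exact_mod_cast (by omega : 0 < x)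
  have hL0 : 0 < Real.log x := by linarith
  have hP0 : 0 < P.card := by
    by_contra hz
    have : P.card = 0 := by omega
    rw [this] at h7
    simp at h7
    linarith
  have hPr : (0 : ℝ) < P.card := by exact_mod_cast hP0
  have hPp : ∀ p ∈ P, p.Prime ∧ a < p ∧ p ≤ b := by
    intro p hp
    rw [hP] at hp
    unfold PP at hp
    rw [mem_filter, mem_Ioc] at hp
    exact ⟨hp.2.1, hp.1.1, hp.1.2⟩
  have ha2 : 2 ≤ a := by
    by_contra hlt
    have : M * a ≤ M * 1 := Nat.mul_le_mul_left M (by omega)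
    omega
  -- split the pairs
  have e1 : ((P ×ˢ P).filter (fun q => q.1 ≠ q.2 ∧ q.1 + q.2 ∈ Z)).card ≤
      ((P ×ˢ P).filter (fun q => χ q.1 ≠ χ q.2)).card +
      ∑ n ∈ (Icc 1 x).filter (fun n => n ∈ Z), mono χ n := by
    have e2 : (P ×ˢ P).filter (fun q => q.1 ≠ q.2 ∧ q.1 + q.2 ∈ Z) ⊆
        (P ×ˢ P).filter (fun q => χ q.1 ≠ χ q.2) ∪
        ((Icc 1 x).filter (fun n => n ∈ Z)).biUnion (fun n => (antidiagonal n).filter
          (fun q => q.1.Prime ∧ q.2.Prime ∧ q.1 ≠ q.2 ∧ χ q.1 = χ q.2)) := by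
      intro q hq
      rw [mem_filter, mem_product] at hq
      rw [mem_union, mem_filter, mem_product, mem_biUnion]
      by_cases hc : χ q.1 = χ q.2
      · right
        have p1 := hPp q.1 hq.1.1
        have p2 := hPp q.2 hq.1.2
        refine ⟨q.1 + q.2, ?_, ?_⟩
        · rw [mem_filter, mem_Icc]
          exact ⟨⟨by omega, by omega⟩, hq.2.2⟩
        · rw [mem_filter, HasAntidiagonal.mem_antidiagonal]
          exact ⟨rfl, p1.1, p2.1, hq.2.1, hc⟩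
      · left
        exact ⟨hq.1, hc⟩
    refine (card_le_card e2).trans ((card_union_le _ _).trans ?_)
    apply Nat.add_le_add_left
    exact card_biUnion_le
  have e3 : ∑ n ∈ (Icc 1 x).filter (fun n => n ∈ Z), (mono χ n : ℝ) ≤ ε / 3 * (P.card : ℝ) ^ 2 := by
    have e4 : ∀ n ∈ (Icc 1 x).filter (fun n => n ∈ Z), (mono χ n : ℝ) ≤ δ * x / Real.log x ^ 2 := by
      intro n hn
      rw [mem_filter, hZ] at hn
      exact (not_le.1 hn.2).le
    refine (sum_le_sum e4).trans ?_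
    rw [sum_const, nsmul_eq_mul]
    have e5 : ((((Icc 1 x).filter (fun n => n ∈ Z)).card : ℕ) : ℝ) ≤ x := by
      have : ((Icc 1 x).filter (fun n => n ∈ Z)).card ≤ (Icc 1 x).card := card_le_card (filter_subset _ _)
      rw [Nat.card_Icc, Nat.add_sub_cancel] at this
      exact_mod_cast this
    have e6 : ((((Icc 1 x).filter (fun n => n ∈ Z)).card : ℕ) : ℝ) * (δ * x / Real.log x ^ 2) ≤ x * (δ * x / Real.log x ^ 2) :=
      mul_le_mul_of_nonneg_right e5 (by positivity)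
    refine e6.trans ?_
    have e7 : (x : ℝ) ^ 2 ≤ (M * P.card * Real.log x) ^ 2 := pow_le_pow_left₀ hxr.le h7 2
    have e8 : (x : ℝ) * (δ * x / Real.log x ^ 2) = δ / Real.log x ^ 2 * (x : ℝ) ^ 2 := by ring
    rw [e8]
    calc δ / Real.log x ^ 2 * (x : ℝ) ^ 2 ≤ δ / Real.log x ^ 2 * (M * P.card * Real.log x) ^ 2 :=
          mul_le_mul_of_nonneg_left e7 (by positivity)
      _ = ε / 3 * (P.card : ℝ) ^ 2 := by
          rw [hδ]
          field_simp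
  have e9 : ((((P) ×ˢ (P)).filter (fun q => q.1 ≠ q.2 ∧ q.1 + q.2 ∈ Z)).card : ℝ) ≤
      (((P ×ˢ P).filter (fun q => χ q.1 ≠ χ q.2)).card : ℝ) + ∑ n ∈ (Icc 1 x).filter (fun n => n ∈ Z), (mono χ n : ℝ) := by
    exact_mod_cast e1
  have e10 := bichrom_le hr χ P
  have e11 : (2 * (((Icc 1 x).filter (fun n => 2 ∣ n ∧ n ∈ Z)).card : ℝ) / x - ε / 3) * (P.card : ℝ) ^ 2 ≤
      ((1 - 1 / (r : ℝ)) + ε / 3) * (P.card : ℝ) ^ 2 := by linarith
  have e12 : 2 * (((Icc 1 x).filter (fun n => 2 ∣ n ∧ n ∈ Z)).card : ℝ) / x - ε / 3 ≤ (1 - 1 / (r : ℝ)) + ε / 3 :=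
    le_of_mul_le_mul_right e11 (by positivity)
  -- count the even numbers
  have e13 : ((Icc 1 x).filter (fun n => 2 ∣ n)).card = x / 2 := by
    have := Nat.Ioc_filter_dvd_card_eq_div x 2
    rw [← this]
    congr 1
  have e14 : ((Icc 1 x).filter (fun n => 2 ∣ n ∧ n ∈ Z)).card +
      ((Icc 1 x).filter (fun n => 2 ∣ n ∧ δ * x / Real.log x ^ 2 ≤ mono χ n)).card = x / 2 := by
    have h14 : (Icc 1 x).filter (fun n => 2 ∣ n ∧ n ∈ Z) =
        ((Icc 1 x).filter (fun n => 2 ∣ n)).filter (fun n => ¬ (δ * x / Real.log x ^ 2 ≤ (mono χ n : ℝ))) := by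
      rw [filter_filter]
      apply filter_congr
      intro n _
      rw [hZ]
      rfl
    have h15 : (Icc 1 x).filter (fun n => 2 ∣ n ∧ δ * x / Real.log x ^ 2 ≤ (mono χ n : ℝ)) =
        ((Icc 1 x).filter (fun n => 2 ∣ n)).filter (fun n => δ * x / Real.log x ^ 2 ≤ (mono χ n : ℝ)) := by
      rw [filter_filter]
    rw [← e13, h14, h15, add_comm]
    exact card_filter_add_card_filter_not (s := (Icc 1 x).filter (fun n => 2 ∣ n)) (fun n => δ * x / Real.log x ^ 2 ≤ (mono χ n : ℝ))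
  have e15 : ((x / 2 : ℕ) : ℝ) ≥ (x : ℝ) / 2 - 1 / 2 := by
    have : x ≤ 2 * (x / 2) + 1 := by omega
    have h' : (x : ℝ) ≤ 2 * ((x / 2 : ℕ) : ℝ) + 1 := by exact_mod_cast this
    linarith
  have e16 : (((Icc 1 x).filter (fun n => 2 ∣ n ∧ n ∈ Z)).card : ℝ) +
      (((Icc 1 x).filter (fun n => 2 ∣ n ∧ δ * x / Real.log x ^ 2 ≤ mono χ n)).card : ℝ) = ((x / 2 : ℕ) : ℝ) := by
    exact_mod_cast e14
  have e17 : 3 / ε ≤ x := by
    have h1 := Nat.le_ceil (3 / ε)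
    have h2 : ((⌈3 / ε⌉₊ : ℕ) : ℝ) ≤ x := by exact_mod_cast (by omega : ⌈3 / ε⌉₊ ≤ x)
    linarith
  rw [div_le_iff₀ hε] at e17
  rw [le_div_iff₀ hxr]
  have e18 : 2 * (((Icc 1 x).filter (fun n => 2 ∣ n ∧ n ∈ Z)).card : ℝ) ≤ ((1 - 1 / (r : ℝ)) + 2 * ε / 3) * x := by
    have : 2 * (((Icc 1 x).filter (fun n => 2 ∣ n ∧ n ∈ Z)).card : ℝ) / x ≤ (1 - 1 / (r : ℝ)) + 2 * ε / 3 := by linarith
    rwa [div_le_iff₀ hxr] at this
  nlinarith

end Pool.Agent.N730.PT
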