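import Mathlib

set_option autoImplicit false

/-! Supersaturation for subgraphs. -/

namespace Pool.Agent.N730.PT
open Finset

open Classical in
/-- the maps with given values at some points -/
noncomputable def ex {V A : Type*} [Fintype A] (n : ℕ) (ψ : V → Fin n) (f : V → A) : Finset (Fin n → A) :=
  (univ : Finset (Fin n → A)).filter (fun φ => ∀ v, φ (ψ v) = f v)

lemma mem_ex {V A : Type*} [Fintype A] (n : ℕ) (ψ : V → Fin n) (f : V → A) (φ : Fin n → A) :
    φ ∈ ex n ψ f ↔ ∀ v, φ (ψ v) = f v := by
  classical
  unfold ex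
  rw [mem_filter]
  simp

lemma ext_count {V A : Type*} [Fintype V] [Fintype A] (n : ℕ) (ψ : V → Fin n)
    (hψ : Function.Injective ψ) (f : V → A) :
    (ex n ψ f).card = Fintype.card A ^ (n - Fintype.card V) := by
  classical
  have h1 : ex n ψ f =
      Fintype.piFinset (fun k : Fin n => if h : ∃ v, ψ v = k then {f h.choose} else univ) := by
    ext φ
    rw [mem_ex, Fintype.mem_piFinset]
    constructor
    · intro h k
      split_ifs with hk
      · rw [mem_singleton, ← h hk.choose, hk.choose_spec]
      · exact mem_univ _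
    · intro h v
      have h2 := h (ψ v)
      have hex : ∃ u, ψ u = ψ v := ⟨v, rfl⟩
      rw [dif_pos hex, mem_singleton] at h2
      rw [h2, hψ hex.choose_spec]
  rw [h1, Fintype.card_piFinset]
  have h2 : ∀ k : Fin n, (if h : ∃ v, ψ v = k then ({f h.choose} : Finset A) else univ).card =
      if k ∈ univ.image ψ then 1 else Fintype.card A := by
    intro k
    by_cases hk : ∃ v, ψ v = k
    · rw [dif_pos hk, card_singleton, if_pos]
      rw [mem_image]
      obtain ⟨v, hv⟩ := hk
      exact ⟨v, mem_univ _, hv⟩
    · rw [dif_neg hk, if_neg, card_univ]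
      rw [mem_image]
      rintro ⟨v, _, hv⟩
      exact hk ⟨v, hv⟩
  rw [prod_congr rfl (fun k _ => h2 k), prod_ite, prod_const_one, one_mul, prod_const]
  congr 1
  have h3 : (univ : Finset (Fin n)).filter (fun k => k ∉ univ.image ψ) = (univ.image ψ)ᶜ := by
    ext k
    rw [mem_filter, mem_compl]
    simp
  rw [h3, card_compl, Fintype.card_fin, card_image_of_injective _ hψ, card_univ]

lemma noninj_count {V A : Type*} [Fintype V] [Fintype A] [DecidableEq A] [DecidableEq V] :
    ((univ : Finset (V → A)).filter (fun f => ¬ Function.Injective f)).card ≤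
      Fintype.card V ^ 2 * Fintype.card A ^ (Fintype.card V - 1) := by
  classical
  have h1 : (univ : Finset (V → A)).filter (fun f => ¬ Function.Injective f) ⊆
      ((univ : Finset (V × V)).filter (fun q => q.1 ≠ q.2)).biUnion (fun q => univ.filter (fun f : V → A => f q.1 = f q.2)) := by
    intro f hf
    rw [mem_filter] at hf
    have h2 := hf.2
    unfold Function.Injective at h2
    push Not at h2
    obtain ⟨a, b, h3, h4⟩ := h2
    rw [mem_biUnion]
    exact ⟨(a, b), by rw [mem_filter]; exact ⟨mem_univ _, h4⟩, by rw [mem_filter]; exact ⟨mem_univ _, h3⟩⟩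
  refine (card_le_card h1).trans (card_biUnion_le.trans ?_)
  have h2 : ∀ q ∈ (univ : Finset (V × V)).filter (fun q => q.1 ≠ q.2),
      (univ.filter (fun f : V → A => f q.1 = f q.2)).card ≤ Fintype.card A ^ (Fintype.card V - 1) := by
    intro q hq
    rw [mem_filter] at hq
    have h3 : Fintype.card A ^ (Fintype.card V - 1) = (univ : Finset ({v : V // v ≠ q.2} → A)).card := by
      rw [card_univ, Fintype.card_fun]
      congr 1
      rw [Fintype.card_subtype_compl, Fintype.card_subtype_eq]
    rw [h3]
    apply card_le_card_of_injOn (fun f => fun v => f v.1) (fun _ _ => mem_coe.2 (mem_univ _))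
    intro f hf g hg hfg
    simp only [coe_filter, mem_univ, true_and, Set.mem_ofPred_eq] at hf hg
    funext v
    by_cases hv : v = q.2
    · have h4 := congrFun hfg ⟨q.1, hq.2⟩
      simp only at h4
      rw [hv, ← hf, ← hg, h4]
    · exact congrFun hfg ⟨v, hv⟩
  refine (sum_le_sum h2).trans ?_
  rw [sum_const, smul_eq_mul]
  apply Nat.mul_le_mul_right
  refine (card_le_card (filter_subset _ _)).trans ?_
  rw [card_univ, Fintype.card_prod, sq]

open Classical in
/-- number of homomorphisms -/
noncomputable def homs {V A : Type*} [Fintype V] [Fintype A] (H : SimpleGraph V) (G : SimpleGraph A) : Finset (V → A) :=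
  (univ : Finset (V → A)).filter (fun f => ∀ u v, H.Adj u v → G.Adj (f u) (f v))

lemma mem_homs {V A : Type*} [Fintype V] [Fintype A] (H : SimpleGraph V) (G : SimpleGraph A) (f : V → A) :
    f ∈ homs H G ↔ ∀ u v, H.Adj u v → G.Adj (f u) (f v) := by
  classical
  unfold homs
  rw [mem_filter]
  simp

open Classical in
theorem supersat {V : Type*} [Fintype V] (H : SimpleGraph V) (ε : ℝ) (hε : 0 < ε) : ∃ n : ℕ, 2 ≤ n ∧ Fintype.card V ≤ n ∧
    ∀ (A : Type) [Fintype A] (G : SimpleGraph A), 1 ≤ Fintype.card A →
    (SimpleGraph.turanDensity H + ε) * (Fintype.card A : ℝ) ^ 2 ≤ ((univ : Finset (A × A)).filter (fun q => G.Adj q.1 q.2)).card →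
    ε / 2 * (Fintype.card A : ℝ) ^ Fintype.card V ≤ (n : ℝ) ^ Fintype.card V * (homs H G).card := by
  obtain ⟨n, hn⟩ : ∃ n : ℕ, n = SimpleGraph.turanDensityConst H (ε / 2) + Fintype.card V + 2 := ⟨_, rfl⟩
  refine ⟨n, by omega, by omega, fun A _ G hA he => ?_⟩
  obtain ⟨N, hN⟩ : ∃ N : ℕ, N = Fintype.card A := ⟨_, rfl⟩
  rw [← hN] at hA he ⊢
  obtain ⟨e, hee⟩ : ∃ e : ℕ, e = ((univ : Finset (A × A)).filter (fun q => G.Adj q.1 q.2)).card := ⟨_, rfl⟩
  rw [← hee] at he
  have hπ : 0 ≤ SimpleGraph.turanDensity H := by
    have := SimpleGraph.isGLB_turanDensity H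
    apply this.2
    rintro y ⟨n, _, rfl⟩
    positivity
  obtain ⟨E, hE⟩ : ∃ E : (Fin n → A) → ℕ, E = fun φ => ((univ : Finset (Fin n × Fin n)).filter (fun q => G.Adj (φ q.1) (φ q.2))).card := ⟨_, rfl⟩
  -- the sum of E
  have hsum : ∑ φ : Fin n → A, E φ = (n * (n - 1)) * (e * N ^ (n - 2)) := by
    have h1 : ∑ φ : Fin n → A, E φ = ∑ q : Fin n × Fin n, ((univ : Finset (Fin n → A)).filter (fun φ => G.Adj (φ q.1) (φ q.2))).card := by
      rw [hE]
      simp only [card_filter]
      rw [sum_comm]
    rw [h1]
    have h2 : ∀ q : Fin n × Fin n, ((univ : Finset (Fin n → A)).filter (fun φ => G.Adj (φ q.1) (φ q.2))).card =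
        if q.1 ≠ q.2 then e * N ^ (n - 2) else 0 := by
      intro q
      split_ifs with hq
      · have h3 : (univ : Finset (Fin n → A)).filter (fun φ => G.Adj (φ q.1) (φ q.2)) =
            ((univ : Finset (A × A)).filter (fun q => G.Adj q.1 q.2)).biUnion (fun r =>
              ex n (fun b : Bool => if b then q.1 else q.2) (fun b : Bool => if b then r.1 else r.2)) := by
          ext φ
          simp only [mem_filter, mem_univ, true_and, mem_biUnion, mem_ex]
          constructor
          · intro h
            refine ⟨(φ q.1, φ q.2), h, ?_⟩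
            intro b
            cases b <;> rfl
          · rintro ⟨r, h4, h5⟩
            have h6 := h5 true
            have h7 := h5 false
            simp only [if_true, Bool.false_eq_true, if_false] at h6 h7
            rw [h6, h7]
            exact h4
        rw [h3, card_biUnion]
        · have h4 : ∀ r ∈ (univ : Finset (A × A)).filter (fun q => G.Adj q.1 q.2),
              (ex n (fun b : Bool => if b then q.1 else q.2) (fun b : Bool => if b then r.1 else r.2)).card = N ^ (n - 2) := by
            intro r _
            have h5 := ext_count n (fun b : Bool => if b then q.1 else q.2) (by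
              intro b b' hb
              cases b <;> cases b'
              · rfl
              · exact absurd hb.symm hq
              · exact absurd hb hq
              · rfl) (fun b : Bool => if b then r.1 else r.2)
            rw [Fintype.card_bool, ← hN] at h5
            exact h5
          rw [sum_congr rfl h4, sum_const, smul_eq_mul, hee]
        · intro r _ r' _ hrr
          rw [Function.onFun, disjoint_left]
          intro φ h4 h5
          rw [mem_ex] at h4 h5
          apply hrr
          have a1 := h4 true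
          have a2 := h4 false
          have a3 := h5 true
          have a4 := h5 false
          simp only [if_true, Bool.false_eq_true, if_false] at a1 a2 a3 a4
          ext
          · rw [← a1, ← a3]
          · rw [← a2, ← a4]
      · rw [card_eq_zero, filter_eq_empty_iff]
        intro φ _ h4
        rw [not_not] at hq
        rw [hq] at h4
        exact h4.ne rfl
    rw [sum_congr rfl (fun q _ => h2 q), ← sum_filter, sum_const, smul_eq_mul]
    congr 1
    have h5 : (univ : Finset (Fin n × Fin n)).filter (fun q => q.1 ≠ q.2) = (univ : Finset (Fin n)).offDiag := by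
      ext q
      rw [mem_filter, mem_offDiag]
      simp
    rw [h5, offDiag_card, card_univ, Fintype.card_fin, Nat.mul_sub_one]
  have hEle : ∀ φ, E φ ≤ n * (n - 1) := by
    intro φ
    rw [hE]
    simp only
    have h5 : (univ : Finset (Fin n × Fin n)).filter (fun q => G.Adj (φ q.1) (φ q.2)) ⊆ (univ : Finset (Fin n)).offDiag := by
      intro q hq
      rw [mem_filter] at hq
      rw [mem_offDiag]
      refine ⟨mem_univ _, mem_univ _, ?_⟩
      intro h
      rw [h] at hq
      exact hq.2.ne rfl
    refine (card_le_card h5).trans ?_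
    rw [offDiag_card, card_univ, Fintype.card_fin, Nat.mul_sub_one]
  obtain ⟨Q, hQ⟩ : ∃ Q : ℝ, Q = (n : ℝ) * ((n : ℝ) - 1) := ⟨_, rfl⟩
  have hn2 : (2 : ℝ) ≤ n := by exact_mod_cast (by omega : 2 ≤ n)
  have hQ0 : 0 < Q := by rw [hQ]; nlinarith
  have hQn : ((n * (n - 1) : ℕ) : ℝ) = Q := by
    rw [hQ, Nat.cast_mul, Nat.cast_sub (by omega)]; norm_num
  obtain ⟨good, hgood⟩ : ∃ good : Finset (Fin n → A), good = univ.filter (fun φ => (SimpleGraph.turanDensity H + ε / 2) * Q ≤ E φ) := ⟨_, rfl⟩
  have hN0 : (0 : ℝ) < N := by exact_mod_cast hA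
  have hg1 : ε / 2 * (N : ℝ) ^ n ≤ good.card := by
    have h1 : ∑ φ : Fin n → A, (E φ : ℝ) ≤ good.card * Q + (N : ℝ) ^ n * ((SimpleGraph.turanDensity H + ε / 2) * Q) := by
      rw [← sum_filter_add_sum_filter_not univ (fun φ => (SimpleGraph.turanDensity H + ε / 2) * Q ≤ (E φ : ℝ)), ← hgood]
      apply add_le_add
      · rw [← nsmul_eq_mul]
        apply sum_le_card_nsmul
        intro φ _
        rw [← hQn]
        exact_mod_cast hEle φ
      · have h2 : ∀ φ ∈ univ.filter (fun φ => ¬ (SimpleGraph.turanDensity H + ε / 2) * Q ≤ (E φ : ℝ)),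
            (E φ : ℝ) ≤ (SimpleGraph.turanDensity H + ε / 2) * Q := by
          intro φ hφ
          rw [mem_filter] at hφ
          exact (not_le.1 hφ.2).le
        refine (sum_le_card_nsmul _ _ _ h2).trans ?_
        rw [nsmul_eq_mul]
        apply mul_le_mul_of_nonneg_right _ (by positivity)
        have h3 : (univ.filter (fun φ => ¬ (SimpleGraph.turanDensity H + ε / 2) * Q ≤ (E φ : ℝ))).card ≤ (univ : Finset (Fin n → A)).card :=
          card_le_card (filter_subset _ _)
        rw [card_univ, Fintype.card_fun, Fintype.card_fin, ← hN] at h3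
        exact_mod_cast h3
    have h2 : ∑ φ : Fin n → A, (E φ : ℝ) = Q * (e * (N : ℝ) ^ (n - 2)) := by
      rw [← hQn]
      exact_mod_cast hsum
    rw [h2] at h1
    have h3 : (SimpleGraph.turanDensity H + ε) * (N : ℝ) ^ n ≤ e * (N : ℝ) ^ (n - 2) := by
      have h4 : (N : ℝ) ^ n = (N : ℝ) ^ 2 * (N : ℝ) ^ (n - 2) := by
        rw [← pow_add]
        congr 1
        omega
      rw [h4, ← mul_assoc]
      exact mul_le_mul_of_nonneg_right he (by positivity)
    have h5 : Q * ((SimpleGraph.turanDensity H + ε) * (N : ℝ) ^ n) ≤ Q * (e * (N : ℝ) ^ (n - 2)) :=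
      mul_le_mul_of_nonneg_left h3 hQ0.le
    have h6 : Q * (ε / 2 * (N : ℝ) ^ n) ≤ Q * good.card := by
      have : Q * (ε / 2 * (N : ℝ) ^ n) = Q * ((SimpleGraph.turanDensity H + ε) * (N : ℝ) ^ n) -
          (N : ℝ) ^ n * ((SimpleGraph.turanDensity H + ε / 2) * Q) := by ring
      rw [this]
      linarith
    exact le_of_mul_le_mul_left h6 hQ0
  -- every good map contains a copy
  have hg2 : good ⊆ ((univ : Finset (V → Fin n)).filter (fun ψ => Function.Injective ψ)).biUnion (fun ψ =>
      (homs H G).biUnion (fun f => ex n ψ f)) := by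
    intro φ hφ
    rw [hgood, mem_filter] at hφ
    have hcont : H.IsContained (G.comap φ) := by
      apply SimpleGraph.isContained_of_card_edgeFinset H (half_pos hε)
      · rw [Fintype.card_fin]
        omega
      · rw [Fintype.card_fin, ge_iff_le]
        have h1 := SimpleGraph.two_mul_card_edgeFinset (G.comap φ)
        have h2 : (univ.filter fun (x, y) => (G.comap φ).Adj x y).card = E φ := by
          rw [hE]
          rfl
        have h3 : 2 * ((G.comap φ).edgeFinset.card : ℝ) = E φ := by
          rw [← h2]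
          exact_mod_cast h1
        have h4 := hφ.2
        rw [Nat.cast_choose_two]
        rw [hQ] at h4
        linarith
    obtain ⟨ψ⟩ := hcont
    rw [mem_biUnion]
    refine ⟨fun v => ψ v, ?_, ?_⟩
    · rw [mem_filter]
      exact ⟨mem_univ _, ψ.injective⟩
    · rw [mem_biUnion]
      refine ⟨fun v => φ (ψ v), ?_, ?_⟩
      · unfold homs
        rw [mem_filter]
        refine ⟨mem_univ _, fun u v huv => ?_⟩
        have : (G.comap φ).Adj (ψ u) (ψ v) := ψ.toHom.map_adj huv
        exact this
      · rw [mem_ex]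
        exact fun v => rfl
  have hg3 : good.card ≤ n ^ Fintype.card V * ((homs H G).card * N ^ (n - Fintype.card V)) := by
    refine (card_le_card hg2).trans (card_biUnion_le.trans ?_)
    have h1 : ∀ ψ ∈ (univ : Finset (V → Fin n)).filter (fun ψ => Function.Injective ψ),
        ((homs H G).biUnion (fun f => ex n ψ f)).card ≤
        (homs H G).card * N ^ (n - Fintype.card V) := by
      intro ψ hψ
      rw [mem_filter] at hψ
      refine card_biUnion_le.trans ?_
      rw [← smul_eq_mul]
      apply sum_le_card_nsmul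
      intro f _
      rw [ext_count n ψ hψ.2 f, hN]
    refine (sum_le_sum h1).trans ?_
    rw [sum_const, smul_eq_mul]
    apply Nat.mul_le_mul_right
    refine (card_le_card (filter_subset _ _)).trans ?_
    rw [card_univ, Fintype.card_fun, Fintype.card_fin]
  have hg4 : (good.card : ℝ) ≤ (n : ℝ) ^ Fintype.card V * ((homs H G).card * (N : ℝ) ^ (n - Fintype.card V)) := by
    exact_mod_cast hg3
  have h7 : (N : ℝ) ^ n = (N : ℝ) ^ Fintype.card V * (N : ℝ) ^ (n - Fintype.card V) := by
    rw [← pow_add]
    congr 1
    omega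
  rw [h7] at hg1
  have h8 : (0 : ℝ) < (N : ℝ) ^ (n - Fintype.card V) := by positivity
  have h9 : (ε / 2 * (N : ℝ) ^ Fintype.card V) * (N : ℝ) ^ (n - Fintype.card V) ≤
      ((n : ℝ) ^ Fintype.card V * (homs H G).card) * (N : ℝ) ^ (n - Fintype.card V) := by
    calc (ε / 2 * (N : ℝ) ^ Fintype.card V) * (N : ℝ) ^ (n - Fintype.card V) =
        ε / 2 * ((N : ℝ) ^ Fintype.card V * (N : ℝ) ^ (n - Fintype.card V)) := by ring
      _ ≤ _ := hg1.trans hg4
      _ = _ := by ring
  exact le_of_mul_le_mul_right h9 h8

end Pool.Agent.N730.PT
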