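import Mathlib
import Pool.Agent.N730.PT.Cor
import Pool.Agent.N730.PT.Sat

set_option autoImplicit false

/-! The Turan theorem for sums of two primes, with the number of solutions. -/

namespace Pool.Agent.N730.PT
open Finset
open Pool.Agent.H373R2.T7

open Classical in
theorem turan_count {V : Type*} [Fintype V] (H : SimpleGraph V) (ε : ℝ) (hε : 0 < ε) :
    ∃ δ : ℝ, 0 < δ ∧ ∃ x₀ : ℕ, ∀ x : ℕ, x₀ ≤ x → ∀ Z : Set ℕ,
      SimpleGraph.turanDensity H + ε ≤ 2 * (((Icc 1 x).filter (fun n => 2 ∣ n ∧ n ∈ Z)).card : ℝ) / x →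
      δ * ((x : ℝ) / Real.log x) ^ Fintype.card V ≤
        ({f : V → ℕ | Function.Injective f ∧ (∀ v, (f v).Prime ∧ f v ≤ x) ∧
          ∀ u v, H.Adj u v → f u + f v ∈ Z}.ncard : ℝ) := by
  obtain ⟨M, x₀, hM, h⟩ := transfer (ε / 2) (by positivity)
  obtain ⟨n, hn2, hnV, hsat⟩ := supersat H (ε / 2) (by positivity)
  obtain ⟨k, hk⟩ : ∃ k : ℕ, k = Fintype.card V := ⟨_, rfl⟩
  rw [← hk] at hsat ⊢
  obtain ⟨K, hK⟩ : ∃ K : ℕ, K = ⌈8 * (n : ℝ) ^ k * (k : ℝ) ^ 2 / ε⌉₊ + 1 := ⟨_, rfl⟩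
  obtain ⟨x₁, hx₁⟩ := big_card M K hM
  obtain ⟨m', hm'⟩ := ev_L' 1
  have hMr : (0 : ℝ) < M := by exact_mod_cast hM
  have hnr : (0 : ℝ) < n := by exact_mod_cast (by omega : 0 < n)
  refine ⟨ε / (8 * (n : ℝ) ^ k * (M : ℝ) ^ k), by positivity, max (max x₀ m') x₁, fun x hx Z hZ => ?_⟩
  obtain ⟨D, c, a, b, h1, h2, h3, h4, h5, h6, h7, h8⟩ := h x (le_trans (le_trans (le_max_left _ _) (le_max_left _ _)) hx) Z
  have h9 := hx₁ x (le_trans (le_max_right _ _) hx) _ h7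
  have hL := hm' x (le_trans (le_trans (le_max_right _ _) (le_max_left _ _)) hx)
  have hL0 : 0 < Real.log x := by linarith
  obtain ⟨P, hP⟩ : ∃ P : Finset ℕ, P = PP a b D c := ⟨_, rfl⟩
  rw [← hP] at h7 h8 h9
  obtain ⟨N, hN⟩ : ∃ N : ℕ, N = P.card := ⟨_, rfl⟩
  rw [← hN] at h7 h8 h9
  let G : SimpleGraph {p // p ∈ P} :=
    { Adj := fun p q => p.1 ≠ q.1 ∧ p.1 + q.1 ∈ Z
      symm := ⟨fun p q hpq => ⟨hpq.1.symm, by rw [add_comm]; exact hpq.2⟩⟩
      loopless := ⟨fun p hp => hp.1 rfl⟩ }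
  have hcardV : Fintype.card {p // p ∈ P} = N := by rw [hN]; exact Fintype.card_coe P
  have hNpos : 1 ≤ N := by omega
  have hN0 : (0 : ℝ) < N := by exact_mod_cast hNpos
  have hedge : ((univ : Finset ({p // p ∈ P} × {p // p ∈ P})).filter (fun q => G.Adj q.1 q.2)).card =
      ((P ×ˢ P).filter (fun q => q.1 ≠ q.2 ∧ q.1 + q.2 ∈ Z)).card := by
    apply card_bij (fun q _ => (q.1.1, q.2.1))
    · intro q hq
      rw [mem_filter] at hq
      rw [mem_filter, mem_product]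
      exact ⟨⟨q.1.2, q.2.2⟩, hq.2⟩
    · rintro ⟨q1, q2⟩ _ ⟨q3, q4⟩ _ hq
      simp only [Prod.mk.injEq] at hq
      rw [Prod.mk.injEq]
      exact ⟨Subtype.ext hq.1, Subtype.ext hq.2⟩
    · rintro ⟨q1, q2⟩ hq
      rw [mem_filter, mem_product] at hq
      exact ⟨(⟨q1, hq.1.1⟩, ⟨q2, hq.1.2⟩), by rw [mem_filter]; exact ⟨mem_univ _, hq.2⟩, rfl⟩
  have hdens : (SimpleGraph.turanDensity H + ε / 2) * (N : ℝ) ^ 2 ≤
      ((univ : Finset ({p // p ∈ P} × {p // p ∈ P})).filter (fun q => G.Adj q.1 q.2)).card := by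
    rw [hedge]
    refine le_trans ?_ h8
    exact mul_le_mul_of_nonneg_right (by linarith) (sq_nonneg _)
  have hs := hsat {p // p ∈ P} G (by rw [hcardV]; exact hNpos) (by rw [hcardV]; convert hdens)
  rw [hcardV] at hs
  -- injective homomorphisms
  obtain ⟨IH, hIH⟩ : ∃ IH : Finset (V → {p // p ∈ P}), IH = (homs H G).filter (fun f => Function.Injective f) := ⟨_, rfl⟩
  have hc1 : (homs H G).card ≤ IH.card + k ^ 2 * N ^ (k - 1) := by
    have e1 := card_filter_add_card_filter_not (s := homs H G) (fun f => Function.Injective f)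
    rw [← hIH] at e1
    have e2 : ((homs H G).filter (fun f => ¬ Function.Injective f)).card ≤ k ^ 2 * N ^ (k - 1) := by
      have e3 := noninj_count (V := V) (A := {p // p ∈ P})
      rw [hcardV, ← hk] at e3
      refine le_trans (card_le_card ?_) e3
      intro f hf
      rw [mem_filter] at hf ⊢
      exact ⟨mem_univ _, hf.2⟩
    omega
  have hc2 : ((homs H G).card : ℝ) ≤ IH.card + (k : ℝ) ^ 2 * (N : ℝ) ^ (k - 1) := by exact_mod_cast hc1
  have hc3 : (n : ℝ) ^ k * ((k : ℝ) ^ 2 * (N : ℝ) ^ (k - 1)) ≤ ε / 8 * (N : ℝ) ^ k := by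
    rcases Nat.eq_zero_or_pos k with hk0 | hk0
    · rw [hk0]
      simp
      positivity
    · have e1 : (N : ℝ) ^ k = N * (N : ℝ) ^ (k - 1) := by
        rw [← pow_succ']
        congr 1
        omega
      have e2 : 8 * (n : ℝ) ^ k * (k : ℝ) ^ 2 / ε ≤ N := by
        have h1 := Nat.le_ceil (8 * (n : ℝ) ^ k * (k : ℝ) ^ 2 / ε)
        have h2 : ((⌈8 * (n : ℝ) ^ k * (k : ℝ) ^ 2 / ε⌉₊ : ℕ) : ℝ) ≤ N := by exact_mod_cast (by omega : ⌈8 * (n : ℝ) ^ k * (k : ℝ) ^ 2 / ε⌉₊ ≤ N)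
        linarith
      rw [div_le_iff₀ hε] at e2
      rw [e1]
      have e3 : (n : ℝ) ^ k * (k : ℝ) ^ 2 ≤ ε / 8 * N := by linarith
      calc (n : ℝ) ^ k * ((k : ℝ) ^ 2 * (N : ℝ) ^ (k - 1)) = ((n : ℝ) ^ k * (k : ℝ) ^ 2) * (N : ℝ) ^ (k - 1) := by ring
        _ ≤ (ε / 8 * N) * (N : ℝ) ^ (k - 1) := mul_le_mul_of_nonneg_right e3 (by positivity)
        _ = _ := by ring
  have hc4 : ε / 8 * (N : ℝ) ^ k ≤ (n : ℝ) ^ k * IH.card := by
    have e1 : (n : ℝ) ^ k * ((homs H G).card : ℝ) ≤ (n : ℝ) ^ k * (IH.card + (k : ℝ) ^ 2 * (N : ℝ) ^ (k - 1)) :=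
      mul_le_mul_of_nonneg_left hc2 (by positivity)
    have e2 : ε / 2 / 2 * (N : ℝ) ^ k = ε / 8 * (N : ℝ) ^ k + ε / 8 * (N : ℝ) ^ k := by ring
    rw [e2] at hs
    have e3 : (n : ℝ) ^ k * (IH.card + (k : ℝ) ^ 2 * (N : ℝ) ^ (k - 1)) = (n : ℝ) ^ k * IH.card + (n : ℝ) ^ k * ((k : ℝ) ^ 2 * (N : ℝ) ^ (k - 1)) := by ring
    linarith
  -- the lower bound for N
  have hc5 : ((x : ℝ) / Real.log x) ^ k ≤ (M : ℝ) ^ k * (N : ℝ) ^ k := by
    rw [← mul_pow]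
    apply pow_le_pow_left₀ (by positivity)
    rw [div_le_iff₀ hL0]
    exact h7
  obtain ⟨S, hS⟩ : ∃ S : Set (V → ℕ), S = {f : V → ℕ | Function.Injective f ∧ (∀ v, (f v).Prime ∧ f v ≤ x) ∧
          ∀ u v, H.Adj u v → f u + f v ∈ Z} := ⟨_, rfl⟩
  rw [← hS]
  have hSfin : S.Finite := by
    apply Set.Finite.subset (Set.Finite.pi' (fun _ : V => Set.finite_Iic x))
    intro f hf
    rw [hS] at hf
    exact fun v => (hf.2.1 v).2
  have himg : (((IH.image (fun f => fun v => (f v).1)) : Finset (V → ℕ)) : Set (V → ℕ)) ⊆ S := by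
    intro g hg
    rw [coe_image] at hg
    obtain ⟨f, hf, hfg⟩ := hg
    have hgv : ∀ v, g v = (f v).1 := fun v => (congrFun hfg v).symm
    rw [mem_coe, hIH, mem_filter, mem_homs] at hf
    obtain ⟨hf1, hf2⟩ := hf
    rw [hS]
    refine ⟨fun u v huv => ?_, fun v => ?_, fun u v huv => ?_⟩
    · apply hf2
      apply Subtype.ext
      rw [← hgv, ← hgv]
      exact huv
    · rw [hgv]
      obtain ⟨q, hq⟩ := f v
      have e5 : q ∈ PP a b D c := by rw [← hP]; exact hq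
      unfold PP at e5
      rw [mem_filter, mem_Ioc] at e5
      refine ⟨e5.2.1, ?_⟩
      have e6 : 2 * q ≤ x := (Nat.mul_le_mul_left 2 e5.1.2).trans h6
      show q ≤ x
      omega
    · rw [hgv, hgv]
      exact (hf1 u v huv).2
  have hcard : IH.card ≤ S.ncard := by
    have e1 := Set.ncard_le_ncard himg hSfin
    rw [Set.ncard_coe_finset, card_image_of_injective] at e1
    · exact e1
    · intro f g hfg
      funext v
      exact Subtype.ext (congrFun hfg v)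
  have hcardr : (IH.card : ℝ) ≤ S.ncard := by exact_mod_cast hcard
  refine le_trans ?_ hcardr
  have e1 : ε / (8 * (n : ℝ) ^ k * (M : ℝ) ^ k) * ((x : ℝ) / Real.log x) ^ k ≤
      ε / (8 * (n : ℝ) ^ k * (M : ℝ) ^ k) * ((M : ℝ) ^ k * (N : ℝ) ^ k) :=
    mul_le_mul_of_nonneg_left hc5 (by positivity)
  refine e1.trans ?_
  have e2 : ε / (8 * (n : ℝ) ^ k * (M : ℝ) ^ k) * ((M : ℝ) ^ k * (N : ℝ) ^ k) = ε / 8 * (N : ℝ) ^ k / (n : ℝ) ^ k := by
    field_simp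
  rw [e2, div_le_iff₀ (by positivity), mul_comm]
  linarith

end Pool.Agent.N730.PT
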